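import Pool.Agent.H100Z.AT

set_option autoImplicit false

namespace Pool.Agent.H100Z.AT

open Encodable Pool.Agent.Helper227 Pool.Agent.H100Z.PR Filter Topology
open Pool.Agent.H100Z.Defs MeasureTheory Pool.Agent.H100Z.HB Pool.Agent.H100Z.BT
open Nat.Partrec (Code)
open scoped ENNReal

theorem pp_FE : PrimrecPred fun x : (ℕ × ℕ × List Bool) × List Bool =>
    FE x.1.1 x.1.2.1 x.1.2.2 x.2 := by
  unfold FE Far Ev dis
  refine PP.ex_mem (α := (ℕ × ℕ × List Bool) × List Bool) (f := fun x => allStr x.1.2.2.length)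
    (p := fun x γ => ((x.1.2.1 + 2) * x.1.2.2.length < (x.1.2.1 + 1) *
      (2 * (List.range x.1.2.2.length).countP
        fun i => xor (x.1.2.2.getD i false) (γ.getD i false))) ∧ ∀ i < γ.length,
      W (Denumerable.ofNat Code x.1.1) x.2 (L7 x.1.2.1 + i) (γ.getD i false) x.2.length = true ∧
      W (Denumerable.ofNat Code x.1.1) x.2 (L7 x.1.2.1 + i) (!γ.getD i false) x.2.length = false)
    (PrimrecPred.and (pp_lt ?_ (pmul ?_ (pmul ?_ (pcountP
      (f := fun z : ((ℕ × ℕ × List Bool) × List Bool) × List Bool => List.range z.1.1.2.2.length)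
      (g := fun z i => xor (z.1.1.2.2.getD i false) (z.2.getD i false)) ?_ ?_))))
      (PP.all_lt (α := ((ℕ × ℕ × List Bool) × List Bool) × List Bool) (f := fun z => z.2.length)
        (p := fun z i => W (Denumerable.ofNat Code z.1.1.1) z.1.2 (L7 z.1.1.2.1 + i)
          (z.2.getD i false) z.1.2.length = true ∧ W (Denumerable.ofNat Code z.1.1.1) z.1.2
          (L7 z.1.1.2.1 + i) (!z.2.getD i false) z.1.2.length = false)
        (PrimrecPred.and (pp_bool (pW ?_ ?_ ?_ ?_ ?_)) (pp_eq (pW ?_ ?_ ?_ ?_ ?_) ?_)) ?_)) ?_ <;>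
    fun_prop

theorem exists_light (e n : ℕ) : ∃ β : List Bool, β.length = L7 (n + 1) - L7 n ∧ ¬ Heavy e n β := by
  by_contra hc
  push Not at hc
  have h1 := heavy_card (e := e) (n := n) (l := L7 (n + 1) - L7 n)
    (allStr (L7 (n + 1) - L7 n)).toFinset fun β hβ =>
      ⟨mem_allStr.1 (List.mem_toFinset.1 hβ), hc β (mem_allStr.1 (List.mem_toFinset.1 hβ))⟩
  rw [List.toFinset_card_of_nodup (nodup_allStr _), length_allStr, mul_comm] at h1
  have h2 := Nat.le_of_mul_le_mul_right h1 (by positivity)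
  have h3 := L7_gap n
  have h4 : (n + 1) ^ 4 ≤ (n + 1) ^ 6 := Nat.pow_le_pow_right (by omega) (by norm_num)
  have h5 : 0 < (n + 1) ^ 6 := by positivity
  omega

theorem exists_guess {A : ℕ → Bool} {g : ℕ → ℕ} (hg : FunLe g A) (e : ℕ) : ∃ X, TLe X A ∧
    ∀ n, lam {B | FE e n (bl X n) (pre B (g n))} ≤
      ((1 : ℕ) : ℝ≥0∞) / (((n + 1) ^ 2 : ℕ) : ℝ≥0∞) := by
  classical
  let cn : ℕ → ℕ → List Bool → ℕ := fun n s β => (allStr s).countP fun ρ => decide (FE e n β ρ)
  have hcn : Primrec fun z : ℕ × ℕ × List Bool => cn z.1 z.2.1 z.2.2 :=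
    pcountP (f := fun z : ℕ × ℕ × List Bool => allStr z.2.1)
      (g := fun z ρ => decide (FE e z.1 z.2.2 ρ)) (by fun_prop)
      (pp_FE.comp (f := fun w : (ℕ × ℕ × List Bool) × List Bool => ((e, w.1.1, w.1.2.2), w.2))
        (by fun_prop)).decide
  have key : ∀ n s β, lam {B | FE e n β (pre B s)} ≤
      ((1 : ℕ) : ℝ≥0∞) / (((n + 1) ^ 2 : ℕ) : ℝ≥0∞) ↔ cn n s β * (n + 1) ^ 2 ≤ 2 ^ s := by
    intro n s β
    have h1 := lam_pre_count s fun ρ => decide (FE e n β ρ)
    simp only [decide_eq_true_eq] at h1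
    rw [h1, ENNReal.le_div_iff_mul_le (Or.inl (by positivity)) (Or.inl (by simp)), one_div,
      ← ENNReal.inv_pow, mul_right_comm, ← div_eq_mul_inv,
      ENNReal.div_le_iff (by positivity) (by simp), Nat.cast_one, one_mul]
    norm_cast
  have hR : SI A fun x : ℕ × ℕ => ∃ s, g x.1 = s ∧
      ((decode (α := List Bool) x.2).getD []).length = L7 (x.1 + 1) - L7 x.1 ∧
      cn x.1 s ((decode (α := List Bool) x.2).getD []) * (x.1 + 1) ^ 2 ≤ 2 ^ s :=
    SI.ex (SI.and ((funLe_iff.1 hg).comp (f := fun z : (ℕ × ℕ) × ℕ => (z.1.1, z.2)) (by fun_prop))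
      (SI.of_prim (PrimrecPred.and (pp_eq (by fun_prop) (by fun_prop)) (pp_le (pmul
        (hcn.comp (g := fun z : (ℕ × ℕ) × ℕ => (z.1.1, z.2, (decode (α := List Bool) z.1.2).getD []))
          (by fun_prop)) (by fun_prop)) (by fun_prop)))))
  obtain ⟨f, hf, h1⟩ := si_choice (R := fun n v => ∃ s, g n = s ∧
      ((decode (α := List Bool) v).getD []).length = L7 (n + 1) - L7 n ∧
      cn n s ((decode (α := List Bool) v).getD []) * (n + 1) ^ 2 ≤ 2 ^ s) hR (by
    intro n
    obtain ⟨β, h1, h2⟩ := exists_light e n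
    refine ⟨encode β, _, rfl, by simpa using h1, ?_⟩
    rw [encodek, Option.getD_some, ← key]
    refine le_trans (measure_mono ?_) (not_lt.1 h2)
    exact fun B hB => ⟨g n, hB⟩)
  have hQ : SI A fun x : ℕ × Bool => ∃ n, ∃ v, f n = v ∧ (L7 n ≤ x.1 ∧ x.1 < L7 (n + 1)) ∧
      ((decode (α := List Bool) v).getD []).getD (x.1 - L7 n) false = x.2 :=
    SI.ex (SI.ex (SI.and ((funLe_iff.1 hf).comp
      (f := fun z : ((ℕ × Bool) × ℕ) × ℕ => (z.1.2, z.2)) (by fun_prop))
      (SI.of_prim (PrimrecPred.and (PrimrecPred.and (pp_le (by fun_prop) (by fun_prop))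
        (pp_lt (by fun_prop) (by fun_prop))) (pp_eq (by fun_prop) (by fun_prop))))))
  obtain ⟨X, hX, h2⟩ := si_choice_bool (R := fun i b => ∃ n, ∃ v, f n = v ∧
      (L7 n ≤ i ∧ i < L7 (n + 1)) ∧
      ((decode (α := List Bool) v).getD []).getD (i - L7 n) false = b) hQ (by
    intro i
    have h2 : ∃ n, i < L7 (n + 1) := ⟨i, lt_of_lt_of_le (Nat.lt_succ_self i) (L7_strict.id_le _)⟩
    refine ⟨_, Nat.find h2, _, rfl, ⟨?_, Nat.find_spec h2⟩, rfl⟩
    rcases Nat.eq_zero_or_pos (Nat.find h2) with h | h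
    · rw [h]; simp [L7]
    · have := Nat.find_min h2 (m := Nat.find h2 - 1) (by omega)
      rw [show Nat.find h2 - 1 + 1 = Nat.find h2 by omega] at this
      omega)
  refine ⟨X, hX, fun n => ?_⟩
  obtain ⟨s, rfl, h3, h4⟩ := h1 n
  have h5 : bl X n = (decode (α := List Bool) (f n)).getD [] := by
    refine List.ext_getElem (by rw [h3, bl, length_pre]) fun i h5 h6 => ?_
    have h7 : i < L7 (n + 1) - L7 n := by rwa [h3] at h6
    refine (getElem_pre _ _ _ h5).trans ?_
    obtain ⟨m, v, rfl, ⟨h8, h9⟩, h10⟩ := h2 (L7 n + i)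
    have h11 : m < n + 1 := L7_strict.lt_iff_lt.1 (by omega)
    have h12 : n < m + 1 := L7_strict.lt_iff_lt.1 (by omega)
    obtain rfl : m = n := by omega
    rw [← h10, Nat.add_sub_cancel_left]
    simp [h6]
  rw [h5, key]
  exact h4

theorem attr_of_aed {A : ℕ → Bool} (hA : AEDominating A) : Attractive A := by
  choose! F hF using fun (g : ℕ → ℕ) (hg : FunLe g A) => exists_guess hg
  have h1 : ∀ᵐ B ∂lam, ∀ g ∈ {g | FunLe g A}, ∀ e, ∀ᶠ n in atTop,
      B ∉ {B | FE e n (bl (F g e) n) (pre B (g n))} := by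
    refine (ae_ball_iff (countable_funLe A)).2 fun g hg => ae_all_iff.2 fun e => ?_
    exact ae_eventually_notMem (ne_top_of_le_ne_top sum_inv_sq
      (ENNReal.tsum_le_tsum (hF g hg e).2))
  have h2 : ∀ᵐ B ∂lam, ∀ X ∈ {X | TLe X A}, delta B X ≤ 1 / 2 ∧ delta B (fun i => !X i) ≤ 1 / 2 :=
    (ae_ball_iff (HD.countable_below A)).2 fun X _ => (ae_half X).and (ae_half _)
  have hA' : ∀ᵐ B ∂lam, ∀ f : ℕ → ℕ, FunLe f B →
      ∃ g : ℕ → ℕ, FunLe g A ∧ ∀ᶠ n in atTop, f n ≤ g n := hA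
  have h3 : ∀ᵐ B ∂lam, H A B = 1 / 2 := by
    filter_upwards [h1, h2, hA'] with B h3 h4 hB
    rw [H_eq]
    refine le_antisymm (max_le (H1_le fun X hX ε hε => ⟨B, TLe.refl B, ?_⟩)
      (H1_le fun Y hY ε hε => ?_)) (le_max_of_le_right (le_H1 (TLe.refl B) fun X hX => ?_))
    · rw [delta_symm]; linarith [(h4 X hX).1]
    · obtain ⟨c, hc⟩ := exists_cpt hY
      have hR : SI B fun x : ℕ × ℕ => ∀ i < L7 (x.1 + 1), ∃ b, W c (pre B x.2) i b x.2 = true :=
        RI.si_take (E := fun (x : ℕ × ℕ) ζ => ∀ i < L7 (x.1 + 1), ∃ b, W c ζ i b x.2 = true)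
          (S1.all_lt (S1.ex (s1_bool (pW (by fun_prop) (by fun_prop) (by fun_prop) (by fun_prop)
            (by fun_prop)))) (by fun_prop)) (n := fun x => x.2) (by fun_prop)
      obtain ⟨t, ht, h5⟩ := si_choice
        (R := fun n s => ∀ i < L7 (n + 1), ∃ b, W c (pre B s) i b s = true) hR fun n =>
          let ⟨T, hT⟩ := W_complete hc (L7 (n + 1))
          ⟨T, fun i hi => ⟨_, hT i hi⟩⟩
      obtain ⟨g, hg, h6⟩ := hB t ht
      refine ⟨F g (encode c), (hF g hg _).1, ?_⟩
      rw [delta_symm]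
      refine le_trans (delta_le_half ?_) (by linarith)
      filter_upwards [h3 g hg (encode c), h6] with n h7 h8 h9
      have h10 : L7 n < L7 (n + 1) := L7_strict (Nat.lt_succ_self n)
      refine h7 ⟨bl Y n, mem_allStr.2 (by simp [bl]), ?_, fun i hi => ?_⟩
      · unfold Far dis at h9 ⊢
        rwa [List.countP_congr
          (q := fun i => xor ((bl (F g (encode c)) n).getD i false) (Y (L7 n + i)))]
        intro i hi
        rw [List.mem_range, bl, length_pre] at hi
        simp only [bl, pre_getD _ _ _ _ hi]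
      · rw [bl, length_pre] at hi
        rw [bl, pre_getD _ _ _ _ hi, length_pre, Denumerable.ofNat_encode]
        refine ⟨?_, ?_⟩
        · obtain ⟨b, hb⟩ := h5 n (L7 n + i) (by omega)
          rw [W_sound hc le_rfl hb]
          refine W_mono h8 ?_
          rwa [W_congr (β := pre B (t n)) (T := t n) le_rfl
            (by rw [take_pre _ _ _ h8, take_pre _ _ _ le_rfl])]
        · by_contra h11
          have := W_sound hc le_rfl (Bool.eq_true_of_not_eq_false h11)
          simp at this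
    · have h5 : 1 ≤ delta X fun i => !X i := far fun K => ⟨K, le_rfl, fun i _ => by simp⟩
      have h6 := delta_tri X B fun i => !X i
      rw [delta_symm X B] at h6
      linarith [(h4 X hX).2]
  exact h3

end Pool.Agent.H100Z.AT
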