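import Pool.Agent.H100Z.FW

set_option autoImplicit false

namespace Pool.Agent.H100Z.AT

open Encodable Pool.Agent.Helper227 Pool.Agent.H100Z.PR Filter Topology
open Pool.Agent.H100Z.Defs MeasureTheory Pool.Agent.H100Z.HB Pool.Agent.H100Z.BT
open Nat.Partrec (Code)
open scoped ENNReal

theorem cnt_mono (X Y : ℕ → Bool) {N M : ℕ} (h : N ≤ M) : CS.cnt X Y 0 N ≤ CS.cnt X Y 0 M := by
  induction h with
  | refl => exact le_rfl
  | step _ ih => rw [CS.cnt_succ]; omega

theorem cnt_le_self (X Y : ℕ → Bool) (N : ℕ) : CS.cnt X Y 0 N ≤ N := by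
  induction N with
  | zero => simp [CS.cnt_zero]
  | succ N ih => rw [CS.cnt_succ]; split_ifs <;> omega

theorem block_lemma {X Y : ℕ → Bool} {L : ℕ → ℕ} (hL : StrictMono L) {θ : ℝ} (hθ : 0 ≤ θ)
    (h1 : ∀ ε : ℝ, 0 < ε → ∀ᶠ n in atTop, (L (n + 1) : ℝ) ≤ (1 + ε) * L n)
    (h2 : ∀ ε : ℝ, 0 < ε → ∀ᶠ n in atTop, (CS.cnt X Y 0 (L (n + 1)) : ℝ) ≤
      CS.cnt X Y 0 (L n) + (θ + ε) * (L (n + 1) - L n)) : delta X Y ≤ θ := by
  refine delta_le_of fun ε hε => ?_
  obtain ⟨η, hη, hη1, hη2⟩ : ∃ η : ℝ, 0 < η ∧ η ≤ 1 ∧ η * (θ + 3) ≤ ε :=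
    ⟨min 1 (ε / (θ + 3)), by positivity, min_le_left _ _, by
      rw [← le_div_iff₀ (by positivity)]; exact min_le_right _ _⟩
  obtain ⟨n0, hn0⟩ := eventually_atTop.1 ((h1 η hη).and (h2 η hη))
  have h3 : ∀ n, n0 ≤ n → (CS.cnt X Y 0 (L n) : ℝ) ≤ L n0 + (θ + η) * L n := by
    intro n hn
    induction hn with
    | refl =>
      have : (CS.cnt X Y 0 (L n0) : ℝ) ≤ L n0 := by exact_mod_cast cnt_le_self X Y _
      have h4 : (0 : ℝ) ≤ (θ + η) * L n0 := by positivity
      linarith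
    | @step n hn ih =>
      have := (hn0 n hn).2
      simp only [Nat.succ_eq_add_one]
      linarith
  obtain ⟨K, hK⟩ := exists_nat_gt ((L n0 : ℝ) / η)
  filter_upwards [eventually_ge_atTop (L n0 + K + 1)] with N hN
  have h4 : ∃ d, N < L (n0 + d + 1) := ⟨N, lt_of_lt_of_le (by omega : N < n0 + N + 1) (hL.id_le (n0 + N + 1))⟩
  have h5 : L (n0 + Nat.find h4) ≤ N := by
    rcases Nat.eq_zero_or_pos (Nat.find h4) with h | h
    · rw [h, add_zero]; omega
    · have := Nat.find_min h4 (m := Nat.find h4 - 1) (by omega)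
      rw [show n0 + (Nat.find h4 - 1) + 1 = n0 + Nat.find h4 by omega] at this
      omega
  have h6 : (CS.cnt X Y 0 N : ℝ) ≤ CS.cnt X Y 0 (L (n0 + Nat.find h4 + 1)) := by
    exact_mod_cast cnt_mono X Y (Nat.find_spec h4).le
  have h7 := h3 (n0 + Nat.find h4 + 1) (by omega)
  have h8 := (hn0 (n0 + Nat.find h4) (by omega)).1
  have h9 : (L (n0 + Nat.find h4) : ℝ) ≤ N := by exact_mod_cast h5
  have h10 : (0 : ℝ) < N := by exact_mod_cast (by omega : 0 < N)
  have h11 : (K : ℝ) ≤ N := by exact_mod_cast (by omega : K ≤ N)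
  rw [div_lt_iff₀ hη] at hK
  rw [CS.rho_eq, div_le_iff₀ h10]
  have h12 : (L (n0 + Nat.find h4 + 1) : ℝ) ≤ (1 + η) * N := by nlinarith
  have h13 : (θ + η) * (L (n0 + Nat.find h4 + 1) : ℝ) ≤ (θ + η) * ((1 + η) * N) :=
    mul_le_mul_of_nonneg_left h12 (by positivity)
  have h14 : (L n0 : ℝ) ≤ η * N := by nlinarith
  have h15 : η * η * N ≤ η * N := by
    refine mul_le_mul_of_nonneg_right ?_ h10.le
    nlinarith
  have h16 : η * (θ + 3) * N ≤ ε * N := mul_le_mul_of_nonneg_right hη2 h10.le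
  nlinarith

/-- number of disagreements -/
def dis (β : List Bool) (g : ℕ → Bool) : ℕ :=
  (List.range β.length).countP fun i => xor (β.getD i false) (g i)

theorem dis_cons (b : Bool) (β : List Bool) (g : ℕ → Bool) :
    dis (b :: β) g = dis β (fun i => g (i + 1)) + (xor b (g 0)).toNat := by
  unfold dis
  rw [List.length_cons, List.range_succ_eq_map, List.countP_cons, List.countP_map]
  congr 1
  cases b <;> cases g 0 <;> rfl

theorem sum_sq (n : ℕ) (g : ℕ → Bool) :
    ((allStr n).map fun β => (2 * (dis β g : ℤ) - n) ^ 2).sum = (n : ℤ) * 2 ^ n := by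
  induction n generalizing g with
  | zero => simp [allStr, dis]
  | succ n ih =>
    have key : ∀ l : List (List Bool), ((l.flatMap fun τ => [false :: τ, true :: τ]).map
        fun β => (2 * (dis β g : ℤ) - (n + 1 : ℕ)) ^ 2).sum =
        2 * (l.map fun β => (2 * (dis β (fun i => g (i + 1)) : ℤ) - n) ^ 2).sum +
          2 * (l.length : ℤ) := by
      intro l
      induction l with
      | nil => simp
      | cons τ l ih2 =>
        simp only [List.flatMap_cons, List.map_append, List.sum_append, ih2, List.map_cons,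
          List.sum_cons, List.map_nil, List.sum_nil, dis_cons, List.length_cons]
        cases g 0 <;> simp <;> ring
    rw [allStr, key, ih, length_allStr]
    push_cast
    ring

/-- many disagreements -/
def Far (n : ℕ) (β : List Bool) (g : ℕ → Bool) : Prop :=
  (n + 2) * β.length < (n + 1) * (2 * dis β g)

theorem card_far (n l : ℕ) (g : ℕ → Bool) (F : Finset (List Bool))
    (h : ∀ β ∈ F, β.length = l ∧ Far n β g) : F.card * l ≤ (n + 1) ^ 2 * 2 ^ l := by
  rcases Nat.eq_zero_or_pos l with rfl | hl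
  · simp
  have h1 : ∑ β ∈ (allStr l).toFinset, (2 * (dis β g : ℤ) - l) ^ 2 = (l : ℤ) * 2 ^ l := by
    rw [List.sum_toFinset _ (nodup_allStr l), sum_sq]
  have h2 : ∑ β ∈ F, (2 * (dis β g : ℤ) - l) ^ 2 ≤ (l : ℤ) * 2 ^ l := by
    rw [← h1]
    exact Finset.sum_le_sum_of_subset_of_nonneg
      (fun β hβ => List.mem_toFinset.2 (mem_allStr.2 (h β hβ).1)) fun _ _ _ => sq_nonneg _
  have h3 := Finset.card_nsmul_le_sum F
    (fun β => ((n : ℤ) + 1) ^ 2 * (2 * (dis β g : ℤ) - l) ^ 2) ((l : ℤ) ^ 2) fun β hβ => by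
      have h4 := (h β hβ).2
      unfold Far at h4
      rw [(h β hβ).1] at h4
      have h5 : ((n : ℤ) + 2) * l < (n + 1) * (2 * dis β g) := by exact_mod_cast h4
      rw [← mul_pow]
      exact pow_le_pow_left₀ (by positivity) (by linarith) 2
  rw [← Finset.mul_sum, nsmul_eq_mul] at h3
  have h4 : (F.card : ℤ) * l * l ≤ (n + 1) ^ 2 * 2 ^ l * l := by
    nlinarith [mul_le_mul_of_nonneg_left h2 (by positivity : (0 : ℤ) ≤ (n + 1) ^ 2)]
  have h5 := le_of_mul_le_mul_right h4 (by exact_mod_cast hl)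
  exact_mod_cast h5

/-- lengths of the levels -/
def L7 (n : ℕ) : ℕ := 4 * n ^ 7

theorem L7_gap (n : ℕ) : 4 * (n + 1) ^ 6 ≤ L7 (n + 1) - L7 n := by
  have h : n ^ 6 ≤ (n + 1) ^ 6 := Nat.pow_le_pow_left (Nat.le_succ n) 6
  have h2 : n ^ 7 ≤ n * (n + 1) ^ 6 := by rw [pow_succ']; exact Nat.mul_le_mul_left _ h
  have h3 : (n + 1) ^ 7 = n * (n + 1) ^ 6 + (n + 1) ^ 6 := by ring
  unfold L7
  omega

theorem L7_strict : StrictMono L7 := strictMono_nat_of_lt_succ fun n => by
  have h1 := L7_gap n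
  have h2 : 0 < (n + 1) ^ 6 := by positivity
  omega

theorem primrec_L7 : Primrec L7 := by unfold L7; fun_prop

@[fun_prop] theorem pL7 {α : Type*} [Primcodable α] {f : α → ℕ} (hf : Primrec f) :
    Primrec fun x => L7 (f x) := primrec_L7.comp hf

/-- the block of level `n` -/
def bl (Z : ℕ → Bool) (n : ℕ) : List Bool := pre (fun i => Z (L7 n + i)) (L7 (n + 1) - L7 n)

theorem bl_eq (Z : ℕ → Bool) (n : ℕ) : (pre Z (L7 (n + 1))).drop (L7 n) = bl Z n := by
  refine List.ext_getElem (by simp [bl]) fun i h1 h2 => ?_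
  rw [List.getElem_drop, getElem_pre]
  exact (getElem_pre _ _ _ h2).symm

theorem cnt_block (X Y : ℕ → Bool) (a l : ℕ) : CS.cnt X Y 0 (a + l) =
    CS.cnt X Y 0 a + dis (pre (fun i => X (a + i)) l) (fun i => Y (a + i)) := by
  have : dis (pre (fun i => X (a + i)) l) (fun i => Y (a + i)) =
      (List.range l).countP fun i => xor (X (a + i)) (Y (a + i)) := by
    unfold dis
    rw [length_pre]
    exact List.countP_congr fun i hi => by rw [pre_getD _ _ _ _ (List.mem_range.1 hi)]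
  rw [this]
  simp [CS.cnt, List.range_add, List.countP_map, Function.comp_def]

theorem delta_le_half {X Y : ℕ → Bool}
    (h : ∀ᶠ n in atTop, ¬ Far n (bl X n) fun i => Y (L7 n + i)) : delta X Y ≤ 1 / 2 := by
  refine block_lemma L7_strict (by norm_num) (fun ε hε => ?_) fun ε hε => ?_
  · have h1 : Tendsto (fun n : ℕ => (1 + 1 / (n : ℝ)) ^ 7) atTop (𝓝 ((1 + 0) ^ 7)) :=
      (tendsto_const_nhds.add tendsto_one_div_atTop_nhds_zero_nat).pow 7
    filter_upwards [h1.eventually (gt_mem_nhds (show ((1 : ℝ) + 0) ^ 7 < 1 + ε by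
      norm_num; exact hε)), eventually_gt_atTop 0] with n h2 h3
    have h4 : (0 : ℝ) < n := by exact_mod_cast h3
    have h5 : (1 + 1 / (n : ℝ)) ^ 7 * n ^ 7 = (n + 1) ^ 7 := by field_simp
    unfold L7
    push_cast
    nlinarith [mul_lt_mul_of_pos_right h2 (by positivity : (0 : ℝ) < n ^ 7)]
  · obtain ⟨K, hK⟩ := exists_nat_gt (1 / ε)
    filter_upwards [h, eventually_ge_atTop K] with n h1 h2
    have h3 : L7 n ≤ L7 (n + 1) := L7_strict.monotone (Nat.le_succ n)
    have h4 := cnt_block X Y (L7 n) (L7 (n + 1) - L7 n)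
    rw [Nat.add_sub_cancel' h3] at h4
    unfold Far at h1
    rw [bl, length_pre, not_lt] at h1
    rw [h4]
    generalize dis (pre (fun i => X (L7 n + i)) (L7 (n + 1) - L7 n)) (fun i => Y (L7 n + i)) = d at *
    have h5 : ((n : ℝ) + 1) * (2 * d) ≤ (n + 2) * ((L7 (n + 1) : ℝ) - L7 n) := by
      rw [← Nat.cast_sub h3]; exact_mod_cast h1
    have h6 : (0 : ℝ) ≤ (L7 (n + 1) : ℝ) - L7 n := by
      rw [← Nat.cast_sub h3]; positivity
    generalize (L7 (n + 1) : ℝ) - L7 n = l at *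
    rw [div_lt_iff₀ hε] at hK
    have h7 : (K : ℝ) ≤ n := by exact_mod_cast h2
    have h8 : (1 : ℝ) ≤ (n + 1) * ε := by nlinarith
    have h9 : ((n : ℝ) + 1) * d ≤ (n + 1) * ((1 / 2 + ε) * l) := by nlinarith
    have h10 := le_of_mul_le_mul_left h9 (by positivity)
    push_cast
    linarith

theorem sum_inv_sq : ∑' n : ℕ, ((1 : ℕ) : ℝ≥0∞) / (((n + 1) ^ 2 : ℕ) : ℝ≥0∞) ≠ ⊤ := by
  have h : Summable fun n : ℕ => (1 : ℝ) / ((n + 1 : ℕ) : ℝ) ^ 2 :=
    (summable_nat_add_iff 1).2 (Real.summable_one_div_nat_pow.2 one_lt_two)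
  have h2 := h.tsum_ofReal_ne_top
  refine ne_of_eq_of_ne (tsum_congr fun n => ?_) h2
  rw [ENNReal.ofReal_div_of_pos (by positivity), ENNReal.ofReal_pow (by positivity),
    ENNReal.ofReal_natCast]
  simp

theorem ae_half (X : ℕ → Bool) : ∀ᵐ B ∂lam, delta B X ≤ 1 / 2 := by
  classical
  have h : ∀ᵐ B ∂lam, ∀ᶠ n in atTop, B ∉ {B | Far n (bl B n) fun i => X (L7 n + i)} := by
    refine ae_eventually_notMem (ne_top_of_le_ne_top sum_inv_sq (ENNReal.tsum_le_tsum fun n => ?_))
    have hm : Measurable (fun (X : ℕ → Bool) i => X (L7 n + i)) :=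
      measurable_pi_iff.2 fun i => measurable_pi_apply _
    have h1 := Measure.map_apply (μ := lam) hm (measurableSet_pre (L7 (n + 1) - L7 n)
      fun β => β ∈ (allStr (L7 (n + 1) - L7 n)).toFinset.filter
        fun β => Far n β fun i => X (L7 n + i))
    rw [lam_comp (j := fun i => L7 n + i) (fun a b h => by simpa using h), lam_finset _ _
      (fun β hβ => mem_allStr.1 (List.mem_toFinset.1 (Finset.mem_filter.1 hβ).1))] at h1
    have h2 := card_far n (L7 (n + 1) - L7 n) (fun i => X (L7 n + i))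
      ((allStr (L7 (n + 1) - L7 n)).toFinset.filter fun β => Far n β fun i => X (L7 n + i))
      fun β hβ => ⟨mem_allStr.1 (List.mem_toFinset.1 (Finset.mem_filter.1 hβ).1),
        (Finset.mem_filter.1 hβ).2⟩
    refine le_trans (measure_mono ?_) (h1.symm.le.trans ?_)
    · intro B hB
      exact Finset.mem_filter.2 ⟨List.mem_toFinset.2 (mem_allStr.2 (length_pre _ _)), hB⟩
    · have h3 := L7_gap n
      generalize ((allStr (L7 (n + 1) - L7 n)).toFinset.filter
        fun β => Far n β fun i => X (L7 n + i)).card = c at h2 ⊢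
      generalize L7 (n + 1) - L7 n = l at h2 h3 ⊢
      have h4 : c * (n + 1) ^ 2 ≤ 2 ^ l := by
        have h5 : 0 < (n + 1) ^ 2 := by positivity
        refine Nat.le_of_mul_le_mul_left ?_ h5
        have h6 : (n + 1) ^ 4 ≤ (n + 1) ^ 6 := Nat.pow_le_pow_right (by omega) (by norm_num)
        calc _ = c * (n + 1) ^ 4 := by ring
          _ ≤ c * l := Nat.mul_le_mul_left _ (by omega)
          _ ≤ _ := h2
      rw [ENNReal.le_div_iff_mul_le (Or.inl (by positivity)) (Or.inl (by simp)), one_div,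
        ← ENNReal.inv_pow, mul_right_comm, ← div_eq_mul_inv,
        ENNReal.div_le_iff (by positivity) (by simp)]
      exact_mod_cast (by simpa using h4)
  filter_upwards [h] with B hB using delta_le_half hB

/-- the functional `c` outputs `γ` from position `a` on -/
def Ev (c : Code) (a : ℕ) (γ ρ : List Bool) : Prop :=
  ∀ i < γ.length, W c ρ (a + i) (γ.getD i false) ρ.length = true ∧
    W c ρ (a + i) (!γ.getD i false) ρ.length = false

theorem Ev_disjoint (c : Code) (a : ℕ) {β β' : List Bool} (hl : β.length = β'.length)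
    (h : β ≠ β') : Disjoint {B | ∃ s, Ev c a β (pre B s)} {B | ∃ s, Ev c a β' (pre B s)} := by
  have key : ∀ (B : ℕ → Bool) i b s s', s ≤ s' → W c (pre B s) i b s = true →
      W c (pre B s') i b s' = true := fun B i b s s' h1 h2 => by
    refine W_mono h1 ?_
    rw [W_congr (β := pre B s) (T := s) le_rfl
      (by rw [take_pre _ _ _ h1, take_pre _ _ _ le_rfl])]
    exact h2
  rw [Set.disjoint_left]
  rintro B ⟨s, h1⟩ ⟨s', h2⟩
  simp only [Ev, length_pre] at h1 h2
  refine h (List.ext_getElem hl fun i h3 h4 => ?_)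
  have e1 : β.getD i false = β[i] := by simp [h3]
  have e2 : β'.getD i false = β'[i] := by simp [h4]
  obtain ⟨h5, h6⟩ := h1 i h3
  obtain ⟨h7, h8⟩ := h2 i h4
  rw [e1] at h5 h6
  rw [e2] at h7 h8
  by_contra hne
  have e3 : β'[i] = !β[i] := by
    cases h9 : β[i] <;> cases h10 : β'[i] <;> simp_all
  rw [e3] at h7 h8
  rcases le_total s s' with h9 | h9
  · have := key B _ _ _ _ h9 h5
    simp [this] at h8
  · have := key B _ _ _ _ h9 h7
    simp [this] at h6

/-- the output of the `e`-th functional on the block `n` is far from `β` -/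
def FE (e n : ℕ) (β ρ : List Bool) : Prop :=
  ∃ γ ∈ allStr β.length, Far n β (fun i => γ.getD i false) ∧
    Ev (Denumerable.ofNat Code e) (L7 n) γ ρ

/-- heavy values -/
def Heavy (e n : ℕ) (β : List Bool) : Prop :=
  ((1 : ℕ) : ℝ≥0∞) / (((n + 1) ^ 2 : ℕ) : ℝ≥0∞) < lam {B | ∃ s, FE e n β (pre B s)}

theorem s1_Heavy : S1 fun x : ℕ × ℕ × List Bool => Heavy x.1 x.2.1 x.2.2 := by
  refine s1_measure_gt (P := fun (x : ℕ × ℕ × List Bool) ρ => FE x.1 x.2.1 x.2.2 ρ) ?_
    (a := fun _ => 1) (b := fun x => (x.2.1 + 1) ^ 2) (by fun_prop) (by fun_prop)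
    (fun x => by positivity)
  unfold FE Far Ev dis
  have h : S1 fun x : (ℕ × ℕ × List Bool) × List Bool => ∃ γ : List Bool, γ.length = x.1.2.2.length ∧
      ((x.1.2.1 + 2) * x.1.2.2.length < (x.1.2.1 + 1) * (2 * (List.range x.1.2.2.length).countP
        fun i => xor (x.1.2.2.getD i false) (γ.getD i false))) ∧ ∀ i < γ.length,
      W (Denumerable.ofNat Code x.1.1) x.2 (L7 x.1.2.1 + i) (γ.getD i false) x.2.length = true ∧
      W (Denumerable.ofNat Code x.1.1) x.2 (L7 x.1.2.1 + i) (!γ.getD i false) x.2.length = false := by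
    refine S1.ex (S1.and (s1_eq ?_ ?_) (S1.and (s1_lt ?_ (pmul ?_ (pmul ?_ (pcountP
      (f := fun z : ((ℕ × ℕ × List Bool) × List Bool) × List Bool => List.range z.1.1.2.2.length)
      (g := fun z i => xor (z.1.1.2.2.getD i false) (z.2.getD i false)) ?_ ?_))))
      (S1.all_lt (S1.and (s1_bool (pW ?_ ?_ ?_ ?_ ?_)) (s1_eq (pW ?_ ?_ ?_ ?_ ?_) ?_)) ?_))) <;>
      fun_prop
  exact h.of_eq fun x => exists_congr fun γ => by rw [mem_allStr]

theorem heavy_card {e n l : ℕ} (F : Finset (List Bool)) (h : ∀ β ∈ F, β.length = l ∧ Heavy e n β) :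
    F.card * l ≤ (n + 1) ^ 4 * 2 ^ l := by
  classical
  let μ : List Bool → ℝ := fun γ =>
    lam.real {B | ∃ s, Ev (Denumerable.ofNat Code e) (L7 n) γ (pre B s)}
  have h1 : ∑ γ ∈ (allStr l).toFinset, μ γ ≤ 1 := by
    rw [← measureReal_biUnion_finset]
    · exact measureReal_le_one
    · intro β hβ β' hβ' hne
      exact Ev_disjoint _ _ (by rw [mem_allStr.1 (List.mem_toFinset.1 hβ),
        mem_allStr.1 (List.mem_toFinset.1 hβ')]) hne
    · intro β _
      exact measurableSet_open fun _ ρ => Ev (Denumerable.ofNat Code e) (L7 n) β ρ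
  have h2 : ∀ β ∈ F, (1 : ℝ) / (n + 1) ^ 2 ≤
      ∑ γ ∈ (allStr l).toFinset, if Far n β (fun i => γ.getD i false) then μ γ else 0 := by
    intro β hβ
    rw [← Finset.sum_filter]
    refine le_trans ?_ (measureReal_biUnion_finset_le _ _)
    have h3 := ENNReal.toReal_mono (measure_ne_top _ _) (h β hβ).2.le
    rw [ENNReal.toReal_div, ENNReal.toReal_natCast, ENNReal.toReal_natCast] at h3
    push_cast at h3
    refine h3.trans (measureReal_mono ?_ (measure_ne_top _ _))
    rintro B ⟨s, γ, h4, h5, h6⟩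
    rw [(h β hβ).1] at h4
    exact Set.mem_biUnion (x := γ) (Finset.mem_coe.2 (Finset.mem_filter.2
      ⟨List.mem_toFinset.2 h4, h5⟩)) ⟨s, h6⟩
  have h3 := Finset.card_nsmul_le_sum F _ _ h2
  rw [Finset.sum_comm, nsmul_eq_mul] at h3
  have h4 : ∀ γ ∈ (allStr l).toFinset, (∑ β ∈ F,
      if Far n β (fun i => γ.getD i false) then μ γ else 0) * l ≤ μ γ * ((n + 1) ^ 2 * 2 ^ l) := by
    intro γ _
    rw [← Finset.sum_filter, Finset.sum_const, nsmul_eq_mul, mul_right_comm, mul_comm]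
    refine mul_le_mul_of_nonneg_left ?_ measureReal_nonneg
    exact_mod_cast card_far n l _ _ fun β hβ =>
      ⟨(h β (Finset.mem_filter.1 hβ).1).1, (Finset.mem_filter.1 hβ).2⟩
  have h5 := Finset.sum_le_sum h4
  rw [← Finset.sum_mul, ← Finset.sum_mul] at h5
  have h6 := (mul_le_mul_of_nonneg_right h3 (Nat.cast_nonneg l)).trans (h5.trans
    (mul_le_mul_of_nonneg_right h1 (by positivity)))
  have h7 : (F.card : ℝ) * l ≤ (n + 1) ^ 4 * 2 ^ l := by
    have h8 : (F.card : ℝ) * (1 / (n + 1) ^ 2) * l = F.card * l / (n + 1) ^ 2 := by ring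
    rw [h8, div_le_iff₀ (by positivity)] at h6
    calc _ ≤ _ := h6
      _ = _ := by ring
  exact_mod_cast h7

/-- units -/
def u7 (n : ℕ) : ℕ := 2 ^ (L7 (n + 1) - L7 n) / (4 * (n + 1)) + 1

theorem primrec_u7 : Primrec u7 := by unfold u7; fun_prop

theorem bushy_top (K : ℕ) : Bushy u7 L7 (fun _ => True) (K + 1) K := by
  intro m ρ hm _ _
  refine ⟨(allStr (L7 (m + 1) - L7 m)).toFinset, ?_, fun β hβ =>
    ⟨mem_allStr.1 (List.mem_toFinset.1 hβ), trivial⟩⟩
  rw [List.toFinset_card_of_nodup (nodup_allStr _), length_allStr]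
  have h1 := L7_gap m
  have h2 : m + 1 ≤ (m + 1) ^ 6 := Nat.le_self_pow (by norm_num) _
  unfold u7
  generalize L7 (m + 1) - L7 m = l at *
  have h3 : l < 2 ^ l := Nat.lt_two_pow_self
  have h4 := Nat.div_mul_le_self (2 ^ l) (4 * (m + 1))
  generalize 2 ^ l / (4 * (m + 1)) = d at *
  nlinarith

/-- some block of `ρ` is heavy -/
def P0 (ρ : List Bool) : Prop :=
  ∃ n, L7 (n + 1) ≤ ρ.length ∧ ∃ e, e ≤ n ∧ Heavy e n ((ρ.take (L7 (n + 1))).drop (L7 n))

theorem s1_P0 : S1 P0 := by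
  unfold P0
  exact S1.ex (S1.and (s1_le (by fun_prop) (by fun_prop)) (S1.ex (S1.and
    (s1_le (by fun_prop) (by fun_prop)) (s1_Heavy.comp
      (f := fun z : (List Bool × ℕ) × ℕ =>
        (z.2, z.1.2, (z.1.1.take (L7 (z.1.2 + 1))).drop (L7 z.1.2))) (by fun_prop)))))

theorem P0_up (ρ ρ' : List Bool) (h : ρ <+: ρ') (h2 : P0 ρ) : P0 ρ' := by
  obtain ⟨n, h3, h4⟩ := h2
  obtain ⟨t, rfl⟩ := h
  refine ⟨n, by rw [List.length_append]; omega, ?_⟩
  rwa [List.take_append_of_le_length h3]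

theorem P0_small {m : ℕ} {τ : List Bool} (h : Big u7 L7 (fun _ => True) 1 P0 m τ)
    (hl : τ.length = L7 m) : P0 τ := by
  classical
  induction h with
  | base _ h => exact h
  | @step m τ F _ h2 h3 _ ih =>
    by_contra hc
    have h4 : L7 m < L7 (m + 1) := L7_strict (Nat.lt_succ_self m)
    have h5 : F ⊆ (Finset.range (m + 1)).biUnion fun e => F.filter (Heavy e m) := by
      intro β hβ
      have h6 : (τ ++ β).length = L7 (m + 1) := by rw [List.length_append, hl, h3 β hβ]; omega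
      obtain ⟨n, h7, e, h8, h9⟩ := ih β hβ h6
      rw [h6] at h7
      have h10 : n + 1 ≤ m + 1 := L7_strict.le_iff_le.1 h7
      rcases Nat.lt_or_ge n m with h11 | h11
      · have h12 : L7 (n + 1) ≤ τ.length := by rw [hl]; exact L7_strict.monotone h11
        rw [List.take_append_of_le_length h12] at h9
        exact absurd ⟨n, h12, e, h8, h9⟩ hc
      · obtain rfl : n = m := by omega
        rw [← h6, List.take_length, ← hl, List.drop_left] at h9
        exact Finset.mem_biUnion.2 ⟨e, Finset.mem_range.2 (by omega), Finset.mem_filter.2 ⟨hβ, h9⟩⟩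
    have h7 := L7_gap m
    have h6 := (Finset.card_le_card h5).trans (Finset.card_biUnion_le_card_mul _ _
      (2 ^ (L7 (m + 1) - L7 m) / (4 * (m + 1) ^ 2)) fun e _ => by
        have h8 := heavy_card (e := e) (l := L7 (m + 1) - L7 m) (F.filter (Heavy e m)) fun β hβ =>
          ⟨h3 β (Finset.mem_filter.1 hβ).1, (Finset.mem_filter.1 hβ).2⟩
        rw [Nat.le_div_iff_mul_le (by positivity)]
        refine Nat.le_of_mul_le_mul_left ?_ (show 0 < (m + 1) ^ 4 by positivity)
        calc _ = (F.filter (Heavy e m)).card * (4 * (m + 1) ^ 6) := by ring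
          _ ≤ _ := Nat.mul_le_mul_left _ h7
          _ ≤ _ := h8)
    rw [Finset.card_range] at h6
    have h8 : F.card ≤ 2 ^ (L7 (m + 1) - L7 m) / (4 * (m + 1)) := by
      rw [Nat.le_div_iff_mul_le (by positivity)]
      have h9 := Nat.div_mul_le_self (2 ^ (L7 (m + 1) - L7 m)) (4 * (m + 1) ^ 2)
      calc _ ≤ (m + 1) * (2 ^ (L7 (m + 1) - L7 m) / (4 * (m + 1) ^ 2)) * (4 * (m + 1)) :=
            Nat.mul_le_mul_right _ h6
        _ = _ := by ring
        _ ≤ _ := h9
    unfold u7 at h2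
    omega

theorem attractive {A : ℕ → Bool} (hA : ∀ t, ¬ P0 (pre A t)) : Attractive A := by
  have h1 : ∀ᵐ B ∂lam, ∀ e, ∀ᶠ n in atTop,
      B ∉ {B | e ≤ n ∧ ∃ s, FE e n (bl A n) (pre B s)} := by
    rw [ae_all_iff]
    intro e
    refine ae_eventually_notMem (ne_top_of_le_ne_top sum_inv_sq (ENNReal.tsum_le_tsum fun n => ?_))
    by_cases h : e ≤ n
    · simp only [h, true_and]
      by_contra h2
      refine hA (L7 (n + 1)) ⟨n, by simp, e, h, ?_⟩
      rw [take_pre _ _ _ le_rfl, bl_eq]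
      exact not_le.1 h2
    · simp [h]
  have h2 : ∀ᵐ B ∂lam, ∀ X ∈ {X | TLe X A}, delta B X ≤ 1 / 2 ∧ delta B (fun i => !X i) ≤ 1 / 2 := by
    exact (ae_ball_iff (HD.countable_below A)).2 fun X _ => (ae_half X).and (ae_half _)
  have h3 : ∀ᵐ B ∂lam, H A B = 1 / 2 := by
    filter_upwards [h1, h2] with B h3 h4
    rw [H_eq]
    refine le_antisymm (max_le (H1_le fun X hX ε hε => ⟨B, TLe.refl B, ?_⟩)
      (H1_le fun Y hY ε hε => ⟨A, TLe.refl A, ?_⟩)) (le_max_of_le_right
        (le_H1 (TLe.refl B) fun X hX => ?_))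
    · rw [delta_symm]; linarith [(h4 X hX).1]
    · rw [delta_symm]
      refine le_trans (delta_le_half ?_) (by linarith)
      obtain ⟨c, hc⟩ := exists_cpt hY
      filter_upwards [h3 (encode c), eventually_ge_atTop (encode c)] with n h5 h6 h7
      obtain ⟨T, hT⟩ := W_complete hc (L7 (n + 1))
      have h8 : L7 n < L7 (n + 1) := L7_strict (Nat.lt_succ_self n)
      refine h5 ⟨h6, T, bl Y n, mem_allStr.2 (by simp [bl]), ?_, fun i hi => ?_⟩
      · unfold Far dis at h7 ⊢
        rwa [List.countP_congr (q := fun i => xor ((bl A n).getD i false) (Y (L7 n + i)))]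
        intro i hi
        rw [List.mem_range, bl, length_pre] at hi
        simp only [bl, pre_getD _ _ _ _ hi]
      · rw [bl, length_pre] at hi
        rw [bl, pre_getD _ _ _ _ hi, length_pre, Denumerable.ofNat_encode]
        refine ⟨hT _ (by omega), ?_⟩
        by_contra h9
        have := W_sound hc le_rfl (Bool.eq_true_of_not_eq_false h9)
        simp at this
    · have h5 : 1 ≤ delta X fun i => !X i := far fun K => ⟨K, le_rfl, fun i _ => by simp⟩
      have h6 := delta_tri X B fun i => !X i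
      rw [delta_symm X B] at h6
      linarith [(h4 X hX).2]
  exact h3

end Pool.Agent.H100Z.AT
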