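import Pool.Agent.H100Z.RI

set_option autoImplicit false

namespace Pool.Agent.H100Z.BT

open Encodable Pool.Agent.Helper227 Pool.Agent.H100Z.PR

/-- `S` is `p`-big above the node `τ` of level `m`, inside the tree `T` -/
inductive Big (u L : ℕ → ℕ) (T : List Bool → Prop) (p : ℕ) (S : List Bool → Prop) :
    ℕ → List Bool → Prop
  | base {m : ℕ} {τ : List Bool} : T τ → S τ → Big u L T p S m τ
  | step {m : ℕ} {τ : List Bool} (F : Finset (List Bool)) : T τ → p * u m ≤ F.card →
      (∀ β, β ∈ F → β.length = L (m + 1) - L m) → (∀ β, β ∈ F → Big u L T p S (m + 1) (τ ++ β)) →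
      Big u L T p S m τ

variable {u L : ℕ → ℕ} {T T' S S' : List Bool → Prop} {p p' m : ℕ} {τ : List Bool}

theorem Big.mem (h : Big u L T p S m τ) : T τ := by
  cases h <;> assumption

theorem Big.mono (h : Big u L T p S m τ) (hT : ∀ ρ, T ρ → T' ρ) (hp : p' ≤ p)
    (hS : ∀ ρ, T ρ → S ρ → S' ρ) : Big u L T' p' S' m τ := by
  induction h with
  | base h1 h2 => exact .base (hT _ h1) (hS _ h1 h2)
  | step F h1 h2 h3 _ ih => exact .step F (hT _ h1) ((Nat.mul_le_mul_right _ hp).trans h2) h3 ih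

theorem Big.union (h : Big u L T (p + p') (fun ρ => S ρ ∨ S' ρ) m τ) :
    Big u L T p S m τ ∨ Big u L T p' S' m τ := by
  classical
  induction h with
  | base h1 h2 => exact h2.imp (.base h1) (.base h1)
  | @step m τ F h1 h2 h3 _ ih =>
    have h4 := Finset.card_filter_add_card_filter_not (s := F)
      (fun β => Big u L T p S (m + 1) (τ ++ β))
    by_cases h5 : p * u m ≤ (F.filter fun β => Big u L T p S (m + 1) (τ ++ β)).card
    · exact Or.inl (.step _ h1 h5 (fun β hβ => h3 β (Finset.mem_filter.1 hβ).1)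
        fun β hβ => (Finset.mem_filter.1 hβ).2)
    · refine Or.inr (.step (F.filter fun β => ¬ Big u L T p S (m + 1) (τ ++ β)) h1 ?_
        (fun β hβ => h3 β (Finset.mem_filter.1 hβ).1) fun β hβ =>
          (ih β (Finset.mem_filter.1 hβ).1).resolve_left (Finset.mem_filter.1 hβ).2)
      rw [add_mul] at h2
      omega

theorem Big.union_list {ι : Type*} {C : ι → List Bool → Prop} (l : List ι)
    (h : Big u L T (p + p' * l.length) (fun ρ => S ρ ∨ ∃ v ∈ l, C v ρ) m τ) :
    Big u L T p S m τ ∨ ∃ v ∈ l, Big u L T p' (C v) m τ := by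
  induction l with
  | nil => exact Or.inl (h.mono (fun _ h => h) (by simp) (by simp))
  | cons v l ih =>
    have h1 : Big u L T ((p + p' * l.length) + p')
        (fun ρ => (S ρ ∨ ∃ v ∈ l, C v ρ) ∨ C v ρ) m τ := by
      refine h.mono (fun _ h => h) (by rw [List.length_cons]; nlinarith) fun ρ _ h1 => ?_
      simp only [List.mem_cons, exists_eq_or_imp] at h1
      rcases h1 with h1 | h1 | h1
      exacts [Or.inl (Or.inl h1), Or.inr h1, Or.inl (Or.inr h1)]
    rcases h1.union with h2 | h2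
    · exact (ih h2).imp id fun ⟨w, h3, h4⟩ => ⟨w, List.mem_cons_of_mem _ h3, h4⟩
    · exact Or.inr ⟨v, List.mem_cons_self, h2⟩

theorem Big.leaf (hL : Monotone L) (h : Big u L T p S' m τ) (h2 : ¬ Big u L T p S m τ)
    (hl : τ.length = L m) :
    ∃ m' ρ, m ≤ m' ∧ ρ.length = L m' ∧ τ <+: ρ ∧ T ρ ∧ S' ρ ∧ ¬ Big u L T p S m' ρ := by
  induction h with
  | base h3 h4 => exact ⟨_, _, le_rfl, hl, List.prefix_refl _, h3, h4, h2⟩
  | @step m τ F h3 h4 h5 _ ih =>
    have : ∃ β ∈ F, ¬ Big u L T p S (m + 1) (τ ++ β) := by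
      by_contra hc
      push Not at hc
      exact h2 (.step F h3 h4 h5 hc)
    obtain ⟨β, h6, h7⟩ := this
    have h8 := hL (Nat.le_succ m)
    obtain ⟨m', ρ, h9, h10, h11, h12⟩ := ih β h6 h7 (by
      rw [List.length_append, hl, h5 β h6]
      simp only [Nat.succ_eq_add_one] at h8
      omega)
    exact ⟨m', ρ, by omega, h10, (List.prefix_append _ _).trans h11, h12⟩

theorem Big.depth (h : Big u L T p S m τ) :
    ∃ D, Big u L T p (fun ρ => ρ.length ≤ D ∧ S ρ) m τ := by
  induction h with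
  | base h1 h2 => exact ⟨_, .base h1 ⟨le_rfl, h2⟩⟩
  | step F h1 h2 h3 _ ih =>
    choose! D hD using ih
    exact ⟨F.sup D, .step F h1 h2 h3 fun β hβ => (hD β hβ).mono (fun _ h => h) le_rfl
      fun ρ _ h => ⟨h.1.trans (Finset.le_sup hβ), h.2⟩⟩

/-- from level `n` on every node of `T` has at least `p` units of children -/
def Bushy (u L : ℕ → ℕ) (T : List Bool → Prop) (p n : ℕ) : Prop :=
  ∀ m τ, n ≤ m → τ.length = L m → T τ → ∃ F : Finset (List Bool), p * u m ≤ F.card ∧
    ∀ β ∈ F, β.length = L (m + 1) - L m ∧ T (τ ++ β)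

theorem Bushy.mono {n n' : ℕ} (h : Bushy u L T p n) (hp : p' ≤ p) (hn : n ≤ n') :
    Bushy u L T p' n' := fun m τ h1 h2 h3 =>
  let ⟨F, h4, h5⟩ := h m τ (hn.trans h1) h2 h3
  ⟨F, (Nat.mul_le_mul_right _ hp).trans h4, h5⟩

theorem Bushy.ext (hL : Monotone L) (h : Bushy u L T p m) (hl : τ.length = L m) (hT : T τ)
    (h2 : ¬ Big u L T p S m τ) {n : ℕ} (hn : m ≤ n) :
    ∃ ρ, ρ.length = L n ∧ τ <+: ρ ∧ T ρ ∧ ¬ Big u L T p S n ρ := by
  induction hn with
  | refl => exact ⟨τ, hl, List.prefix_refl _, hT, h2⟩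
  | @step n hn ih =>
    obtain ⟨ρ, h3, h4, h5, h6⟩ := ih
    obtain ⟨F, h7, h8⟩ := h n ρ hn h3 h5
    have : ∃ β ∈ F, ¬ Big u L T p S (n + 1) (ρ ++ β) := by
      by_contra hc
      push Not at hc
      exact h6 (.step F h5 h7 (fun β hβ => (h8 β hβ).1) hc)
    obtain ⟨β, h9, h10⟩ := this
    have h11 : L n ≤ L (n + 1) := hL (Nat.le_succ n)
    refine ⟨ρ ++ β, ?_, h4.trans (List.prefix_append _ _), (h8 β h9).2, h10⟩
    rw [List.length_append, h3, (h8 β h9).1]
    simp only [Nat.succ_eq_add_one]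
    omega

/-- finite witnesses of bigness -/
def Valid (u L : ℕ → ℕ) (T : List Bool → Prop) (p : ℕ) (S : List Bool → Prop)
    (Tr : List (ℕ × List Bool)) : Prop :=
  ∀ x ∈ Tr, T x.2 ∧ (S x.2 ∨ p * u x.1 ≤ (allStr (L (x.1 + 1) - L x.1)).countP
    fun β => Tr.any fun y => decide (y = (x.1 + 1, x.2 ++ β)))

theorem Valid.children {Tr : List (ℕ × List Bool)} {x : ℕ × List Bool}
    (h : p * u x.1 ≤ (allStr (L (x.1 + 1) - L x.1)).countP
      fun β => Tr.any fun y => decide (y = (x.1 + 1, x.2 ++ β))) :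
    ∃ F : Finset (List Bool), p * u x.1 ≤ F.card ∧
      ∀ β ∈ F, β.length = L (x.1 + 1) - L x.1 ∧ (x.1 + 1, x.2 ++ β) ∈ Tr := by
  refine ⟨((allStr (L (x.1 + 1) - L x.1)).filter
      fun β => Tr.any fun y => decide (y = (x.1 + 1, x.2 ++ β))).toFinset, ?_, fun β hβ => ?_⟩
  · rwa [List.toFinset_card_of_nodup ((nodup_allStr _).filter _), ← List.countP_eq_length_filter]
  · simpa [mem_allStr] using hβ

theorem Valid.big {Tr : List (ℕ × List Bool)} (h : Valid u L T p S Tr) :
    ∀ x ∈ Tr, Big u L T p S x.1 x.2 := by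
  obtain ⟨D, hD⟩ : ∃ D, ∀ x ∈ Tr, x.1 < D :=
    ⟨(Tr.map Prod.fst).sum + 1, fun x hx =>
      Nat.lt_succ_of_le (List.single_le_sum (by simp) _ (List.mem_map_of_mem hx))⟩
  have key : ∀ d, ∀ x ∈ Tr, D ≤ x.1 + d → Big u L T p S x.1 x.2 := by
    intro d
    induction d with
    | zero => intro x hx h1; have := hD x hx; omega
    | succ d ih =>
      intro x hx h1
      rcases (h x hx).2 with h2 | h2
      · exact .base (h x hx).1 h2
      · obtain ⟨F, h3, h4⟩ := Valid.children h2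
        exact .step F (h x hx).1 h3 (fun β hβ => (h4 β hβ).1)
          fun β hβ => ih _ (h4 β hβ).2 (by simp only; omega)
  exact fun x hx => key D x hx (by omega)

theorem Valid.flat {ι : Type*} {G : ι → List (ℕ × List Bool)} {l : List ι}
    {Tr : List (ℕ × List Bool)} (h : ∀ v ∈ l, Valid u L T p S (G v))
    (h2 : ∀ v ∈ l, ∀ y ∈ G v, y ∈ Tr) : ∀ x ∈ l.flatMap G, T x.2 ∧ (S x.2 ∨ p * u x.1 ≤
      (allStr (L (x.1 + 1) - L x.1)).countP
        fun β => Tr.any fun y => decide (y = (x.1 + 1, x.2 ++ β))) := by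
  intro x hx
  obtain ⟨v, h3, h4⟩ := List.mem_flatMap.1 hx
  refine ⟨(h v h3 x h4).1, (h v h3 x h4).2.imp id fun h5 => h5.trans ?_⟩
  refine List.countP_mono_left fun β _ h6 => ?_
  simp only [List.any_eq_true, decide_eq_true_eq, exists_eq_right] at h6 ⊢
  exact h2 v h3 _ h6

theorem Big.valid (h : Big u L T p S m τ) : ∃ Tr, (m, τ) ∈ Tr ∧ Valid u L T p S Tr := by
  classical
  induction h with
  | base h1 h2 => exact ⟨[(_, _)], List.mem_singleton_self _, fun x hx => by
      rw [List.mem_singleton.1 hx]; exact ⟨h1, Or.inl h2⟩⟩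
  | @step m τ F h1 h2 h3 _ ih =>
    choose! G hG using ih
    refine ⟨(m, τ) :: F.toList.flatMap G, List.mem_cons_self, fun x hx => ?_⟩
    rcases List.mem_cons.1 hx with rfl | hx
    · refine ⟨h1, Or.inr (h2.trans ?_)⟩
      rw [List.countP_eq_length_filter,
        ← List.toFinset_card_of_nodup ((nodup_allStr _).filter _)]
      refine Finset.card_le_card fun β hβ => ?_
      simp only [List.mem_toFinset, List.mem_filter, mem_allStr, List.any_eq_true,
        decide_eq_true_eq, exists_eq_right]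
      exact ⟨h3 β hβ, List.mem_cons_of_mem _
        (List.mem_flatMap.2 ⟨β, Finset.mem_toList.2 hβ, (hG β hβ).1⟩)⟩
    · exact Valid.flat (fun v hv => (hG v (Finset.mem_toList.1 hv)).2)
        (fun v hv y hy => List.mem_cons_of_mem _ (List.mem_flatMap.2 ⟨v, hv, hy⟩)) x hx

theorem s1_Valid {α : Type*} [Primcodable α] (hu : Primrec u) (hL : Primrec L) (hT : S1 T)
    {S : α → List Bool → Prop} (hS : S1 fun x : α × List Bool => S x.1 x.2) {p : α → ℕ}
    (hp : Primrec p) {Tr : α → List (ℕ × List Bool)} (hTr : Primrec Tr) :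
    S1 fun a => Valid u L T (p a) (S a) (Tr a) := by
  unfold Valid
  refine S1.all_mem (S1.and (hT.comp (by fun_prop)) (S1.or
    (hS.comp (f := fun z : α × ℕ × List Bool => (z.1, z.2.2)) (by fun_prop))
    (s1_le (by fun_prop) ?_))) hTr
  refine pcountP (f := fun z : α × ℕ × List Bool => allStr (L (z.2.1 + 1) - L z.2.1))
    (g := fun z β => (Tr z.1).any fun y => decide (y = (z.2.1 + 1, z.2.2 ++ β))) (by fun_prop) ?_
  exact pany (f := fun w : (α × ℕ × List Bool) × List Bool => Tr w.1.1)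
    (g := fun w y => decide (y = (w.1.2.1 + 1, w.1.2.2 ++ w.2))) (by fun_prop) (by fun_prop)

theorem s1_mem {α β : Type*} [Primcodable α] [Primcodable β] [DecidableEq β] {f : α → β}
    {l : α → List β} (hf : Primrec f) (hl : Primrec l) : PrimrecPred fun a => f a ∈ l a := by
  have : PrimrecPred fun a => ∃ b ∈ l a, b = f a :=
    PP.ex_mem (p := fun a b => b = f a) (pp_eq (by fun_prop) (by fun_prop)) hl
  exact this.of_eq (by simp)

theorem s1_Big {α : Type*} [Primcodable α] (hu : Primrec u) (hL : Primrec L) (hT : S1 T)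
    {S : α → List Bool → Prop} (hS : S1 fun x : α × List Bool => S x.1 x.2) {p m : α → ℕ}
    (hp : Primrec p) (hm : Primrec m) {τ : α → List Bool} (hτ : Primrec τ) :
    S1 fun a => Big u L T (p a) (S a) (m a) (τ a) := by
  have : S1 fun a => ∃ Tr, (m a, τ a) ∈ Tr ∧ Valid u L T (p a) (S a) Tr :=
    S1.ex (S1.and (S1.of_prim (s1_mem (by fun_prop) (by fun_prop)))
      (s1_Valid (S := fun z : α × List (ℕ × List Bool) => S z.1) hu hL hT
        (hS.comp (f := fun w : (α × List (ℕ × List Bool)) × List Bool => (w.1.1, w.2))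
          (by fun_prop)) (by fun_prop) (by fun_prop)))
  exact this.of_eq fun a => ⟨fun ⟨_, h1, h2⟩ => h2.big _ h1, Big.valid⟩

open Nat.Partrec (Code)
open HB

/-- the functional `c` with oracle `ρ` outputs `v` -/
def Out (c : Code) (v ρ : List Bool) : Prop :=
  ∀ i < v.length, W c ρ i (v.getD i false) ρ.length = true

theorem pp_Out {α : Type*} [Primcodable α] {c : α → Code} {v ρ : α → List Bool} (hc : Primrec c)
    (hv : Primrec v) (hρ : Primrec ρ) : PrimrecPred fun a => Out (c a) (v a) (ρ a) := by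
  unfold Out
  refine PP.all_lt (p := fun a i => W (c a) (ρ a) i ((v a).getD i false) (ρ a).length = true)
    (pp_bool (pW ?_ ?_ ?_ ?_ ?_)) ?_ <;> fun_prop

theorem Out.up {c : Code} {v ρ ρ' : List Bool} (h : Out c v ρ) (h2 : ρ <+: ρ') : Out c v ρ' := by
  intro i hi
  refine W_mono h2.length_le ?_
  rw [← W_congr (α := ρ) (T := ρ.length) le_rfl (by
    rw [List.take_length]; exact List.prefix_iff_eq_take.1 h2)]
  exact h i hi

theorem Out.sound {c : Code} {X A : ℕ → Bool} (hc : cpt c X A) {v : List Bool} {n : ℕ}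
    (h : Out c v (pre A n)) : pre X v.length = v := by
  refine List.ext_getElem (by simp) fun i h1 h2 => ?_
  rw [getElem_pre, W_sound hc (by simp) (h i h2)]
  simp [h2]

theorem Out.complete {c : Code} {X A : ℕ → Bool} (hc : cpt c X A) (N : ℕ) :
    ∃ n, Out c (pre X N) (pre A n) := by
  obtain ⟨n, hn⟩ := W_complete hc N
  refine ⟨n, fun i hi => ?_⟩
  rw [length_pre] at hi ⊢
  rw [pre_getD _ _ _ _ hi]
  exact hn i hi

theorem Out.take {c : Code} {v ρ : List Bool} (h : Out c v ρ) (j : ℕ) : Out c (v.take j) ρ := by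
  intro i hi
  rw [List.length_take] at hi
  have := h i (by omega)
  rwa [List.getD_eq_getElem?_getD, List.getElem?_take_of_lt (by omega),
    ← List.getD_eq_getElem?_getD]

theorem si_choice_bool {B : ℕ → Bool} {R : ℕ → Bool → Prop}
    (hR : SI B fun x : ℕ × Bool => R x.1 x.2) (h : ∀ a, ∃ b, R a b) :
    ∃ Y, TLe Y B ∧ ∀ a, R a (Y a) := by
  obtain ⟨y, hy1, hy2⟩ := si_choice (R := fun t v => R t (decide (v = 1)))
    (hR.comp (f := fun x : ℕ × ℕ => (x.1, decide (x.2 = 1))) (by fun_prop)) (by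
      intro a
      obtain ⟨b, hb⟩ := h a
      refine ⟨b.toNat, ?_⟩
      cases b <;> simpa using hb)
  refine ⟨fun t => decide (y t = 1), ?_, hy2⟩
  rw [tLe_iff_SI]
  have h1 : SI B fun x : ℕ × Bool => ∃ v, y x.1 = v ∧ decide (v = 1) = x.2 :=
    SI.ex (SI.and ((funLe_iff.1 hy1).comp (f := fun z : (ℕ × Bool) × ℕ => (z.1.1, z.2))
      (by fun_prop)) (SI.of_s1 (s1_eq (by fun_prop) (by fun_prop))))
  exact h1.of_eq fun x => by simp

theorem s1_first {α β : Type*} [Primcodable α] [Primcodable β] (d : β) {R : α → β → Prop}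
    (hR : S1 fun x : α × β => R x.1 x.2) : ∃ (Fst : α → ℕ → Prop) (vl : ℕ → β),
    PrimrecRel Fst ∧ Primrec vl ∧ (∀ a w w', Fst a w → Fst a w' → w = w') ∧
    (∀ a w, Fst a w → R a (vl w)) ∧ ∀ a b, R a b → ∃ w, Fst a w := by
  classical
  obtain ⟨q, hq, -, he⟩ := hR
  refine ⟨fun a w => q (a, (decode w.unpair.1).getD d) w.unpair.2 ∧
    ∀ w' < w, ¬ q (a, (decode w'.unpair.1).getD d) w'.unpair.2,
    fun w => (decode w.unpair.1).getD d, ?_, by fun_prop, ?_, ?_, ?_⟩
  · refine PrimrecPred.and (hq.comp (by fun_prop) (by fun_prop)) ?_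
    refine PP.all_lt (α := α × ℕ) (f := fun z => z.2)
      (p := fun z w' => ¬ q (z.1, (decode w'.unpair.1).getD d) w'.unpair.2) ?_ (by fun_prop)
    exact PrimrecPred.not (hq.comp (by fun_prop) (by fun_prop))
  · rintro a w w' ⟨h1, h2⟩ ⟨h3, h4⟩
    rcases lt_trichotomy w w' with h | h | h
    · exact absurd h1 (h4 w h)
    · exact h
    · exact absurd h3 (h2 w' h)
  · exact fun a w h => (he (a, _)).2 ⟨_, h.1⟩
  · intro a b h
    obtain ⟨n, hn⟩ := (he (a, b)).1 h
    have : ∃ w : ℕ, q (a, (decode w.unpair.1).getD d) w.unpair.2 :=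
      ⟨Nat.pair (encode b) n, by simpa using hn⟩
    exact ⟨Nat.find this, Nat.find_spec this, fun w' hw' => Nat.find_min this hw'⟩

end Pool.Agent.H100Z.BT
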