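import Pool.Agent.H100Z.HB

set_option autoImplicit false

namespace Pool.Agent.H100Z.HB

open Encodable Pool.Agent.Helper227 Pool.Agent.H100Z.PR Pool.Agent.H100Z.CS Filter Topology
open Pool.Agent.H100Z.Defs
open Nat.Partrec (Code)

theorem blk_le (i : ℕ) : blk i ≤ i + 1 :=
  (Nat.sqrt_le_self _).trans (Nat.log_le_self _ _)

theorem primrec_blk : Primrec blk := by
  refine Primrec.of_graph ⟨fun i => i + 1, by fun_prop, fun i => blk_le i⟩ ?_
  have : PrimrecPred fun x : ℕ × ℕ => 2 ^ (x.2 * x.2) ≤ x.1 + 1 ∧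
      x.1 + 1 < 2 ^ ((x.2 + 1) * (x.2 + 1)) :=
    PrimrecPred.and (pp_le (by fun_prop) (by fun_prop)) (pp_lt (by fun_prop) (by fun_prop))
  exact this.of_eq fun x => blk_eq_iff.symm

@[fun_prop] theorem pblk {α : Type*} [Primcodable α] {f : α → ℕ} (hf : Primrec f) :
    Primrec fun x => blk (f x) := primrec_blk.comp hf

theorem funLe_trans {f : ℕ → ℕ} {A B : ℕ → Bool} (h : FunLe f A) (h2 : TLe A B) : FunLe f B := by
  rw [funLe_iff] at h ⊢
  exact h.trans h2

theorem exists_approx {C : ℕ → Bool} (hC : CE C) : ∃ ap : ℕ → ℕ → Bool,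
    (Primrec fun x : ℕ × ℕ => ap x.1 x.2) ∧
    (∀ T s s', s ≤ s' → pre (ap s) T = pre C T → pre (ap s') T = pre C T) ∧
    ∀ T, ∃ s, pre (ap s) T = pre C T := by
  classical
  obtain ⟨q, hq, hm, he⟩ := S1.of_re hC
  have key : ∀ i s s', s ≤ s' → decide (q i s) = C i → decide (q i s') = C i := by
    intro i s s' hs h
    by_cases h1 : q i s
    · have : C i = true := (he i).2 ⟨s, h1⟩
      rw [this]; simpa using hm _ _ _ hs h1
    · have h2 : C i = false := by rw [← h]; simpa using h1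
      rw [h2]
      have : ¬ q i s' := fun h3 => by
        have := (he i).2 ⟨s', h3⟩
        simp [h2] at this
      simpa using this
  have pe : ∀ (X Y : ℕ → Bool) T, pre X T = pre Y T → ∀ i < T, X i = Y i := by
    intro X Y T h i hi
    have h1 := pre_getD X T i false hi
    rw [h, pre_getD Y T i false hi] at h1
    exact h1.symm
  refine ⟨fun s i => decide (q i s), ?_, ?_, ?_⟩
  · exact (hq.comp Primrec.snd Primrec.fst).decide
  · intro T s s' hs h
    exact pre_congr fun i hi => key i s s' hs (pe _ _ _ h i hi)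
  · intro T
    induction T with
    | zero => exact ⟨0, rfl⟩
    | succ T ih =>
      obtain ⟨s, hs⟩ := ih
      obtain ⟨t, ht⟩ : ∃ t, decide (q T t) = C T := by
        by_cases h : C T = true
        · obtain ⟨t, ht⟩ := (he T).1 h
          exact ⟨t, by rw [h]; simpa using ht⟩
        · refine ⟨0, ?_⟩
          have : ¬ q T 0 := fun h3 => h ((he T).2 ⟨0, h3⟩)
          simp [this, h]
      refine ⟨max s t, pre_congr fun i hi => ?_⟩
      rcases Nat.lt_succ_iff_lt_or_eq.1 hi with h | rfl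
      · exact key i s _ (le_max_left _ _) (pe _ _ _ hs i h)
      · exact key i t _ (le_max_right _ _) ht

theorem core {A C B : ℕ → Bool} (hC : CE C) (hAC : TLe A C) (hCA : TLe C A) {F : ℕ → ℕ}
    (hF : FunLe F B) (hnd : ∀ g, FunLe g A → ∃ᶠ n in atTop, g n < F n) : H A B = 1 := by
  obtain ⟨ap, hap, hm, he⟩ := exists_approx hC
  have hpre : Primrec fun x : ℕ × ℕ => pre (ap x.1) x.2 := by
    unfold pre
    exact pmap (f := fun x : ℕ × ℕ => List.range x.2) (g := fun x i => ap x.1 i) (by fun_prop)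
      (hap.comp (g := fun z : (ℕ × ℕ) × ℕ => (z.1.1, z.2)) (by fun_prop))
  refine H_eq_one (Y := fun i => !(val (Denumerable.ofNat Code (blk i).unpair.1)
    (pre (ap (F (blk i).unpair.2)) (F (blk i).unpair.2)) i)) ?_ ?_
  · rw [tLe_iff_SI]
    have h1 : SI B fun x : ℕ × Bool => ∃ s, F (blk x.1).unpair.2 = s ∧
        (!(val (Denumerable.ofNat Code (blk x.1).unpair.1) (pre (ap s) s) x.1)) = x.2 := by
      refine SI.ex (SI.and ((funLe_iff.1 hF).comp
        (f := fun z : (ℕ × Bool) × ℕ => ((blk z.1.1).unpair.2, z.2)) (by fun_prop))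
        (SI.of_s1 (s1_eq (pnot (pval (by fun_prop) ?_ (by fun_prop))) (by fun_prop))))
      exact hpre.comp (g := fun z : (ℕ × Bool) × ℕ => (z.2, z.2)) (by fun_prop)
    exact h1.of_eq fun x => by simp
  · intro X hX
    obtain ⟨c, hc⟩ := exists_cpt (hX.trans hAC)
    have hR : SI C fun x : ℕ × ℕ => ∃ T, (pre C T).length ≤ x.2 ∧
        pre (ap x.2) (pre C T).length = pre C T ∧
        ∀ i < 2 ^ ((Nat.pair (encode c) x.1 + 1) * (Nat.pair (encode c) x.1 + 1)),
          ∃ b, W c (pre C T) i b (pre C T).length = true := by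
      refine si_of_pre (E := fun y : List Bool × ℕ × ℕ => y.1.length ≤ y.2.2 ∧
        pre (ap y.2.2) y.1.length = y.1 ∧
        ∀ i < 2 ^ ((Nat.pair (encode c) y.2.1 + 1) * (Nat.pair (encode c) y.2.1 + 1)),
          ∃ b, W c y.1 i b y.1.length = true) ?_
      refine S1.and (s1_le (by fun_prop) (by fun_prop)) (S1.and (s1_eq ?_ (by fun_prop))
        (S1.all_lt (S1.ex (s1_bool (pW ?_ ?_ ?_ ?_ ?_))) (by fun_prop)))
      · exact hpre.comp (g := fun y : List Bool × ℕ × ℕ => (y.2.2, y.1.length)) (by fun_prop)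
      all_goals fun_prop
    obtain ⟨m, hm1, hm2⟩ := si_choice (R := fun k s => ∃ T, (pre C T).length ≤ s ∧
        pre (ap s) (pre C T).length = pre C T ∧
        ∀ i < 2 ^ ((Nat.pair (encode c) k + 1) * (Nat.pair (encode c) k + 1)),
          ∃ b, W c (pre C T) i b (pre C T).length = true) hR (by
      intro k
      obtain ⟨T, hT⟩ := W_complete hc
        (2 ^ ((Nat.pair (encode c) k + 1) * (Nat.pair (encode c) k + 1)))
      obtain ⟨s, hs⟩ := he T
      refine ⟨max s T, T, by simp, ?_, fun i hi => ⟨X i, ?_⟩⟩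
      · rw [length_pre]; exact hm _ _ _ (le_max_left _ _) hs
      · rw [length_pre]; exact hT i hi)
    have h2 := hnd m (funLe_trans hm1 hCA)
    rw [frequently_atTop] at h2
    refine far fun K => ?_
    obtain ⟨k, hk, h3⟩ := h2 K
    refine ⟨Nat.pair (encode c) k, hk.trans (Nat.right_le_pair _ _), fun i hi => ?_⟩
    obtain ⟨T, h4, h5, h6⟩ := hm2 k
    simp only [length_pre] at h4 h5 h6
    obtain ⟨b, hb⟩ := h6 i (by have := (blk_eq_iff.1 hi).2; omega)
    simp only [hi, Nat.unpair_pair, Denumerable.ofNat_encode]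
    rw [val_eq hc (T := T) (by rw [length_pre]; omega) (by
      rw [take_pre _ _ _ (by omega)]; exact hm _ _ _ h3.le h5) hb]
    simp

theorem aed_of_attr {A C : ℕ → Bool} (hC : CE C) (h : SetEquiv A C) (hA : Attractive A) :
    ∀ᵐ B ∂coinMeasure, ∀ f : ℕ → ℕ, FunLe f B →
      ∃ g : ℕ → ℕ, FunLe g A ∧ ∀ᶠ n in atTop, f n ≤ g n := by
  filter_upwards [hA] with B hB f hf
  by_contra hc
  push Not at hc
  have := core hC h.1 h.2 hf fun g hg => by simpa using hc g hg
  rw [this] at hB
  norm_num at hB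

end Pool.Agent.H100Z.HB
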