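import Mathlib

set_option autoImplicit false
open MeasureTheory Filter Topology

namespace Pool.Agent.H100Z.HD

/-- Turing reducibility of binary sequences. -/
def TLe (A B : ℕ → Bool) : Prop :=
  TuringReducible (fun n => Part.some (A n).toNat) (fun n => Part.some (B n).toNat)

theorem TLe.refl (A : ℕ → Bool) : TLe A A := TuringReducible.refl _

theorem TLe.trans {A B C : ℕ → Bool} (h : TLe A B) (h' : TLe B C) : TLe A C :=
  TuringReducible.trans h h'

theorem nat_rec_in {f : ℕ → ℕ} (hf : Computable f) (O : Set (ℕ →. ℕ)) :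
    Nat.RecursiveIn O (fun n => Part.some (f n)) := by
  have h1 : Partrec (fun n => (Part.some (f n) : Part ℕ)) := hf.partrec
  exact Nat.Partrec.recursiveIn (Partrec.nat_iff.1 h1)

theorem TLe.comp {A Y : ℕ → Bool} (h : TLe A Y) {g : ℕ → ℕ} (hg : Computable g) :
    TLe (fun n => A (g n)) Y := by
  have h := RecursiveIn.iff_nat.1 h
  refine RecursiveIn.iff_nat.2 ?_
  refine Nat.RecursiveIn.of_eq (.comp h (nat_rec_in hg _)) fun p => ?_
  simp

theorem TLe.ite {A B Y : ℕ → Bool} (hA : TLe A Y) (hB : TLe B Y) {p : ℕ → Bool}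
    (hp : Computable p) : TLe (fun n => if p n = true then A n else B n) Y := by
  have hA := RecursiveIn.iff_nat.1 hA
  have hB := RecursiveIn.iff_nat.1 hB
  refine RecursiveIn.iff_nat.2 ?_
  set O : Set (ℕ →. ℕ) := {(fun n => Part.some (Y n).toNat : ℕ →. ℕ)}
  have h1 : Nat.RecursiveIn O (fun n => Part.some (Nat.pair (A n).toNat (B n).toNat)) := by
    refine Nat.RecursiveIn.of_eq (.pair hA hB) fun p => ?_
    simp [Seq.seq]
  have h2 : Nat.RecursiveIn O
      (fun n => Part.some (Nat.pair n (Nat.pair (A n).toNat (B n).toNat))) := by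
    refine Nat.RecursiveIn.of_eq (.pair (nat_rec_in Computable.id O) h1) fun p => ?_
    simp [Seq.seq]
  have h3 : Computable (fun q : ℕ =>
      cond (p q.unpair.1) q.unpair.2.unpair.1 q.unpair.2.unpair.2) :=
    Computable.cond (hp.comp (Computable.fst.comp Computable.unpair))
      (Computable.fst.comp (Computable.unpair.comp (Computable.snd.comp Computable.unpair)))
      (Computable.snd.comp (Computable.unpair.comp (Computable.snd.comp Computable.unpair)))
  refine Nat.RecursiveIn.of_eq (.comp (nat_rec_in h3 O) h2) fun n => ?_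
  cases hpn : p n <;> simp [hpn]

/-- codes of oracle computations -/
inductive OC : Type
  | zero : OC
  | succ : OC
  | left : OC
  | right : OC
  | oracle : OC
  | pair : OC → OC → OC
  | comp : OC → OC → OC
  | prec : OC → OC → OC
  | rfind : OC → OC

/-- an injective numbering of codes -/
def OC.enc : OC → ℕ
  | .zero => Nat.pair 0 0
  | .succ => Nat.pair 1 0
  | .left => Nat.pair 2 0
  | .right => Nat.pair 3 0
  | .oracle => Nat.pair 4 0
  | .pair a b => Nat.pair 5 (Nat.pair a.enc b.enc)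
  | .comp a b => Nat.pair 6 (Nat.pair a.enc b.enc)
  | .prec a b => Nat.pair 7 (Nat.pair a.enc b.enc)
  | .rfind a => Nat.pair 8 a.enc

theorem OC.enc_inj : ∀ a b : OC, a.enc = b.enc → a = b := by
  intro a
  induction a with
  | zero | succ | left | right | oracle =>
    intro b h; cases b <;> simp [OC.enc, Nat.pair_eq_pair] at h ⊢
  | pair a₁ a₂ ih₁ ih₂ | comp a₁ a₂ ih₁ ih₂ | prec a₁ a₂ ih₁ ih₂ =>
    intro b h
    cases b <;> simp [OC.enc, Nat.pair_eq_pair] at h ⊢
    exact ⟨ih₁ _ h.1, ih₂ _ h.2⟩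
  | rfind a ih =>
    intro b h
    cases b <;> simp [OC.enc, Nat.pair_eq_pair] at h ⊢
    exact ih _ h

theorem OC.countable : Countable OC := ⟨⟨OC.enc, fun a b h => OC.enc_inj a b h⟩⟩

/-- evaluation of a code with oracle `g` -/
def OC.eval (g : ℕ →. ℕ) : OC → ℕ →. ℕ
  | .zero => fun _ => 0
  | .succ => Nat.succ
  | .left => fun n => (Nat.unpair n).1
  | .right => fun n => (Nat.unpair n).2
  | .oracle => g
  | .pair a b => fun n => (Nat.pair <$> a.eval g n <*> b.eval g n)
  | .comp a b => fun n => b.eval g n >>= a.eval g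
  | .prec a b => fun p =>
        let (x, n) := Nat.unpair p
        n.rec (a.eval g x) fun y IH => do
          let i ← IH
          b.eval g (Nat.pair x (Nat.pair y i))
  | .rfind a => fun x => Nat.rfind fun n => (fun m => m = 0) <$> a.eval g (Nat.pair x n)

theorem exists_code {g f : ℕ →. ℕ} (h : Nat.RecursiveIn {g} f) : ∃ c : OC, c.eval g = f := by
  induction h with
  | zero => exact ⟨.zero, rfl⟩
  | succ => exact ⟨.succ, rfl⟩
  | left => exact ⟨.left, rfl⟩
  | right => exact ⟨.right, rfl⟩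
  | oracle g' hg => exact ⟨.oracle, (Set.mem_singleton_iff.1 hg).symm⟩
  | pair _ _ ih₁ ih₂ =>
    obtain ⟨a, rfl⟩ := ih₁; obtain ⟨b, rfl⟩ := ih₂; exact ⟨.pair a b, rfl⟩
  | comp _ _ ih₁ ih₂ =>
    obtain ⟨a, rfl⟩ := ih₁; obtain ⟨b, rfl⟩ := ih₂; exact ⟨.comp a b, rfl⟩
  | prec _ _ ih₁ ih₂ =>
    obtain ⟨a, rfl⟩ := ih₁; obtain ⟨b, rfl⟩ := ih₂; exact ⟨.prec a b, rfl⟩
  | rfind _ ih =>
    obtain ⟨a, rfl⟩ := ih; exact ⟨.rfind a, rfl⟩

theorem countable_below (Y : ℕ → Bool) : {A : ℕ → Bool | TLe A Y}.Countable := by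
  have := OC.countable
  have : Nonempty OC := ⟨.zero⟩
  have h : ∀ A ∈ {A : ℕ → Bool | TLe A Y}, ∃ c : OC,
      c.eval (fun n => Part.some (Y n).toNat) = fun n => Part.some (A n).toNat := by
    intro A hA
    exact exists_code (RecursiveIn.iff_nat.1 hA)
  choose! F hF using h
  refine Set.MapsTo.countable_of_injOn (f := F) (t := Set.univ) (fun _ _ => Set.mem_univ _) ?_
    Set.countable_univ
  intro A hA B hB hAB
  have h1 := hF A hA
  have h2 := hF B hB
  rw [hAB, h2] at h1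
  funext n
  have := congrFun h1 n
  have h3 : (B n).toNat = (A n).toNat := Part.some_injective this
  revert h3
  cases A n <;> cases B n <;> simp

/-- upper density of the symmetric difference -/
noncomputable def dl (X Y : ℕ → Bool) : ℝ := Filter.limsup
  (fun n : ℕ => (((Finset.range n).filter (fun i => X i ≠ Y i)).card : ℝ) / (n : ℝ)) Filter.atTop

theorem frac_nonneg (X Y : ℕ → Bool) (n : ℕ) :
    0 ≤ (((Finset.range n).filter (fun i => X i ≠ Y i)).card : ℝ) / (n : ℝ) := by positivity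

theorem frac_le_one (X Y : ℕ → Bool) (n : ℕ) :
    (((Finset.range n).filter (fun i => X i ≠ Y i)).card : ℝ) / (n : ℝ) ≤ 1 := by
  apply div_le_one_of_le₀ _ (Nat.cast_nonneg n)
  have := Finset.card_filter_le (Finset.range n) (fun i => X i ≠ Y i)
  rw [Finset.card_range] at this
  exact_mod_cast this

theorem bdd (X Y : ℕ → Bool) : IsBoundedUnder (· ≤ ·) atTop
    (fun n : ℕ => (((Finset.range n).filter (fun i => X i ≠ Y i)).card : ℝ) / (n : ℝ)) :=
  isBoundedUnder_of ⟨1, frac_le_one X Y⟩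

theorem cobdd (X Y : ℕ → Bool) : IsCoboundedUnder (· ≤ ·) atTop
    (fun n : ℕ => (((Finset.range n).filter (fun i => X i ≠ Y i)).card : ℝ) / (n : ℝ)) :=
  isCoboundedUnder_le_of_le atTop (frac_nonneg X Y)

theorem dl_nonneg (X Y : ℕ → Bool) : 0 ≤ dl X Y :=
  le_limsup_of_frequently_le (Frequently.of_forall (frac_nonneg X Y)) (bdd X Y)

theorem dl_le_one (X Y : ℕ → Bool) : dl X Y ≤ 1 :=
  limsup_le_of_le (cobdd X Y) (Eventually.of_forall (frac_le_one X Y))

theorem sqrt_small {ε : ℝ} (hε : 0 < ε) :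
    ∀ᶠ n : ℕ in atTop, ((Nat.sqrt n + 1 : ℕ) : ℝ) / (n : ℝ) ≤ ε := by
  obtain ⟨K, hK⟩ := exists_nat_gt (2 / ε)
  filter_upwards [eventually_ge_atTop ((K + 1) * (K + 1))] with n hn
  have h1 : K + 1 ≤ Nat.sqrt n := Nat.le_sqrt.2 hn
  have h2 : Nat.sqrt n * Nat.sqrt n ≤ n := Nat.sqrt_le n
  have hs : (K : ℝ) + 1 ≤ (Nat.sqrt n : ℝ) := by exact_mod_cast h1
  have hs2 : (Nat.sqrt n : ℝ) * (Nat.sqrt n : ℝ) ≤ n := by exact_mod_cast h2
  have hK0 : (0 : ℝ) ≤ K := Nat.cast_nonneg K
  have hn0 : (0 : ℝ) < n := by nlinarith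
  rw [div_le_iff₀ hn0]
  rw [div_lt_iff₀ hε] at hK
  push_cast
  set s : ℝ := (Nat.sqrt n : ℝ)
  have h3 : 2 ≤ ε * s := by nlinarith
  nlinarith

theorem dl_le_of_sq {X X' : ℕ → Bool} (h : ∀ n, Nat.sqrt n * Nat.sqrt n ≠ n → X n = X' n)
    (Z : ℕ → Bool) : dl X Z ≤ dl X' Z := by
  apply le_of_forall_pos_le_add
  intro ε hε
  unfold dl
  rw [← limsup_add_const atTop _ ε (bdd X' Z) (cobdd X' Z)]
  refine limsup_le_limsup ?_ (cobdd X Z) ?_
  · filter_upwards [sqrt_small hε] with n hn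
    have h1 : ((Finset.range n).filter (fun i => X i ≠ Z i)).card ≤
        ((Finset.range n).filter (fun i => X' i ≠ Z i)).card + (Nat.sqrt n + 1) := by
      have h2 : (Finset.range n).filter (fun i => X i ≠ Z i) ⊆
          (Finset.range n).filter (fun i => X' i ≠ Z i) ∪
            (Finset.range (Nat.sqrt n + 1)).image (fun k => k * k) := by
        intro i hi
        simp only [Finset.mem_filter, Finset.mem_range, Finset.mem_union, Finset.mem_image] at hi ⊢
        by_cases hs : Nat.sqrt i * Nat.sqrt i = i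
        · right
          exact ⟨Nat.sqrt i, Nat.lt_succ_of_le (Nat.sqrt_le_sqrt hi.1.le), hs⟩
        · left
          exact ⟨hi.1, by rw [← h i hs]; exact hi.2⟩
      refine (Finset.card_le_card h2).trans ((Finset.card_union_le _ _).trans ?_)
      have := Finset.card_image_le (s := Finset.range (Nat.sqrt n + 1)) (f := fun k => k * k)
      rw [Finset.card_range] at this
      omega
    have h3 : (((Finset.range n).filter (fun i => X i ≠ Z i)).card : ℝ) ≤
        (((Finset.range n).filter (fun i => X' i ≠ Z i)).card : ℝ) + ((Nat.sqrt n + 1 : ℕ) : ℝ) := by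
      exact_mod_cast h1
    calc _ ≤ ((((Finset.range n).filter (fun i => X' i ≠ Z i)).card : ℝ) +
            ((Nat.sqrt n + 1 : ℕ) : ℝ)) / (n : ℝ) :=
          div_le_div_of_nonneg_right h3 (Nat.cast_nonneg n)
      _ ≤ _ := by rw [add_div]; linarith
  · exact isBoundedUnder_of ⟨1 + ε, fun n => by linarith [frac_le_one X' Z n]⟩

/-- Turing equivalence -/
def TE (A B : ℕ → Bool) : Prop := TLe A B ∧ TLe B A

/-- every sequence below `Y` is coarsely similar to a sequence in the degree of `Y` -/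
theorem exists_coding {X Y : ℕ → Bool} (h : TLe X Y) :
    ∃ X' : ℕ → Bool, TE X' Y ∧ ∀ Z, dl X' Z = dl X Z := by
  let p : ℕ → Bool := fun n => decide (Nat.sqrt n * Nat.sqrt n = n)
  have hp : Computable p := by
    have : PrimrecPred (fun n : ℕ => Nat.sqrt n * Nat.sqrt n = n) :=
      Primrec.eq.comp (Primrec.nat_mul.comp Primrec.nat_sqrt Primrec.nat_sqrt) Primrec.id
    exact this.decide.to_comp
  refine ⟨fun n => if p n = true then Y (Nat.sqrt n) else X n, ⟨?_, ?_⟩, fun Z => ?_⟩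
  · exact ((TLe.refl Y).comp Primrec.nat_sqrt.to_comp).ite h hp
  · have h1 := (TLe.refl (fun n => if p n = true then Y (Nat.sqrt n) else X n)).comp
      (g := fun k => k * k) (Primrec.nat_mul.comp Primrec.id Primrec.id).to_comp
    convert h1 using 1
    funext k
    simp [p, Nat.sqrt_eq]
  · apply le_antisymm
    · apply dl_le_of_sq
      intro n hn
      simp [p, hn]
    · apply dl_le_of_sq
      intro n hn
      simp [p, hn]

/-- Hausdorff distance between degrees -/
noncomputable def HH (X Y : ℕ → Bool) : ℝ := max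
  (sSup {r : ℝ | ∃ X' : ℕ → Bool, TE X' X ∧
    r = sInf {s : ℝ | ∃ Y' : ℕ → Bool, TE Y' Y ∧ s = dl X' Y'}})
  (sSup {r : ℝ | ∃ Y' : ℕ → Bool, TE Y' Y ∧
    r = sInf {s : ℝ | ∃ X' : ℕ → Bool, TE X' X ∧ s = dl X' Y'}})

theorem TE.refl (A : ℕ → Bool) : TE A A := ⟨TLe.refl A, TLe.refl A⟩

theorem sandwich {A B C Z : ℕ → Bool} (hAB : TLe A B) (hBC : TLe B C) :
    HH B Z ≤ max (HH A Z) (HH C Z) := by
  apply max_le
  · refine le_max_of_le_right (le_max_of_le_left ?_)
    refine csSup_le ⟨_, ⟨B, TE.refl B, rfl⟩⟩ ?_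
    rintro r ⟨X', hX', rfl⟩
    obtain ⟨X'', hX'', he⟩ := exists_coding (hX'.1.trans hBC)
    apply le_csSup
    · refine ⟨1, ?_⟩
      rintro r ⟨W, _, rfl⟩
      refine csInf_le_of_le ⟨0, ?_⟩ ⟨Z, TE.refl Z, rfl⟩ (dl_le_one _ _)
      rintro s ⟨V, _, rfl⟩
      exact dl_nonneg _ _
    · refine ⟨X'', hX'', ?_⟩
      simp only [he]
  · refine le_max_of_le_left (le_max_of_le_right ?_)
    refine csSup_le ⟨_, ⟨Z, TE.refl Z, rfl⟩⟩ ?_
    rintro r ⟨Y', hY', rfl⟩
    refine le_csSup_of_le ?_ ⟨Y', hY', rfl⟩ ?_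
    · refine ⟨1, ?_⟩
      rintro r ⟨W, _, rfl⟩
      refine csInf_le_of_le ⟨0, ?_⟩ ⟨A, TE.refl A, rfl⟩ (dl_le_one _ _)
      rintro s ⟨V, _, rfl⟩
      exact dl_nonneg _ _
    · apply csInf_le_csInf
      · refine ⟨0, ?_⟩
        rintro s ⟨V, _, rfl⟩
        exact dl_nonneg _ _
      · exact ⟨_, A, TE.refl A, rfl⟩
      · rintro s ⟨V, hV, rfl⟩
        obtain ⟨V', hV', he⟩ := exists_coding (hV.1.trans hAB)
        exact ⟨V', hV', (he Y').symm⟩

end Pool.Agent.H100Z.HD
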