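import Pool.Agent.H100Z.PR
import Pool.Agent.H100Z.HD

set_option autoImplicit false

namespace Pool.Agent.H100Z.CS

open Encodable Pool.Agent.Helper227 Pool.Agent.H100Z.PR Filter Topology
open Nat.Partrec (Code)

/-- number of disagreements in `[m, N)` -/
def cnt (X Z : ℕ → Bool) (m N : ℕ) : ℕ :=
  (List.range N).countP (fun i => decide (m ≤ i) && xor (X i) (Z i))

theorem cnt_zero (X Z : ℕ → Bool) (m : ℕ) : cnt X Z m 0 = 0 := rfl

theorem cnt_succ (X Z : ℕ → Bool) (m N : ℕ) :
    cnt X Z m (N + 1) = cnt X Z m N + if m ≤ N ∧ X N ≠ Z N then 1 else 0 := by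
  unfold cnt
  rw [List.range_succ, List.countP_append]
  congr 1
  by_cases h : m ≤ N <;> cases h1 : X N <;> cases h2 : Z N <;> simp [h, h1, h2]

theorem cnt_le {X Z X' Z' X'' Z'' : ℕ → Bool} {m m' m'' : ℕ} (N : ℕ)
    (h : ∀ i < N, m ≤ i → X i ≠ Z i → (m' ≤ i ∧ X' i ≠ Z' i) ∨ (m'' ≤ i ∧ X'' i ≠ Z'' i)) :
    cnt X Z m N ≤ cnt X' Z' m' N + cnt X'' Z'' m'' N := by
  induction N with
  | zero => simp [cnt_zero]
  | succ N ih =>
    have h1 := ih fun i hi => h i (by omega)
    have h2 := h N (by omega)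
    simp only [cnt_succ]
    split_ifs <;> first | omega | tauto

theorem cnt_le' {X Z X' Z' : ℕ → Bool} {m m' : ℕ} (N : ℕ)
    (h : ∀ i < N, m ≤ i → X i ≠ Z i → (m' ≤ i ∧ X' i ≠ Z' i)) :
    cnt X Z m N ≤ cnt X' Z' m' N := by
  induction N with
  | zero => simp [cnt_zero]
  | succ N ih =>
    have h1 := ih fun i hi => h i (by omega)
    have h2 := h N (by omega)
    simp only [cnt_succ]
    split_ifs <;> first | omega | tauto

theorem cnt_stab {X Z : ℕ → Bool} {m L : ℕ} (h : ∀ i, L ≤ i → X i = Z i) {N : ℕ} (hN : L ≤ N) :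
    cnt X Z m N = cnt X Z m L := by
  induction N, hN using Nat.le_induction with
  | base => rfl
  | succ N hN ih => rw [cnt_succ, ih, if_neg (fun h' => h'.2 (h N hN)), add_zero]

theorem cnt_card (X Z : ℕ → Bool) (N : ℕ) :
    cnt X Z 0 N = ((Finset.range N).filter (fun i => X i ≠ Z i)).card := by
  induction N with
  | zero => simp [cnt_zero]
  | succ N ih =>
    rw [cnt_succ, ih, Finset.range_add_one, Finset.filter_insert]
    by_cases h : X N ≠ Z N
    · rw [if_pos ⟨Nat.zero_le _, h⟩, if_pos h, Finset.card_insert_of_notMem (by simp)]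
    · rw [if_neg (fun h' => h h'.2), if_neg h, add_zero]

theorem cnt_add (X Z : ℕ → Bool) (m N : ℕ) : cnt X Z 0 N ≤ m + cnt X Z m N := by
  have h : ∀ N, cnt X Z 0 N ≤ min m N + cnt X Z m N := by
    intro N
    induction N with
    | zero => simp [cnt_zero]
    | succ N ih =>
      simp only [cnt_succ]
      by_cases h1 : X N ≠ Z N <;> by_cases h2 : m ≤ N <;> simp [h1, h2] <;> omega
  exact (h N).trans (by omega)

theorem pcnt {α : Type*} [Primcodable α] {f g : α → List Bool} {m N : α → ℕ} (hf : Primrec f)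
    (hg : Primrec g) (hm : Primrec m) (hN : Primrec N) : Primrec fun x =>
      cnt (fun i => (f x).getD i false) (fun i => (g x).getD i false) (m x) (N x) := by
  unfold cnt
  refine pcountP (f := fun x => List.range (N x)) (g := fun x i => decide (m x ≤ i) &&
    xor ((f x).getD i false) ((g x).getD i false)) (by fun_prop) ?_
  refine pand (pdle (by fun_prop) (by fun_prop)) (pxor ?_ ?_) <;> fun_prop

/-- convergence of the code `c` on the string `τ` -/
def Conv (c : Code) (τ : List Bool) (n : ℕ) (b : Bool) : Prop :=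
  ∃ s, s ≤ τ.length ∧ ∃ r, (c.evaln r (encode (τ.take s, n, b))).isSome = true

theorem s1_Conv (c : Code) : S1 fun x : List Bool × ℕ × Bool => Conv c x.1 x.2.1 x.2.2 := by
  unfold Conv
  exact S1.ex (S1.and (s1_le (by fun_prop) (by fun_prop)) (S1.ex (s1_bool (by fun_prop))))

theorem conv_pre {c : Code} {X : ℕ → Bool} {n : ℕ} {b : Bool} {t : ℕ} :
    Conv c (pre X t) n b ↔ ∃ s, s ≤ t ∧ ∃ r, (c.evaln r (encode (pre X s, n, b))).isSome = true := by
  unfold Conv
  rw [length_pre]
  refine exists_congr fun s => and_congr_right fun hs => ?_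
  rw [take_pre _ _ _ hs]

theorem conv_pre_mono {c : Code} {X : ℕ → Bool} {n : ℕ} {b : Bool} {t t' : ℕ} (h : t ≤ t')
    (hc : Conv c (pre X t) n b) : Conv c (pre X t') n b := by
  rw [conv_pre] at hc ⊢
  obtain ⟨s, hs, h2⟩ := hc
  exact ⟨s, hs.trans h, h2⟩

theorem cpt_iff {c : Code} {R X : ℕ → Bool} :
    cpt c R X ↔ ∀ n b, R n = b ↔ ∃ t, Conv c (pre X t) n b := by
  unfold cpt
  refine forall_congr' fun n => forall_congr' fun b => iff_congr Iff.rfl ?_
  simp only [conv_pre]
  exact ⟨fun ⟨s, h⟩ => ⟨s, s, le_rfl, h⟩, fun ⟨_, s, _, h⟩ => ⟨s, h⟩⟩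

theorem pre_congr {X Y : ℕ → Bool} {t : ℕ} (h : ∀ i < t, X i = Y i) : pre X t = pre Y t := by
  unfold pre
  exact List.map_congr_left fun i hi => h i (List.mem_range.1 hi)

theorem pre_getD_self (τ : List Bool) : pre (fun i => τ.getD i false) τ.length = τ := by
  refine List.ext_getElem (by simp) fun i h1 h2 => ?_
  rw [getElem_pre]
  simp [List.getD, h2]

/-- finite modifications are computable from the original sequence -/
theorem tLe_finmod {A A' : ℕ → Bool} {L : ℕ} (h : ∀ i, L ≤ i → A i = A' i) : TLe A A' := by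
  rw [tLe_iff_SI]
  have h1 : SI A' fun x : ℕ × Bool => (x.1 < L ∧ (pre A L).getD x.1 false = x.2) ∨
      (L ≤ x.1 ∧ A' x.1 = x.2) :=
    SI.or (SI.of_s1 (S1.and (s1_lt (by fun_prop) (by fun_prop)) (s1_eq (by fun_prop) (by fun_prop))))
      (SI.and (SI.of_s1 (s1_le (by fun_prop) (by fun_prop))) SI.query)
  refine h1.of_eq fun x => ?_
  by_cases hx : x.1 < L
  · rw [pre_getD _ _ _ _ hx]
    have : ¬ L ≤ x.1 := by omega
    simp [hx, this]
  · have : L ≤ x.1 := by omega
    simp [hx, this, h _ this]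

/-- sequences compatible with a condition -/
def Cmp (A Y : ℕ → Bool) (m q : ℕ) : Set (ℕ → Bool) :=
  {B | (∀ i < m, B i = Y i) ∧ ∀ N, q * cnt B A m N ≤ N}

theorem isClosed_pre (N : ℕ) (P : (ℕ → Bool) → Prop)
    (hP : ∀ X Y, (∀ i < N, X i = Y i) → P X → P Y) : IsClosed {X | P X} := by
  rw [← isOpen_compl_iff, isOpen_iff_forall_mem_open]
  intro X hX
  refine ⟨cyl (pre X N), ?_, isOpen_cyl _, mem_cyl_pre _ _⟩
  intro Y hY hPY
  apply hX
  refine hP Y X (fun i hi => ?_) hPY
  have := hY i (by simpa using hi)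
  rw [this, getElem_pre]

theorem isClosed_Cmp (A Y : ℕ → Bool) (m q : ℕ) : IsClosed (Cmp A Y m q) := by
  have : Cmp A Y m q = {B | ∀ i < m, B i = Y i} ∩ ⋂ N, {B | q * cnt B A m N ≤ N} := by
    ext B; simp [Cmp]
  rw [this]
  refine IsClosed.inter (isClosed_pre m _ ?_) (isClosed_iInter fun N => isClosed_pre N _ ?_)
  · intro X Z h h2 i hi
    rw [← h i hi, h2 i hi]
  · intro X Z h h2
    refine le_trans (Nat.mul_le_mul_left q (cnt_le' N fun i hi h3 h4 => ⟨h3, ?_⟩)) h2
    rwa [h i hi]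

theorem nonempty_Cmp (A Y : ℕ → Bool) (m q : ℕ) : (Cmp A Y m q).Nonempty := by
  refine ⟨fun i => if i < m then Y i else A i, fun i hi => by simp [hi], fun N => ?_⟩
  have : cnt (fun i => if i < m then Y i else A i) A m N ≤ cnt A A 0 0 + cnt A A 0 0 := by
    have h0 : ∀ N, cnt A A 0 N = 0 := by
      intro N
      induction N with
      | zero => rfl
      | succ N ih => simp [cnt_succ, ih]
    rw [h0 0, ← h0 N]
    refine cnt_le N fun i _ h1 h2 => ?_
    simp [show ¬ i < m by omega] at h2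
  simp only [cnt_zero] at this
  rw [Nat.le_zero.1 this]
  simp

theorem step {A R : ℕ → Bool}
    (hA : ∀ q : ℕ, 0 < q → ∃ A' : ℕ → Bool, ¬ TLe R A' ∧ ∀ N, q * cnt A A' 0 N ≤ N)
    (c : Code) (Y : ℕ → Bool) (m q : ℕ) (hq : 0 < q) :
    ∃ Y' m' q', 2 * q ≤ q' ∧ Cmp A Y' m' q' ⊆ Cmp A Y m q ∧ ∀ B ∈ Cmp A Y' m' q', ¬ cpt c R B := by
  by_cases h : ∃ Z t n b, (∀ i < m, Z i = Y i) ∧ (∀ N, 4 * q * cnt Z A m N ≤ 3 * N) ∧ R n ≠ b ∧
      Conv c (pre Z t) n b
  · obtain ⟨Z, t, n, b, h1, h2, h3, h4⟩ := h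
    refine ⟨Z, max m t, 4 * q, by omega, ?_, ?_⟩
    · rintro B ⟨h5, h6⟩
      refine ⟨fun i hi => by rw [h5 i (by omega), h1 i hi], fun N => ?_⟩
      have h7 : cnt B A m N ≤ cnt Z A m N + cnt B A (max m t) N := by
        refine cnt_le N fun i _ h8 h9 => ?_
        by_cases h10 : i < max m t
        · left; exact ⟨h8, by rwa [← h5 i h10]⟩
        · right; exact ⟨by omega, h9⟩
      have := h2 N
      have := h6 N
      nlinarith
    · rintro B ⟨h5, _⟩ hc
      rw [cpt_iff] at hc
      apply h3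
      rw [hc]
      refine ⟨t, ?_⟩
      rwa [pre_congr (X := B) (Y := Z) fun i hi => h5 i (by omega)]
  · refine ⟨Y, m, 8 * q, by omega, ?_, ?_⟩
    · rintro B ⟨h5, h6⟩
      refine ⟨h5, fun N => ?_⟩
      have := h6 N
      nlinarith
    · rintro B ⟨h5, h6⟩ hc
      rw [cpt_iff] at hc
      obtain ⟨A', hA1, hA2⟩ := hA (4 * q) (by omega)
      apply hA1
      rw [tLe_iff_SI]
      have hS : S1 fun y : List Bool × ℕ × Bool => ∃ τ : List Bool,
          (τ.length = y.1.length ∧ m ≤ τ.length ∧ τ.take m = pre Y m ∧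
            ∀ N < τ.length + 1, 2 * q * cnt (fun i => τ.getD i false) (fun i => y.1.getD i false) m N
              ≤ N) ∧ Conv c τ y.2.1 y.2.2 := by
        refine S1.ex (S1.and (S1.and (s1_eq (by fun_prop) (by fun_prop)) (S1.and
          (s1_le (by fun_prop) (by fun_prop)) (S1.and (s1_eq (by fun_prop) (by fun_prop)) ?_)))
          ((s1_Conv c).comp (f := fun z : (List Bool × ℕ × Bool) × List Bool =>
            (z.2, z.1.2.1, z.1.2.2)) (by fun_prop)))
        refine S1.all_lt (s1_le (pmul (by fun_prop) (pcnt ?_ ?_ ?_ ?_)) (by fun_prop))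
          (by fun_prop) <;> fun_prop
      refine (si_of_pre (B := A') hS).of_eq ?_
      rintro ⟨n, b⟩
      simp only [length_pre]
      constructor
      · rintro ⟨s, τ, ⟨h1, h2, h3, h4⟩, h7⟩
        by_contra hne
        apply h
        refine ⟨fun i => if i < τ.length then τ.getD i false else A i, τ.length, n, b, ?_, ?_,
          hne, ?_⟩
        · intro i hi
          have h8 : (τ.take m).getD i false = Y i := by rw [h3, pre_getD _ _ _ _ hi]
          beta_reduce
          rw [if_pos (by omega), ← h8]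
          simp [List.getD, hi]
        · have key : ∀ N ≤ τ.length, 4 * q *
              cnt (fun i => if i < τ.length then τ.getD i false else A i) A m N ≤ 3 * N := by
            intro N hN
            have h8 := h4 N (by omega)
            have h9 := hA2 N
            have h10 : cnt (fun i => if i < τ.length then τ.getD i false else A i) A m N ≤
                cnt (fun i => τ.getD i false) (fun i => (pre A' s).getD i false) m N +
                  cnt A A' 0 N := by
              refine cnt_le N fun i hi h11 h12 => ?_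
              rw [if_pos (by omega)] at h12
              rw [pre_getD _ _ _ _ (by omega)]
              by_cases h13 : τ.getD i false = A' i
              · right; exact ⟨Nat.zero_le _, fun h14 => h12 (by rw [h13, h14])⟩
              · left; exact ⟨h11, h13⟩
            nlinarith
          intro N
          rcases le_total N τ.length with hN | hN
          · exact key N hN
          · rw [cnt_stab (L := τ.length) (fun i hi => by simp [show ¬ i < τ.length by omega]) hN]
            have := key _ le_rfl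
            omega
        · rw [pre_congr (Y := fun i => τ.getD i false) (fun i hi => by simp only [if_pos hi]),
            pre_getD_self]
          exact h7
      · intro hnb
        obtain ⟨t, ht⟩ := (hc n b).1 hnb
        refine ⟨max m t, pre B (max m t), ⟨by simp, by simp, ?_, ?_⟩,
          conv_pre_mono (le_max_right _ _) ht⟩
        · rw [take_pre _ _ _ (le_max_left _ _)]
          exact pre_congr h5
        · intro N hN
          rw [length_pre] at hN
          have h8 := h6 N
          have h9 := hA2 N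
          have h10 : cnt (fun i => (pre B (max m t)).getD i false)
              (fun i => (pre A' (max m t)).getD i false) m N ≤ cnt B A m N + cnt A A' 0 N := by
            refine cnt_le N fun i hi h11 h12 => ?_
            rw [pre_getD _ _ _ _ (by omega), pre_getD _ _ _ _ (by omega)] at h12
            by_cases h13 : B i = A i
            · right; exact ⟨Nat.zero_le _, fun h14 => h12 (by rw [h13, h14])⟩
            · left; exact ⟨h11, h13⟩
          nlinarith

theorem exists_limit {A R : ℕ → Bool}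
    (hA : ∀ q : ℕ, 0 < q → ∃ A' : ℕ → Bool, ¬ TLe R A' ∧ ∀ N, q * cnt A A' 0 N ≤ N) :
    ∃ B, ¬ TLe R B ∧ ∀ q : ℕ, ∃ m, ∀ N, q * cnt B A m N ≤ N := by
  have hs : ∀ (k : ℕ) (p : {p : (ℕ → Bool) × ℕ × ℕ // 0 < p.2.2}),
      ∃ p' : {p : (ℕ → Bool) × ℕ × ℕ // 0 < p.2.2}, 2 * p.1.2.2 ≤ p'.1.2.2 ∧
        Cmp A p'.1.1 p'.1.2.1 p'.1.2.2 ⊆ Cmp A p.1.1 p.1.2.1 p.1.2.2 ∧
        ∀ B ∈ Cmp A p'.1.1 p'.1.2.1 p'.1.2.2, ¬ cpt (Denumerable.ofNat Code k) R B := by
    rintro k ⟨⟨Y, m, q⟩, hq⟩
    obtain ⟨Y', m', q', h1, h2, h3⟩ := step hA (Denumerable.ofNat Code k) Y m q hq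
    exact ⟨⟨(Y', m', q'), by simp only at hq ⊢; omega⟩, h1, h2, h3⟩
  choose F hF1 hF2 hF3 using hs
  let p : ℕ → {p : (ℕ → Bool) × ℕ × ℕ // 0 < p.2.2} :=
    fun k => Nat.rec ⟨(A, 0, 1), Nat.one_pos⟩ (fun k p => F k p) k
  have hp : ∀ k, p (k + 1) = F k (p k) := fun k => rfl
  obtain ⟨B, hB⟩ := IsCompact.nonempty_iInter_of_sequence_nonempty_isCompact_isClosed
    (fun k => Cmp A (p k).1.1 (p k).1.2.1 (p k).1.2.2) (fun k => by rw [hp]; exact hF2 k (p k))
    (fun k => nonempty_Cmp _ _ _ _) (isClosed_Cmp _ _ _ _).isCompact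
    (fun k => isClosed_Cmp _ _ _ _)
  rw [Set.mem_iInter] at hB
  refine ⟨B, fun h => ?_, fun q => ?_⟩
  · obtain ⟨c, hc⟩ := exists_cpt h
    have h1 := hB (encode c + 1)
    rw [hp] at h1
    apply hF3 _ _ B h1
    rwa [Denumerable.ofNat_encode]
  · have h1 : ∀ k, k + 1 ≤ (p k).1.2.2 := by
      intro k
      induction k with
      | zero => exact le_rfl
      | succ k ih =>
        have := hF1 k (p k)
        rw [← hp] at this
        omega
    refine ⟨(p q).1.2.1, fun N => ?_⟩
    have h2 := (hB q).2 N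
    have h3 := h1 q
    exact le_trans (Nat.mul_le_mul_right _ (by omega)) h2

/-- proportion of disagreements -/
noncomputable def rho (A B : ℕ → Bool) (n : ℕ) : ℝ :=
  (((Finset.range n).filter (fun i => A i ≠ B i)).card : ℝ) / (n : ℝ)

theorem rho_eq (A B : ℕ → Bool) (n : ℕ) : rho A B n = (cnt A B 0 n : ℝ) / n := by
  rw [cnt_card]; rfl

theorem rho_nonneg (A B : ℕ → Bool) (n : ℕ) : 0 ≤ rho A B n := by unfold rho; positivity

theorem rho_tri (A B C : ℕ → Bool) (n : ℕ) : rho A C n ≤ rho A B n + rho B C n := by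
  rw [rho_eq, rho_eq, rho_eq, ← add_div]
  refine div_le_div_of_nonneg_right ?_ (Nat.cast_nonneg n)
  have : cnt A C 0 n ≤ cnt A B 0 n + cnt B C 0 n := by
    refine cnt_le n fun i _ _ h => ?_
    by_cases h1 : A i = B i
    · right; exact ⟨Nat.zero_le _, fun h2 => h (h1.trans h2)⟩
    · left; exact ⟨Nat.zero_le _, h1⟩
  exact_mod_cast this

theorem rho_symm (A B : ℕ → Bool) : rho A B = rho B A := by
  funext n
  unfold rho
  simp only [ne_comm]

theorem sim_equiv : Equivalence fun A B : ℕ → Bool => Tendsto (rho A B) atTop (𝓝 0) := by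
  refine ⟨fun A => ?_, fun {A B} h => by rwa [rho_symm], fun {A B C} h1 h2 => ?_⟩
  · have : rho A A = fun _ => 0 := by funext n; simp [rho]
    rw [this]
    exact tendsto_const_nhds
  · have h3 := h1.add h2
    rw [add_zero] at h3
    exact squeeze_zero (rho_nonneg A C) (rho_tri A B C) h3

theorem closed_main {A R : ℕ → Bool}
    (h : ∀ ε : ℝ, 0 < ε → ∃ B B0, ¬ TLe R B0 ∧ Tendsto (rho B0 B) atTop (𝓝 0) ∧
      limsup (rho A B) atTop < ε) :
    ∃ B, ¬ TLe R B ∧ Tendsto (rho B A) atTop (𝓝 0) := by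
  have hA : ∀ q : ℕ, 0 < q → ∃ A' : ℕ → Bool, ¬ TLe R A' ∧ ∀ N, q * cnt A A' 0 N ≤ N := by
    intro q hq
    have hq' : (0 : ℝ) < q := by exact_mod_cast hq
    obtain ⟨B, B0, h1, h2, h3⟩ := h (1 / (2 * q)) (by positivity)
    have h4 : ∀ᶠ n in atTop, rho A B n < 1 / (2 * q) :=
      eventually_lt_of_limsup_lt h3 (HD.bdd A B)
    have h5 : ∀ᶠ n in atTop, rho B0 B n < 1 / (2 * q) :=
      h2.eventually (gt_mem_nhds (by positivity))
    obtain ⟨L, hL⟩ := eventually_atTop.1 ((h4.and h5).and (eventually_gt_atTop 0))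
    refine ⟨fun i => if i < L then A i else B0 i, fun h6 => h1 (h6.trans
      (tLe_finmod (L := L) fun i hi => by simp [show ¬ i < L by omega])), fun N => ?_⟩
    rcases le_total N L with hN | hN
    · have : cnt A (fun i => if i < L then A i else B0 i) 0 N ≤ cnt A A N N := by
        refine cnt_le' N fun i hi _ h7 => ?_
        simp [show i < L by omega] at h7
      have h0 : cnt A A N N ≤ cnt A A 0 0 := by
        rw [cnt_stab (L := 0) (fun _ _ => rfl) (Nat.zero_le N)]
        exact le_rfl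
      rw [cnt_zero] at h0
      have : cnt A (fun i => if i < L then A i else B0 i) 0 N = 0 := by omega
      simp [this]
    · obtain ⟨⟨h6, h7⟩, h8⟩ := hL N hN
      have h9 : cnt A (fun i => if i < L then A i else B0 i) 0 N ≤ cnt A B0 0 N := by
        refine cnt_le' N fun i _ _ h7 => ⟨Nat.zero_le _, ?_⟩
        by_cases hi : i < L
        · simp [hi] at h7
        · simpa [hi] using h7
      have h10 := rho_tri A B B0 N
      rw [rho_symm B B0, rho_eq] at h10
      have hN' : (0 : ℝ) < N := by exact_mod_cast h8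
      have h11 : (cnt A B0 0 N : ℝ) / N ≤ 1 / q := by
        have : 1 / (q : ℝ) = 1 / (2 * q) + 1 / (2 * q) := by field_simp; ring
        linarith
      rw [div_le_div_iff₀ hN' hq'] at h11
      have h12 : cnt A B0 0 N * q ≤ N := by
        have : ((cnt A B0 0 N * q : ℕ) : ℝ) ≤ N := by push_cast; linarith
        exact_mod_cast this
      nlinarith
  obtain ⟨B, hB1, hB2⟩ := exists_limit hA
  refine ⟨B, hB1, ?_⟩
  rw [Metric.tendsto_atTop]
  intro ε hε
  obtain ⟨q, hq⟩ := exists_nat_gt (2 / ε)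
  have hq0 : (0 : ℝ) < q := lt_trans (by positivity) hq
  obtain ⟨m, hm⟩ := hB2 q
  refine ⟨q * m + 1, fun N hN => ?_⟩
  rw [Real.dist_eq, sub_zero, abs_of_nonneg (rho_nonneg _ _ _), rho_eq]
  have h1 := hm N
  have h2 := cnt_add B A m N
  have h3 : q * cnt B A 0 N ≤ 2 * N := by nlinarith
  have h4 : (q : ℝ) * cnt B A 0 N ≤ 2 * N := by exact_mod_cast h3
  have hN' : (0 : ℝ) < N := by exact_mod_cast (by omega : 0 < N)
  rw [div_lt_iff₀ hN']
  rw [div_lt_iff₀ hε] at hq
  have h5 : (q : ℝ) * (ε * N) > 2 * N := by nlinarith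
  nlinarith

theorem countP_block (B : ℕ → Bool) (b : Bool) (a l : ℕ) (A : ℕ → Bool)
    (h : ∀ i < l, A (a + i) = b) :
    l ≤ (List.range l).countP (fun i => decide (B (a + i) = b)) + cnt B A a (a + l) ∧
    (List.range l).countP (fun i => decide (B (a + i) = !b)) ≤ cnt B A a (a + l) := by
  induction l with
  | zero => simp
  | succ l ih =>
    obtain ⟨h1, h2⟩ := ih fun i hi => h i (by omega)
    have h3 := h l (by omega)
    rw [List.range_succ, List.countP_append, List.countP_append, ← add_assoc, cnt_succ, h3]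
    cases hb : b <;> cases hB : B (a + l) <;> simp [hb, hB] at h1 h2 ⊢ <;> omega

/-- every coarse description of the block coding of `R` computes `R` -/
theorem proper_main {R B : ℕ → Bool}
    (h : Tendsto (rho B (fun n => R (Nat.log 2 n))) atTop (𝓝 0)) : TLe R B := by
  have h1 : ∀ᶠ n in atTop, rho B (fun n => R (Nat.log 2 n)) n < 1 / 8 :=
    h.eventually (gt_mem_nhds (by positivity))
  obtain ⟨K, hK⟩ := eventually_atTop.1 h1
  have key : ∀ k, K ≤ k → ∀ b, R k = b ↔
      2 ^ k < 2 * (List.range (2 ^ k)).countP (fun i => decide (B (2 ^ k + i) = b)) := by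
    intro k hk b
    have h2 : k < 2 ^ k := Nat.lt_two_pow_self
    have h3 := hK (2 ^ k + 2 ^ k) (by omega)
    rw [rho_eq, div_lt_iff₀ (by positivity)] at h3
    have h4 : 8 * cnt B (fun n => R (Nat.log 2 n)) 0 (2 ^ k + 2 ^ k) < 2 ^ k + 2 ^ k := by
      have : ((8 * cnt B (fun n => R (Nat.log 2 n)) 0 (2 ^ k + 2 ^ k) : ℕ) : ℝ) <
          ((2 ^ k + 2 ^ k : ℕ) : ℝ) := by
        push_cast at h3 ⊢; linarith
      exact_mod_cast this
    have h5 : cnt B (fun n => R (Nat.log 2 n)) (2 ^ k) (2 ^ k + 2 ^ k) ≤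
        cnt B (fun n => R (Nat.log 2 n)) 0 (2 ^ k + 2 ^ k) :=
      cnt_le' _ fun i _ _ h => ⟨Nat.zero_le _, h⟩
    obtain ⟨h6, h7⟩ := countP_block B (R k) (2 ^ k) (2 ^ k) (fun n => R (Nat.log 2 n)) (by
      intro i hi
      congr 1
      exact Nat.log_eq_of_pow_le_of_lt_pow (by omega) (by rw [pow_succ]; omega))
    constructor
    · rintro rfl
      omega
    · intro h8
      by_contra h9
      have : b = !R k := by
        revert h9; cases b <;> cases R k <;> simp
      subst this
      omega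
  rw [tLe_iff_SI]
  have hS : S1 fun y : List Bool × ℕ × Bool => (y.2.1 < K ∧ (pre R K).getD y.2.1 false = y.2.2) ∨
      (K ≤ y.2.1 ∧ y.1.length = 2 ^ y.2.1 + 2 ^ y.2.1 ∧ 2 ^ y.2.1 < 2 * (List.range (2 ^ y.2.1)).countP
        (fun i => decide (y.1.getD (2 ^ y.2.1 + i) false = y.2.2))) := by
    refine S1.or (S1.and (s1_lt (by fun_prop) (by fun_prop)) (s1_eq (by fun_prop) (by fun_prop)))
      (S1.and (s1_le (by fun_prop) (by fun_prop)) (S1.and (s1_eq (by fun_prop) (by fun_prop))
        (s1_lt (by fun_prop) (pmul (by fun_prop) ?_))))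
    refine pcountP (f := fun y : List Bool × ℕ × Bool => List.range (2 ^ y.2.1))
      (g := fun y i => decide (y.1.getD (2 ^ y.2.1 + i) false = y.2.2)) (by fun_prop) ?_
    exact pdeq (by fun_prop) (by fun_prop)
  refine (si_of_pre (B := B) hS).of_eq ?_
  rintro ⟨k, b⟩
  have e : (List.range (2 ^ k)).countP
      (fun i => decide ((pre B (2 ^ k + 2 ^ k)).getD (2 ^ k + i) false = b)) =
      (List.range (2 ^ k)).countP (fun i => decide (B (2 ^ k + i) = b)) := by
    refine List.countP_congr fun i hi => ?_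
    rw [pre_getD _ _ _ _ (by have := List.mem_range.1 hi; omega)]
  simp only [length_pre]
  constructor
  · rintro ⟨s, ⟨h2, h3⟩ | ⟨h2, rfl, h3⟩⟩
    · rwa [pre_getD _ _ _ _ h2] at h3
    · rw [e] at h3
      exact (key k h2 b).2 h3
  · intro h2
    by_cases hk : k < K
    · exact ⟨0, Or.inl ⟨hk, by rwa [pre_getD _ _ _ _ hk]⟩⟩
    · refine ⟨_, Or.inr ⟨by omega, rfl, ?_⟩⟩
      rw [e]
      exact (key k (by omega) b).1 h2

theorem exists_noncomp : ∃ R : ℕ → Bool, ¬ TLe R (fun _ => false) := by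
  by_contra h
  push Not at h
  have h1 := HD.countable_below (fun _ => false)
  have h2 : {A : ℕ → Bool | HD.TLe A (fun _ => false)} = Set.univ :=
    Set.eq_univ_of_forall h
  rw [h2, Set.countable_univ_iff] at h1
  obtain ⟨f, hf⟩ := exists_surjective_nat (ℕ → Bool)
  obtain ⟨n, hn⟩ := hf fun i => !f i i
  have := congrFun hn n
  simp at this

end Pool.Agent.H100Z.CS
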