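import Mathlib

set_option autoImplicit false

namespace Pool.Agent.H100Z.Defs

open MeasureTheory Filter

/-- `f ≤_T A` for a total function `f : ω → ω` and a set `A ⊆ ω` (a characteristic sequence). -/
def FunLe (f : ℕ → ℕ) (A : ℕ → Bool) : Prop :=
  TuringReducible (fun n => Part.some (f n)) (fun n => Part.some (A n).toNat)

/-- `A ≤_T B` for sets. -/
def SetLe (A B : ℕ → Bool) : Prop := FunLe (fun n => (A n).toNat) B

/-- `A ≡_T B`. -/
def SetEquiv (A B : ℕ → Bool) : Prop := SetLe A B ∧ SetLe B A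

/-- `δ([A],[B])`, the upper density of `A △ B`. -/
noncomputable def delta (A B : ℕ → Bool) : ℝ :=
  limsup (fun n : ℕ => (((Finset.range n).filter (fun i => A i ≠ B i)).card : ℝ) / (n : ℝ)) atTop

/-- The representatives of the points of the closure in `(S, δ)` of `{[X] : X ≡_T A}`. -/
def degClosure (A : ℕ → Bool) : Set (ℕ → Bool) :=
  {Z | ∀ ε : ℝ, 0 < ε → ∃ X : ℕ → Bool, SetEquiv X A ∧ delta Z X < ε}

/-- The Hausdorff distance between the closures of the degrees of `A` and `B`. -/
noncomputable def H (A B : ℕ → Bool) : ℝ :=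
  max (sSup {r : ℝ | ∃ x ∈ degClosure A, r = sInf {s : ℝ | ∃ y ∈ degClosure B, s = delta x y}})
    (sSup {r : ℝ | ∃ y ∈ degClosure B, r = sInf {s : ℝ | ∃ x ∈ degClosure A, s = delta x y}})

/-- The uniform (coin-toss) measure on Cantor space. -/
noncomputable def coinMeasure : Measure (ℕ → Bool) :=
  Measure.infinitePi (fun _ : ℕ => (PMF.uniformOfFintype Bool).toMeasure)

/-- `A` is attractive: `H(A,B) = 1/2` for almost every `B`. -/
def Attractive (A : ℕ → Bool) : Prop := ∀ᵐ B ∂coinMeasure, H A B = 1 / 2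

/-- `A` is a computably enumerable set. -/
def CE (A : ℕ → Bool) : Prop := REPred fun n => A n = true

/-- `A` has c.e. degree: it is Turing equivalent to a computably enumerable set. -/
def CEDegree (A : ℕ → Bool) : Prop := ∃ C : ℕ → Bool, CE C ∧ SetEquiv A C

/-- `A` is almost everywhere dominating: for almost every `B`, every `B`-computable function is
dominated by an `A`-computable function. -/
def AEDominating (A : ℕ → Bool) : Prop :=
  ∀ᵐ B ∂coinMeasure, ∀ f : ℕ → ℕ, FunLe f B →
    ∃ g : ℕ → ℕ, FunLe g A ∧ ∀ᶠ n in atTop, f n ≤ g n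

/-- `W` is c.e. relative to `A`: it is the domain of a partial function recursive in `A`. -/
def CEIn (A W : ℕ → Bool) : Prop :=
  ∃ f : ℕ →. ℕ, TuringReducible f (fun n => Part.some (A n).toNat) ∧ ∀ n, W n = true ↔ (f n).Dom

/-- `J` has the degree of the Turing jump of `A`, and is c.e. in `A`: it is c.e. in `A` and
computes every set that is c.e. in `A`. -/
def IsJump (A J : ℕ → Bool) : Prop := CEIn A J ∧ ∀ W : ℕ → Bool, CEIn A W → SetLe W J

/-- `A` is high: `A' ≡_T ∅''`. -/
def High (A : ℕ → Bool) : Prop :=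
  ∃ J K K₂ : ℕ → Bool, IsJump A J ∧ IsJump (fun _ => false) K ∧ IsJump K K₂ ∧ SetEquiv J K₂

end Pool.Agent.H100Z.Defs
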