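import Pool.Agent.H100Z.Defs

set_option autoImplicit false

namespace Pool.Agent.H100Z.Defs

open MeasureTheory Filter

/-- `A` has hyperimmune-free degree: every function computable from `A` is dominated by a
computable function. -/
def HyperimmuneFree (A : ℕ → Bool) : Prop :=
  ∀ f : ℕ → ℕ, FunLe f A → ∃ g : ℕ → ℕ, Computable g ∧ ∀ᶠ n in atTop, f n ≤ g n

/-- `R` is Martin-Löf random: for every uniformly c.e. sequence `V n` of sets of strings such that
the open set generated by `V n` has measure at most `2 ^ (-n)`, some `V n` holds no initial segment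
of `R`. -/
def MLRandom (R : ℕ → Bool) : Prop :=
  ∀ V : ℕ → List Bool → Prop, REPred (fun x : ℕ × List Bool => V x.1 x.2) →
    (∀ n, coinMeasure {X | ∃ k, V n ((List.range k).map X)} ≤ (1 / 2) ^ n) →
    ∃ n, ∀ k, ¬ V n ((List.range k).map R)

end Pool.Agent.H100Z.Defs
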