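import Pool.Agent.H100Z.BT

set_option autoImplicit false

namespace Pool.Agent.H100Z.FW

open Encodable Pool.Agent.Helper227 Pool.Agent.H100Z.PR Filter Topology
open Pool.Agent.H100Z.Defs MeasureTheory Pool.Agent.H100Z.HB Pool.Agent.H100Z.BT
open Nat.Partrec (Code)
open scoped ENNReal

/-- end of the long block `k` -/
def Mk (k : ℕ) : ℕ := 2 ^ ((k + 1) * (k + 1))

/-- location attached to a tuple and a node -/
def loc (a m : ℕ) (τ : List Bool) : ℕ := Nat.pair a (Nat.pair m (encode τ))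

/-- lengths of the levels -/
def LL : ℕ → ℕ
  | 0 => 0
  | m + 1 => 2 * LL m + 3 * m + 3 +
      ((allStr (LL m)).map fun τ => ((List.range (m + 1)).map fun a => Mk (loc a m τ)).sum).sum

/-- units -/
def uu (m : ℕ) : ℕ := (m + 1) * 2 ^ m + 1

section
variable {α : Type*} [Primcodable α]

@[fun_prop] theorem pMk {f : α → ℕ} (hf : Primrec f) : Primrec fun x => Mk (f x) := by
  unfold Mk; fun_prop

@[fun_prop] theorem ploc {a m : α → ℕ} {τ : α → List Bool} (ha : Primrec a) (hm : Primrec m)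
    (hτ : Primrec τ) : Primrec fun x => loc (a x) (m x) (τ x) := by
  unfold loc; fun_prop

theorem primrec_uu : Primrec uu := by unfold uu; fun_prop

theorem primrec_LL : Primrec LL := by
  have h : Primrec fun n : ℕ => (Nat.rec 0 (fun m IH => 2 * IH + 3 * m + 3 +
      ((allStr IH).map fun τ => ((List.range (m + 1)).map fun a => Mk (loc a m τ)).sum).sum) n : ℕ) := by
    refine Primrec.nat_rec' (f := fun n : ℕ => n) (g := fun _ => 0)
      (h := fun _ p => 2 * p.2 + 3 * p.1 + 3 + ((allStr p.2).map fun τ =>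
        ((List.range (p.1 + 1)).map fun a => Mk (loc a p.1 τ)).sum).sum) Primrec.id
      (Primrec.const _) ?_
    refine padd (by fun_prop) (psum (pmap (f := fun z : ℕ × ℕ × ℕ => allStr z.2.2)
      (g := fun z τ => ((List.range (z.2.1 + 1)).map fun a => Mk (loc a z.2.1 τ)).sum)
      (by fun_prop) (psum (pmap (f := fun w : (ℕ × ℕ × ℕ) × List Bool => List.range (w.1.2.1 + 1))
        (g := fun w a => Mk (loc a w.1.2.1 w.2)) (by fun_prop) (by fun_prop)))))
  refine h.of_eq fun n => ?_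
  induction n with
  | zero => rfl
  | succ n ih => simp only [ih, LL]

@[fun_prop] theorem pLL {f : α → ℕ} (hf : Primrec f) : Primrec fun x => LL (f x) :=
  primrec_LL.comp hf

end

theorem LL_strict : StrictMono LL := strictMono_nat_of_lt_succ fun m => by rw [LL]; omega

theorem LL_mono : Monotone LL := LL_strict.monotone

theorem le_LL (n : ℕ) : n ≤ LL n := LL_strict.id_le n

theorem room {a m p : ℕ} {τ : List Bool} (ha : a ≤ m) (hp : p ≤ a) (hτ : τ.length = LL m) :
    Bushy uu LL (fun _ => True) (p + p * 2 ^ Mk (loc a m τ)) m := by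
  intro m' ρ hm _ _
  refine ⟨(allStr (LL (m' + 1) - LL m')).toFinset, ?_, fun β hβ =>
    ⟨mem_allStr.1 (List.mem_toFinset.1 hβ), trivial⟩⟩
  rw [List.toFinset_card_of_nodup (nodup_allStr _), length_allStr]
  have h1 : Mk (loc a m τ) ≤ ((allStr (LL m)).map fun τ =>
      ((List.range (m + 1)).map fun a => Mk (loc a m τ)).sum).sum :=
    le_trans (List.single_le_sum (by simp) _ (List.mem_map_of_mem (f := fun a => Mk (loc a m τ))
      (List.mem_range.2 (by omega : a < m + 1))))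
      (List.single_le_sum (by simp) _ (List.mem_map_of_mem
        (f := fun τ => ((List.range (m + 1)).map fun a => Mk (loc a m τ)).sum) (mem_allStr.2 hτ)))
  have h2 : Mk (loc a m τ) + 3 * m' + 3 ≤ LL (m' + 1) - LL m' := by
    rcases hm.eq_or_lt with rfl | h
    · rw [LL]; omega
    · have h3 : LL (m + 1) ≤ LL m' := LL_mono h
      rw [LL] at h3
      rw [LL]; omega
  have h3 : m' < 2 ^ m' := Nat.lt_two_pow_self
  have h4 : uu m' ≤ 2 ^ m' * 2 ^ m' * 2 := by
    unfold uu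
    nlinarith
  have h5 : 1 ≤ 2 ^ Mk (loc a m τ) := Nat.one_le_two_pow
  have h6 : p + p * 2 ^ Mk (loc a m τ) ≤ 2 ^ m' * (2 ^ Mk (loc a m τ) * 2) := by nlinarith
  calc _ ≤ 2 ^ m' * (2 ^ Mk (loc a m τ) * 2) * (2 ^ m' * 2 ^ m' * 2) := Nat.mul_le_mul h6 h4
    _ = 2 ^ (Mk (loc a m τ) + 3 * m' + 2) := by ring
    _ ≤ _ := Nat.pow_le_pow_right (by norm_num) (by omega)

/-- the `e`-th c.e. set of strings -/
def In (e : ℕ) (ρ : List Bool) : Prop := ((Denumerable.ofNat Code e).eval (encode ρ)).Dom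

theorem In_of_s1 {E : List Bool → Prop} (hE : S1 E) : ∃ e, In e = E := by
  obtain ⟨c, hc⟩ := s1_code hE
  exact ⟨encode c, by ext ρ; simp [In, hc]⟩

/-- the data coded by a tuple -/
def dec (a : ℕ) : Code × ℕ × ℕ × List Bool := (decode a.unpair.2).getD (Code.zero, 0, 0, [])

@[fun_prop] theorem pdec {α : Type*} [Primcodable α] {f : α → ℕ} (hf : Primrec f) :
    Primrec fun x => dec (f x) := by
  unfold dec; fun_prop

/-- the search at a node -/
def Srch (x : ℕ × ℕ × List Bool) (y : List Bool × ℕ) : Prop :=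
  Big uu LL (fun _ => True) (dec x.1).2.1 (In (dec x.1).2.2.1) x.2.1 x.2.2 ∨
  (y.1.length = Mk (loc x.1 x.2.1 x.2.2) ∧ Big uu LL (fun _ => True) (dec x.1).2.1
    (fun ρ => ρ.length ≤ y.2 ∧ Out (dec x.1).1 y.1 ρ) x.2.1 x.2.2)

theorem s1_Srch : S1 fun z : (ℕ × ℕ × List Bool) × List Bool × ℕ => Srch z.1 z.2 := by
  unfold Srch
  refine S1.or (s1_Big (S := fun z : (ℕ × ℕ × List Bool) × List Bool × ℕ => In (dec z.1.1).2.2.1)
    primrec_uu primrec_LL (S1.of_prim (PP.const True)) (s1_dom (by fun_prop) (by fun_prop))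
    (by fun_prop) (by fun_prop) (by fun_prop)) (S1.and (s1_eq (by fun_prop) (by fun_prop))
    (s1_Big (S := fun (z : (ℕ × ℕ × List Bool) × List Bool × ℕ) ρ =>
      ρ.length ≤ z.2.2 ∧ Out (dec z.1.1).1 z.2.1 ρ)
    primrec_uu primrec_LL (S1.of_prim (PP.const True)) (S1.and (s1_le (by fun_prop) (by fun_prop))
      (S1.of_prim (pp_Out (by fun_prop) (by fun_prop) (by fun_prop))))
    (by fun_prop) (by fun_prop) (by fun_prop)))

/-- first witness of the search -/
noncomputable def Fst : ℕ × ℕ × List Bool → ℕ → Prop := (s1_first ([], 0) s1_Srch).choose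

/-- value of a witness -/
noncomputable def vl : ℕ → List Bool × ℕ := (s1_first ([], 0) s1_Srch).choose_spec.choose

theorem fst_spec : PrimrecRel Fst ∧ Primrec vl ∧ (∀ a w w', Fst a w → Fst a w' → w = w') ∧
    (∀ a w, Fst a w → Srch a (vl w)) ∧ ∀ a b, Srch a b → ∃ w, Fst a w :=
  (s1_first ([], 0) s1_Srch).choose_spec.choose_spec

@[fun_prop] theorem pvl {α : Type*} [Primcodable α] {f : α → ℕ} (hf : Primrec f) :
    Primrec fun x => vl (f x) := fst_spec.2.1.comp hf

/-- all searches at level `m` end before level `n` -/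
def conv (a m n : ℕ) : Prop := ∀ τ ∈ allStr (LL m),
  τ.take (dec a).2.2.2.length ≠ (dec a).2.2.2 ∨ ∃ w < n, Fst (a, m, τ) w ∧ (vl w).2 ≤ LL n

theorem pp_conv {α : Type*} [Primcodable α] {a m n : α → ℕ} (ha : Primrec a) (hm : Primrec m)
    (hn : Primrec n) : PrimrecPred fun x => conv (a x) (m x) (n x) := by
  unfold conv
  refine PP.all_mem (f := fun x => allStr (LL (m x))) (p := fun x τ => τ.take (dec (a x)).2.2.2.length ≠ (dec (a x)).2.2.2 ∨
    ∃ w < n x, Fst (a x, m x, τ) w ∧ (vl w).2 ≤ LL (n x))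
    (PrimrecPred.or (pp_ne (f := fun z : α × List Bool => z.2.take (dec (a z.1)).2.2.2.length)
      (by fun_prop) (by fun_prop)) ?_) (by fun_prop)
  refine PP.ex_lt (α := α × List Bool) (f := fun z => n z.1)
    (p := fun z w => Fst (a z.1, m z.1, z.2) w ∧ (vl w).2 ≤ LL (n z.1)) ?_ (by fun_prop)
  exact PrimrecPred.and (fst_spec.1.comp (by fun_prop) (by fun_prop))
    (pp_le (by fun_prop) (by fun_prop))

theorem conv_mono {a m n n' : ℕ} (h : conv a m n) (hn : n ≤ n') : conv a m n' := fun τ hτ =>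
  (h τ hτ).imp id fun ⟨w, h1, h2, h3⟩ => ⟨w, by omega, h2, h3.trans (LL_mono hn)⟩

open Classical in
/-- the current attempt and its level -/
noncomputable def st (a : ℕ) : ℕ → ℕ × ℕ
  | 0 => (0, a)
  | j + 1 => if conv a (st a j).2 (a + j + 1) then ((st a j).1 + 1, a + j + 1) else st a j

theorem primrec_st : Primrec₂ st := by
  classical
  have h := Primrec.nat_rec (f := fun a : ℕ => ((0, a) : ℕ × ℕ))
    (g := fun a (p : ℕ × ℕ × ℕ) =>
      if conv a p.2.2 (a + p.1 + 1) then (p.2.1 + 1, a + p.1 + 1) else p.2) (by fun_prop)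
    (Primrec.ite (pp_conv (by fun_prop) (by fun_prop) (by fun_prop)) (by fun_prop) (by fun_prop))
  refine h.of_eq fun a j => ?_
  induction j with
  | zero => rfl
  | succ j ih => simp only [ih, st]

/-- the attempt `i` of the tuple `a` sits at level `m` -/
def active (a i m : ℕ) : Prop := a ≤ m ∧ st a (m - a) = (i, m)

theorem pp_active {α : Type*} [Primcodable α] {a i m : α → ℕ} (ha : Primrec a) (hi : Primrec i)
    (hm : Primrec m) : PrimrecPred fun x => active (a x) (i x) (m x) :=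
  PrimrecPred.and (pp_le ha hm) (pp_eq (primrec_st.comp ha (by fun_prop)) (by fun_prop))

theorem st_stay {a i m : ℕ} (h : active a i m) (d : ℕ) (h2 : ∀ n, m < n → n ≤ m + d → ¬ conv a m n) :
    st a (m - a + d) = (i, m) := by
  induction d with
  | zero => exact h.2
  | succ d ih =>
    have h3 := ih fun n h3 h4 => h2 n h3 (by omega)
    have h4 := h.1
    rw [← add_assoc, st, h3, if_neg (h2 _ (by omega) (by omega))]

theorem active_unique {a i m i' m' : ℕ} (h : active a i m) (h' : active a i' m')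
    (h2 : ∀ n, ¬ conv a m n) (h2' : ∀ n, ¬ conv a m' n) : i = i' := by
  rcases le_total m m' with h3 | h3
  · have h4 := st_stay h (m' - m) fun n _ _ => h2 n
    have h5 := h.1
    rw [show m - a + (m' - m) = m' - a by omega, h'.2] at h4
    exact (Prod.ext_iff.1 h4).1.symm
  · have h4 := st_stay h' (m - m') fun n _ _ => h2' n
    have h5 := h'.1
    rw [show m' - a + (m - m') = m - a by omega, h.2] at h4
    exact (Prod.ext_iff.1 h4).1

theorem active_next {a i m n : ℕ} (h : active a i m) (h2 : conv a m n) :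
    ∃ m', m < m' ∧ active a (i + 1) m' ∧ conv a m m' := by
  classical
  have h3 : ∃ d, conv a m (m + d + 1) := ⟨n, conv_mono h2 (by omega)⟩
  have h4 := st_stay h (Nat.find h3) fun n h4 h5 => by
    have := Nat.find_min h3 (m := n - m - 1) (by omega)
    rwa [show m + (n - m - 1) + 1 = n by omega] at this
  have h5 := h.1
  refine ⟨m + Nat.find h3 + 1, by omega, ⟨by omega, ?_⟩, Nat.find_spec h3⟩
  have e : a + (m - a + Nat.find h3) + 1 = m + Nat.find h3 + 1 := by omega
  rw [show m + Nat.find h3 + 1 - a = m - a + Nat.find h3 + 1 by omega, st, h4, e,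
    if_pos (Nat.find_spec h3)]

/-- number coded by a string -/
def num (σ : List Bool) : ℕ := σ.foldr (fun b n => 2 * n + b.toNat) 0

theorem num_lt (σ : List Bool) : num σ < 2 ^ σ.length := by
  induction σ with
  | nil => simp [num]
  | cons b σ ih =>
    simp only [num, List.foldr_cons, List.length_cons, pow_succ] at ih ⊢
    have := Bool.toNat_le b
    omega

theorem num_inj : ∀ σ τ : List Bool, σ.length = τ.length → num σ = num τ → σ = τ
  | [], [], _, _ => rfl
  | [], _ :: _, h, _ => by simp at h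
  | _ :: _, [], h, _ => by simp at h
  | b :: σ, c :: τ, h, h2 => by
    simp only [num, List.foldr_cons] at h2
    have h3 := Bool.toNat_le b
    have h4 := Bool.toNat_le c
    have h5 : b = c := by cases b <;> cases c <;> simp at h2 ⊢ <;> omega
    subst h5
    rw [num_inj σ τ (by simpa using h) (by unfold num; omega)]

@[fun_prop] theorem pnum {α : Type*} [Primcodable α] {f : α → List Bool} (hf : Primrec f) :
    Primrec fun x => num (f x) :=
  Primrec.list_foldr (h := fun _ (p : Bool × ℕ) => 2 * p.2 + p.1.toNat) hf (Primrec.const 0)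
    (by unfold Primrec₂; fun_prop)

/-- the attempt chosen by `B` for the tuple `a` -/
def idx (a : ℕ) (B : ℕ → Bool) : ℕ := num ((List.range (a + 2)).map fun t => B (Nat.pair a t))

theorem idx_lt (a : ℕ) (B : ℕ → Bool) : idx a B < 2 ^ (a + 2) := by
  simpa [idx] using num_lt ((List.range (a + 2)).map fun t => B (Nat.pair a t))

/-- oracles that never wait forever -/
def GG : Set (ℕ → Bool) := {B | ∀ a m, active a (idx a B) m → ∃ n, conv a m n}

theorem lam_GG : lam GGᶜ ≤ 1 / 2 := by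
  have h1 : GGᶜ ⊆ ⋃ a, {B | ∃ m, active a (idx a B) m ∧ ∀ n, ¬ conv a m n} := by
    intro B hB
    simpa [GG] using hB
  refine (measure_mono h1).trans ((measure_iUnion_le _).trans ?_)
  have h2 : ∀ a, lam {B | ∃ m, active a (idx a B) m ∧ ∀ n, ¬ conv a m n} ≤ (1 / 2) ^ (1 + a + 1) := by
    intro a
    rcases Set.eq_empty_or_nonempty {B | ∃ m, active a (idx a B) m ∧ ∀ n, ¬ conv a m n} with h | h
    · rw [h]; simp
    · obtain ⟨B0, m0, h3, h4⟩ := h
      have h5 := lam_coord ((Finset.range (a + 2)).image (Nat.pair a)) B0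
      rw [Finset.card_image_of_injective _ (fun x y h => by simpa using h), Finset.card_range] at h5
      rw [show 1 + a + 1 = a + 2 by omega, ← h5]
      refine measure_mono ?_
      rintro B ⟨m, h6, h7⟩ p hp
      obtain ⟨t, ht, rfl⟩ := Finset.mem_image.1 hp
      have h8 := num_inj _ _ (by simp) (active_unique h6 h3 h7 h4)
      exact List.map_inj_left.1 h8 t (by simpa using ht)
  refine (ENNReal.tsum_le_tsum h2).trans (le_of_eq ?_)
  rw [tsum_half_pow, pow_one]

theorem exists_Y {B : ℕ → Bool} (hB : B ∈ GG) : ∃ Y, TLe Y B ∧ ∀ a m τ w t, active a (idx a B) m →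
    τ.length = LL m → (dec a).2.2.2 <+: τ → Fst (a, m, τ) w → blk t = loc a m τ →
    Y t = !((vl w).1.getD t false) := by
  let ff : ℕ → ℕ × ℕ × List Bool := fun t => ((blk t).unpair.1, (blk t).unpair.2.unpair.1,
    (decode (blk t).unpair.2.unpair.2).getD [])
  have hff : Primrec ff := by simp only [ff]; fun_prop
  have hR : SI B fun x : ℕ × Bool => ¬ (active (ff x.1).1 (idx (ff x.1).1 B) (ff x.1).2.1 ∧
      (ff x.1).2.2.length = LL (ff x.1).2.1 ∧
      (ff x.1).2.2.take (dec (ff x.1).1).2.2.2.length = (dec (ff x.1).1).2.2.2) ∨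
      ∃ w, Fst (ff x.1) w ∧ x.2 = !((vl w).1.getD x.1 false) := by
    refine SI.or ?_ (SI.ex (SI.of_prim (PrimrecPred.and (fst_spec.1.comp (by fun_prop) (by fun_prop))
      (pp_eq (by fun_prop) (by fun_prop)))))
    have h1 := RI.si_take (B := B) (E := fun (x : ℕ × Bool) ζ => ¬ (active (ff x.1).1
      (num ((List.range ((ff x.1).1 + 2)).map fun t => ζ.getD (Nat.pair (ff x.1).1 t) false))
      (ff x.1).2.1 ∧ (ff x.1).2.2.length = LL (ff x.1).2.1 ∧
      (ff x.1).2.2.take (dec (ff x.1).1).2.2.2.length = (dec (ff x.1).1).2.2.2))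
      (S1.of_prim (PrimrecPred.not (PrimrecPred.and (pp_active (by fun_prop) (pnum
        (pmap (f := fun z : (ℕ × Bool) × List Bool => List.range ((ff z.1.1).1 + 2))
          (g := fun z t => z.2.getD (Nat.pair (ff z.1.1).1 t) false) (by fun_prop) (by fun_prop)))
        (by fun_prop)) (PrimrecPred.and (pp_eq (by fun_prop) (by fun_prop))
          (pp_eq (by fun_prop) (by fun_prop))))))
      (n := fun x => Nat.pair (ff x.1).1 ((ff x.1).1 + 2)) (by fun_prop)
    refine h1.of_eq fun x => ?_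
    have : (List.range ((ff x.1).1 + 2)).map (fun t => (pre B (Nat.pair (ff x.1).1
        ((ff x.1).1 + 2))).getD (Nat.pair (ff x.1).1 t) false) =
        (List.range ((ff x.1).1 + 2)).map fun t => B (Nat.pair (ff x.1).1 t) :=
      List.map_congr_left fun t ht => pre_getD _ _ _ _
        (Nat.pair_lt_pair_right _ (List.mem_range.1 ht))
    rw [this]
    rfl
  obtain ⟨Y, hY, h1⟩ := si_choice_bool (R := fun t b => ¬ (active (ff t).1 (idx (ff t).1 B)
      (ff t).2.1 ∧ (ff t).2.2.length = LL (ff t).2.1 ∧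
      (ff t).2.2.take (dec (ff t).1).2.2.2.length = (dec (ff t).1).2.2.2) ∨
      ∃ w, Fst (ff t) w ∧ b = !((vl w).1.getD t false)) hR (by
    intro t
    by_cases h : active (ff t).1 (idx (ff t).1 B) (ff t).2.1 ∧ (ff t).2.2.length = LL (ff t).2.1 ∧
      (ff t).2.2.take (dec (ff t).1).2.2.2.length = (dec (ff t).1).2.2.2
    · obtain ⟨n, hn⟩ := hB _ _ h.1
      rcases hn _ (mem_allStr.2 h.2.1) with h2 | ⟨w, -, h2, -⟩
      · exact absurd h.2.2 h2
      · exact ⟨_, Or.inr ⟨w, h2, rfl⟩⟩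
    · exact ⟨false, Or.inl h⟩)
  refine ⟨Y, hY, fun a m τ w t h2 h3 h4 h5 h6 => ?_⟩
  have h7 : ff t = (a, m, τ) := by simp [ff, h6, loc]
  have h8 := h1 t
  rw [h7] at h8
  rcases h8 with h8 | ⟨w', h8, h9⟩
  · exact absurd ⟨h2, h3, (List.prefix_iff_eq_take.1 h4).symm⟩ h8
  · rw [h9, fst_spec.2.2.1 _ _ _ h8 h5]

/-- forcing conditions: level, stem, bushiness, index of the bad set -/
def Cond (x : ℕ × List Bool × ℕ × ℕ) : Prop :=
  x.2.1.length = LL x.1 ∧ Bushy uu LL (fun _ => True) x.2.2.1 x.1 ∧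
    (∀ ρ ρ', ρ <+: ρ' → In x.2.2.2 ρ → In x.2.2.2 ρ') ∧
    ¬ Big uu LL (fun _ => True) x.2.2.1 (In x.2.2.2) x.1 x.2.1

/-- all attempts of the tuple `a` before `i` are met along `θ` -/
def Hit (a i : ℕ) (θ : List Bool) : Prop :=
  ∀ i' < i, ∃ m τ w, active a i' m ∧ τ.length = LL m ∧ (dec a).2.2.2 <+: τ ∧ Fst (a, m, τ) w ∧
    (vl w).1.length = Mk (loc a m τ) ∧ Out (dec a).1 (vl w).1 θ

theorem step (c : Code) (K : ℕ) {n p e : ℕ} {σ : List Bool} (h : Cond (n, σ, p, e)) :
    ∃ n' σ' p' e', Cond (n', σ', p', e') ∧ K ≤ n' ∧ σ <+: σ' ∧ (∀ ρ, In e ρ → In e' ρ) ∧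
      ((∃ N, ∀ v ρ, v.length = N → Out c v ρ → In e' ρ) ∨
        ∃ a, K ≤ a ∧ (dec a).1 = c ∧ Hit a (2 ^ (a + 2)) σ') := by
  obtain ⟨h1, h2, h3, h4⟩ := h
  simp only at h1 h2 h3 h4
  obtain ⟨a, ha1, ha2⟩ : ∃ a, K + n + p ≤ a ∧ dec a = (c, p, e, σ) :=
    ⟨Nat.pair (K + n + p) (encode (c, p, e, σ)), Nat.left_le_pair _ _, by
      rw [dec, Nat.unpair_pair, encodek]; rfl⟩
  by_cases H : ∀ m τ, a ≤ m → τ.length = LL m → σ <+: τ → ∃ y, Srch (a, m, τ) y
  · have key : ∀ i, ∃ m τ, active a i m ∧ τ.length = LL m ∧ σ <+: τ ∧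
        ¬ Big uu LL (fun _ => True) p (In e) m τ ∧ Hit a i τ := by
      intro i
      induction i with
      | zero =>
        obtain ⟨τ, h5, h6, -, h7⟩ := h2.ext LL_mono h1 trivial h4 (n := a) (by omega)
        exact ⟨a, τ, ⟨le_rfl, by rw [Nat.sub_self]; rfl⟩, h5, h6, h7, by simp [Hit]⟩
      | succ i ih =>
        obtain ⟨m, τ, h5, h6, h7, h8, h9⟩ := ih
        have h10 : ∃ n, conv a m n := by
          have : ∀ l : List (List Bool), (∀ τ ∈ l, τ.length = LL m) → ∃ n, ∀ τ ∈ l,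
              τ.take σ.length ≠ σ ∨ ∃ w < n, Fst (a, m, τ) w ∧ (vl w).2 ≤ LL n := by
            intro l
            induction l with
            | nil => simp
            | cons θ l ih2 =>
              intro h11
              obtain ⟨n1, hn1⟩ := ih2 fun τ hτ => h11 τ (List.mem_cons_of_mem _ hτ)
              obtain ⟨n2, hn2⟩ : ∃ n, θ.take σ.length ≠ σ ∨
                  ∃ w < n, Fst (a, m, θ) w ∧ (vl w).2 ≤ LL n := by
                by_cases h12 : θ.take σ.length = σ
                · obtain ⟨y, hy⟩ := H m θ h5.1 (h11 θ List.mem_cons_self)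
                    (by rw [← h12]; exact List.take_prefix _ _)
                  obtain ⟨w, hw⟩ := fst_spec.2.2.2.2 _ _ hy
                  exact ⟨w + 1 + (vl w).2, Or.inr ⟨w, by omega, hw,
                    le_trans (by omega) (le_LL _)⟩⟩
                · exact ⟨0, Or.inl h12⟩
              refine ⟨max n1 n2, fun τ hτ => ?_⟩
              rcases List.mem_cons.1 hτ with rfl | hτ
              · exact hn2.imp id fun ⟨w, h12, h13, h14⟩ =>
                  ⟨w, by omega, h13, h14.trans (LL_mono (le_max_right _ _))⟩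
              · exact (hn1 τ hτ).imp id fun ⟨w, h12, h13, h14⟩ =>
                  ⟨w, by omega, h13, h14.trans (LL_mono (le_max_left _ _))⟩
          obtain ⟨n, hn⟩ := this _ fun τ hτ => mem_allStr.1 hτ
          exact ⟨n, by unfold conv; rw [ha2]; exact hn⟩
        obtain ⟨n0, h10⟩ := h10
        obtain ⟨m', h11, h12, h13⟩ := active_next h5 h10
        have h14 := h13 τ (mem_allStr.2 h6)
        rw [ha2] at h14
        obtain ⟨w, -, h15, h16⟩ := h14.resolve_left
          (not_not.2 (List.prefix_iff_eq_take.1 h7).symm)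
        have h17 := fst_spec.2.2.2.1 _ _ h15
        unfold Srch at h17
        rw [ha2] at h17
        simp only at h17
        obtain ⟨h18, h19⟩ := h17.resolve_left h8
        obtain ⟨m2, ρ, h20, h21, h22, -, ⟨h23, h24⟩, h25⟩ := h19.leaf LL_mono h8 h6
        have h26 : m2 ≤ m' := LL_strict.le_iff_le.1 (by omega)
        have h27 := h5.1
        obtain ⟨θ, h28, h29, -, h30⟩ := (h2.mono le_rfl (by omega : n ≤ m2)).ext LL_mono h21 trivial
          h25 h26
        refine ⟨m', θ, h12, h28, h7.trans (h22.trans h29), h30, fun i' hi' => ?_⟩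
        rcases Nat.lt_succ_iff_lt_or_eq.1 hi' with h31 | rfl
        · obtain ⟨m3, τ3, w3, g1, g2, g3, g4, g5, g6⟩ := h9 i' h31
          exact ⟨m3, τ3, w3, g1, g2, g3, g4, g5, g6.up (h22.trans h29)⟩
        · exact ⟨m, τ, w, h5, h6, by rw [ha2]; exact h7, h15, h18, by rw [ha2]; exact h24.up h29⟩
    obtain ⟨m, τ, h5, h6, h7, h8, h9⟩ := key (2 ^ (a + 2))
    have h10 := h5.1
    exact ⟨m, τ, p, e, ⟨h6, h2.mono le_rfl (by simp only; omega), h3, h8⟩, by omega, h7,
      fun _ h => h, Or.inr ⟨a, by omega, by rw [ha2], h9⟩⟩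
  · push Not at H
    obtain ⟨m, τ, h5, h6, h7, h8⟩ := H
    obtain ⟨e', he'⟩ := In_of_s1 (E := fun ρ => In e ρ ∨ ∃ v ∈ allStr (Mk (loc a m τ)), Out c v ρ)
      (S1.or (s1_dom (by fun_prop) (by fun_prop)) (S1.of_prim (PP.ex_mem
        (p := fun ρ v => Out c v ρ) (pp_Out (by fun_prop) (by fun_prop) (by fun_prop))
        (by fun_prop))))
    refine ⟨m, τ, p + p * 2 ^ Mk (loc a m τ), e', ⟨h6, room h5 (by omega) h6, ?_, ?_⟩, by omega, h7,
      fun ρ h => by rw [he']; exact Or.inl h, Or.inl ⟨Mk (loc a m τ), fun v ρ h9 h10 => by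
        rw [he']; exact Or.inr ⟨v, mem_allStr.2 h9, h10⟩⟩⟩
    · simp only [he']
      exact fun ρ ρ' h9 h10 => h10.imp (h3 _ _ h9) fun ⟨v, h11, h12⟩ => ⟨v, h11, h12.up h9⟩
    · simp only [he']
      rw [← length_allStr]
      intro h9
      rcases Big.union_list _ h9 with h10 | ⟨v, h10, h11⟩
      · exact h8 ([], 0) (Or.inl (by rw [ha2]; exact h10))
      · obtain ⟨D, hD⟩ := h11.depth
        exact h8 (v, D) (Or.inr ⟨mem_allStr.1 h10, by rw [ha2]; exact hD⟩)

theorem generic {E : List Bool → Prop} (hE : S1 E) (hup : ∀ ρ ρ', ρ <+: ρ' → E ρ → E ρ')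
    (hs : ¬ Big uu LL (fun _ => True) 1 E 0 []) :
    ∃ A, (∀ t, ¬ E (pre A t)) ∧ ∀ B ∈ GG, ∃ Y, TLe Y B ∧ ∀ X, TLe X A → 1 ≤ delta X Y := by
  obtain ⟨e0, rfl⟩ := In_of_s1 hE
  have h0 : Cond (0, [], 1, e0) := by
    refine ⟨rfl, ?_, hup, hs⟩
    intro m ρ _ h1 _
    refine ⟨(allStr (LL (m + 1) - LL m)).toFinset, ?_, fun β hβ =>
      ⟨mem_allStr.1 (List.mem_toFinset.1 hβ), trivial⟩⟩
    rw [List.toFinset_card_of_nodup (nodup_allStr _), length_allStr]
    have h4 : 3 * m + 3 ≤ LL (m + 1) - LL m := by rw [LL]; omega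
    have h5 : m < 2 ^ m := Nat.lt_two_pow_self
    have h6 : uu m ≤ 2 ^ m * 2 ^ m * 2 := by
      unfold uu
      nlinarith
    calc _ ≤ 2 ^ m * 2 ^ m * 2 := by simpa using h6
      _ = 2 ^ (2 * m + 1) := by ring
      _ ≤ _ := Nat.pow_le_pow_right (by norm_num) (by omega)
  have hs : ∀ (k : ℕ) (x : {x // Cond x}), ∃ x' : {x // Cond x}, k + 1 ≤ x'.1.1 ∧
      x.1.2.1 <+: x'.1.2.1 ∧ (∀ ρ, In x.1.2.2.2 ρ → In x'.1.2.2.2 ρ) ∧
      ((∃ N, ∀ v ρ, v.length = N → Out (Denumerable.ofNat Code k.unpair.1) v ρ → In x'.1.2.2.2 ρ) ∨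
        ∃ a, k + 1 ≤ a ∧ (dec a).1 = Denumerable.ofNat Code k.unpair.1 ∧
          Hit a (2 ^ (a + 2)) x'.1.2.1) := by
    rintro k ⟨⟨n, σ, p, e⟩, hx⟩
    obtain ⟨n', σ', p', e', h1, h2⟩ := step (Denumerable.ofNat Code k.unpair.1) (k + 1) hx
    exact ⟨⟨_, h1⟩, h2⟩
  choose F hF using hs
  let g : ℕ → {x // Cond x} := fun k => Nat.rec ⟨_, h0⟩ (fun k p => F k p) k
  have hlen : ∀ k, k ≤ (g k).1.2.1.length := by
    intro k
    rw [(g k).2.1]
    refine le_trans ?_ (le_LL _)
    cases k with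
    | zero => exact Nat.zero_le _
    | succ k => exact (hF k (g k)).1
  obtain ⟨A, hA⟩ := exists_limit (fun k => (g k).1.2.1) (fun k => (hF k (g k)).2.1) hlen
  have hin : ∀ k t, ¬ In (g k).1.2.2.2 (pre A t) := by
    intro k t h
    have h1 : ∀ d, In (g (k + d)).1.2.2.2 (pre A t) := by
      intro d
      induction d with
      | zero => exact h
      | succ d ih => exact (hF (k + d) (g _)).2.2.1 _ ih
    refine (g (k + t)).2.2.2.2 (.base trivial ((g (k + t)).2.2.2.1 _ _ ?_ (h1 t)))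
    rw [← hA (k + t)]
    exact pre_prefix _ (le_trans (by omega) (hlen (k + t)))
  refine ⟨A, hin 0, fun B hB => ?_⟩
  obtain ⟨Y, hY, h1⟩ := exists_Y hB
  refine ⟨Y, hY, fun X hX => far fun K => ?_⟩
  obtain ⟨c, hc⟩ := exists_cpt hX
  have h2 := (hF (Nat.pair (encode c) K) (g (Nat.pair (encode c) K))).2.2.2
  simp only [Nat.unpair_pair, Denumerable.ofNat_encode] at h2
  rcases h2 with ⟨N, h2⟩ | ⟨a, h2, h3, h4⟩
  · obtain ⟨n, hn⟩ := Out.complete hc N
    exact absurd (h2 _ _ (length_pre _ _) hn) (hin (Nat.pair (encode c) K + 1) n)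
  · obtain ⟨m, τ, w, g1, g2, g3, g4, g5, g6⟩ := h4 _ (idx_lt a B)
    have h5 := Nat.right_le_pair (encode c) K
    refine ⟨loc a m τ, le_trans (by omega) (Nat.left_le_pair a _), fun t ht => ?_⟩
    rw [h1 a m τ w t g1 g2 g3 g4 ht]
    have h6 : Out c (vl w).1 (pre A (g (Nat.pair (encode c) K + 1)).1.2.1.length) := by
      rw [h3] at g6
      rw [hA (Nat.pair (encode c) K + 1)]; exact g6
    have h7 := Out.sound hc h6
    have h8 : t < (vl w).1.length := by
      rw [g5]; exact lt_trans (Nat.lt_succ_self t) (blk_eq_iff.1 ht).2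
    rw [← h7, pre_getD _ _ _ _ h8]
    simp

/-- the functional `c` outputs `β` on the block of level `n` -/
def Ev (c : Code) (n : ℕ) (β : List Bool) : Set (ℕ → Bool) :=
  {B | ∃ s, ∀ i < β.length, W c (pre B s) (LL n + i) (β.getD i false) (pre B s).length = true ∧
    W c (pre B s) (LL n + i) (!β.getD i false) (pre B s).length = false}

theorem Ev_disjoint (c : Code) (n : ℕ) {β β' : List Bool} (hl : β.length = β'.length)
    (h : β ≠ β') : Disjoint (Ev c n β) (Ev c n β') := by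
  have key : ∀ (B : ℕ → Bool) i b s s', s ≤ s' → W c (pre B s) i b s = true →
      W c (pre B s') i b s' = true := fun B i b s s' h1 h2 => by
    refine W_mono h1 ?_
    rw [W_congr (β := pre B s) (T := s) le_rfl
      (by rw [take_pre _ _ _ h1, take_pre _ _ _ le_rfl])]
    exact h2
  rw [Set.disjoint_left]
  rintro B ⟨s, h1⟩ ⟨s', h2⟩
  simp only [length_pre] at h1 h2
  refine h (List.ext_getElem hl fun i h3 h4 => ?_)
  have e1 : β.getD i false = β[i] := by simp [h3]
  have e2 : β'.getD i false = β'[i] := by simp [h4]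
  obtain ⟨h5, h6⟩ := h1 i h3
  obtain ⟨h7, h8⟩ := h2 i h4
  rw [e1] at h5 h6
  rw [e2] at h7 h8
  by_contra hne
  have e3 : β'[i] = !β[i] := by
    cases h9 : β[i] <;> cases h10 : β'[i] <;> simp_all
  rw [e3] at h7 h8
  rcases le_total s s' with h9 | h9
  · have := key B _ _ _ _ h9 h5
    simp [this] at h8
  · have := key B _ _ _ _ h9 h7
    simp [this] at h6

/-- heavy values -/
def Heavy (e n : ℕ) (β : List Bool) : Prop :=
  ((1 : ℕ) : ℝ≥0∞) / ((2 ^ n : ℕ) : ℝ≥0∞) < lam (Ev (Denumerable.ofNat Code e) n β)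

theorem half_eq (n : ℕ) : ((1 : ℕ) : ℝ≥0∞) / ((2 ^ n : ℕ) : ℝ≥0∞) = (1 / 2) ^ n := by
  push_cast
  rw [one_div, one_div, ENNReal.inv_pow]

theorem s1_Heavy : S1 fun x : ℕ × ℕ × List Bool => Heavy x.1 x.2.1 x.2.2 := by
  refine s1_measure_gt (P := fun (x : ℕ × ℕ × List Bool) ρ => ∀ i < x.2.2.length,
    W (Denumerable.ofNat Code x.1) ρ (LL x.2.1 + i) (x.2.2.getD i false) ρ.length = true ∧
    W (Denumerable.ofNat Code x.1) ρ (LL x.2.1 + i) (!x.2.2.getD i false) ρ.length = false)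
    (S1.all_lt (S1.and (s1_bool (pW ?_ ?_ ?_ ?_ ?_)) (s1_eq (pW ?_ ?_ ?_ ?_ ?_) ?_)) ?_)
    (a := fun _ => 1) (b := fun x => 2 ^ x.2.1) ?_ ?_ (fun x => by positivity) <;> fun_prop

theorem heavy_card {e n l : ℕ} (F : Finset (List Bool)) (h : ∀ β ∈ F, β.length = l ∧ Heavy e n β) :
    F.card ≤ 2 ^ n := by
  have h1 : ∑ β ∈ F, lam (Ev (Denumerable.ofNat Code e) n β) ≤ (1 / 2) ^ 0 := by
    rw [← measure_biUnion_finset, pow_zero]
    · exact prob_le_one
    · intro β hβ β' hβ' hne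
      exact Ev_disjoint _ _ (by rw [(h β hβ).1, (h β' hβ').1]) hne
    · intro β _
      exact measurableSet_open fun _ ρ => ∀ i < β.length,
        W (Denumerable.ofNat Code e) ρ (LL n + i) (β.getD i false) ρ.length = true ∧
        W (Denumerable.ofNat Code e) ρ (LL n + i) (!β.getD i false) ρ.length = false
  have h2 := Finset.card_nsmul_le_sum F (fun β => lam (Ev (Denumerable.ofNat Code e) n β))
    ((1 / 2) ^ n) fun β hβ => by rw [← half_eq]; exact (h β hβ).2.le
  rw [nsmul_eq_mul] at h2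
  simpa using (ennreal_aux _ _ _).1 (h2.trans h1)

/-- some block of `ρ` is heavy -/
def P0 (ρ : List Bool) : Prop :=
  ∃ n, LL (n + 1) ≤ ρ.length ∧ ∃ e, e ≤ n ∧ Heavy e n ((ρ.take (LL (n + 1))).drop (LL n))

theorem s1_P0 : S1 P0 := by
  unfold P0
  exact S1.ex (S1.and (s1_le (by fun_prop) (by fun_prop)) (S1.ex (S1.and
    (s1_le (by fun_prop) (by fun_prop)) (s1_Heavy.comp
      (f := fun z : (List Bool × ℕ) × ℕ =>
        (z.2, z.1.2, (z.1.1.take (LL (z.1.2 + 1))).drop (LL z.1.2))) (by fun_prop)))))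

theorem P0_up (ρ ρ' : List Bool) (h : ρ <+: ρ') (h2 : P0 ρ) : P0 ρ' := by
  obtain ⟨n, h3, h4⟩ := h2
  obtain ⟨t, rfl⟩ := h
  refine ⟨n, by rw [List.length_append]; omega, ?_⟩
  rwa [List.take_append_of_le_length h3]

theorem P0_small {m : ℕ} {τ : List Bool} (h : Big uu LL (fun _ => True) 1 P0 m τ)
    (hl : τ.length = LL m) : P0 τ := by
  classical
  induction h with
  | base _ h => exact h
  | @step m τ F _ h2 h3 _ ih =>
    by_contra hc
    have h4 : LL m < LL (m + 1) := LL_strict (Nat.lt_succ_self m)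
    have h5 : F ⊆ (Finset.range (m + 1)).biUnion fun e => F.filter (Heavy e m) := by
      intro β hβ
      have h6 : (τ ++ β).length = LL (m + 1) := by rw [List.length_append, hl, h3 β hβ]; omega
      obtain ⟨n, h7, e, h8, h9⟩ := ih β hβ h6
      rw [h6] at h7
      have h10 : n + 1 ≤ m + 1 := LL_strict.le_iff_le.1 h7
      rcases Nat.lt_or_ge n m with h11 | h11
      · have h12 : LL (n + 1) ≤ τ.length := by rw [hl]; exact LL_mono h11
        rw [List.take_append_of_le_length h12] at h9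
        exact absurd ⟨n, h12, e, h8, h9⟩ hc
      · obtain rfl : n = m := by omega
        rw [← h6, List.take_length, ← hl, List.drop_left] at h9
        exact Finset.mem_biUnion.2 ⟨e, Finset.mem_range.2 (by omega), Finset.mem_filter.2 ⟨hβ, h9⟩⟩
    have h6 := (Finset.card_le_card h5).trans (Finset.card_biUnion_le_card_mul _ _ (2 ^ m)
      fun e _ => heavy_card (e := e) (l := LL (m + 1) - LL m) _ fun β hβ =>
        ⟨h3 β (Finset.mem_filter.1 hβ).1, (Finset.mem_filter.1 hβ).2⟩)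
    rw [Finset.card_range] at h6
    unfold uu at h2
    omega

theorem not_W {A : ℕ → Bool} (hA : ∀ t, ¬ P0 (pre A t)) : ∀ᵐ B ∂lam, ∀ G, TLe G B →
    ∃ V : Set (List Bool), (SI A fun ρ => ρ ∈ V) ∧ (∀ σ, ∃ τ ∈ V, σ <+: τ) ∧ ∀ n, pre G n ∉ V := by
  have h1 : ∀ᵐ B ∂lam, ∀ e, ∀ᶠ n in atTop, B ∉ Ev (Denumerable.ofNat Code e) (e + n + 1)
      ((pre A (LL (e + n + 1 + 1))).drop (LL (e + n + 1))) := by
    rw [ae_all_iff]
    intro e
    refine ae_eventually_notMem (ne_top_of_le_ne_top (b := (1 / 2) ^ e) (by simp) ?_)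
    rw [← tsum_half_pow e]
    refine ENNReal.tsum_le_tsum fun n => ?_
    rw [← half_eq]
    by_contra h
    refine hA (LL (e + n + 1 + 1)) ⟨e + n + 1, by simp, e, by omega, ?_⟩
    rw [take_pre _ _ _ le_rfl]
    exact not_le.1 h
  filter_upwards [h1] with B hB G hG
  obtain ⟨c, hc⟩ := exists_cpt hG
  obtain ⟨N, hN⟩ := eventually_atTop.1 (hB (encode c))
  rw [Denumerable.ofNat_encode] at hN
  refine ⟨{ρ | ∃ n, (encode c + N + 1 ≤ n ∧ ρ.length = LL (n + 1)) ∧
    ρ.drop (LL n) = (pre A (LL (n + 1))).drop (LL n)}, ?_, fun σ => ?_, ?_⟩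
  · refine SI.ex (SI.and (SI.of_prim (PrimrecPred.and (pp_le (by fun_prop) (by fun_prop))
      (pp_eq (by fun_prop) (by fun_prop)))) ?_)
    exact RI.si_take (E := fun (x : List Bool × ℕ) ζ => x.1.drop (LL x.2) = ζ.drop (LL x.2))
      (s1_eq (by fun_prop) (by fun_prop)) (n := fun x => LL (x.2 + 1)) (by fun_prop)
  · obtain ⟨n, h2, h3⟩ : ∃ n, encode c + N + 1 ≤ n ∧ σ.length ≤ LL n :=
      ⟨encode c + N + 1 + σ.length, by omega, le_trans (by omega) (le_LL _)⟩
    have h4 : LL n < LL (n + 1) := LL_strict (Nat.lt_succ_self n)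
    have h5 : (σ ++ List.replicate (LL n - σ.length) false).length = LL n := by
      rw [List.length_append, List.length_replicate]; omega
    refine ⟨(σ ++ List.replicate (LL n - σ.length) false) ++ (pre A (LL (n + 1))).drop (LL n),
      ⟨n, ⟨h2, ?_⟩, ?_⟩, (List.prefix_append _ _).trans (List.prefix_append _ _)⟩
    · rw [List.length_append, h5, List.length_drop, length_pre]; omega
    · rw [List.drop_left' h5]
  · rintro t ⟨n, ⟨h2, h3⟩, h4⟩
    rw [length_pre] at h3
    subst h3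
    obtain ⟨d, rfl⟩ : ∃ d, n = encode c + d + 1 := ⟨n - encode c - 1, by omega⟩
    refine hN d (by omega) ?_
    rw [← h4]
    obtain ⟨T, hT⟩ := W_complete hc (LL (encode c + d + 1 + 1))
    refine ⟨T, fun i hi => ?_⟩
    rw [List.length_drop, length_pre] at hi
    have e1 : ((pre G (LL (encode c + d + 1 + 1))).drop (LL (encode c + d + 1))).getD i false =
        G (LL (encode c + d + 1) + i) := by
      rw [List.getD_eq_getElem?_getD, List.getElem?_drop, ← List.getD_eq_getElem?_getD,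
        pre_getD _ _ _ _ (by omega)]
    rw [e1, length_pre]
    refine ⟨hT _ (by omega), ?_⟩
    by_contra h5
    have := W_sound hc le_rfl (Bool.eq_true_of_not_eq_false h5)
    simp at this

theorem final : ∃ A, (∀ B ∈ GG, ∃ Y, SetEquiv Y B ∧ ∀ X, TLe X A → 1 ≤ delta X Y) ∧
    ∀ᵐ B ∂lam, ∀ G, TLe G B → ∃ V : Set (List Bool),
      (∃ f : ℕ →. ℕ, TuringReducible f (fun n => Part.some (A n).toNat) ∧
        ∀ σ : List Bool, σ ∈ V ↔ (f (encode σ)).Dom) ∧ (∀ σ, ∃ τ ∈ V, σ <+: τ) ∧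
      ∀ n, List.ofFn (fun i : Fin n => G i) ∉ V := by
  obtain ⟨A, h1, h2⟩ := generic s1_P0 P0_up fun h => by
    obtain ⟨n, h1, -⟩ := P0_small h rfl
    have := le_LL (n + 1)
    simp only [List.length_nil] at h1
    omega
  refine ⟨A, fun B hB => ?_, ?_⟩
  · obtain ⟨Y, h3, h4⟩ := h2 B hB
    obtain ⟨Y', h5, h6⟩ := HD.exists_coding (X := Y) (Y := B) h3
    refine ⟨Y', h5, fun X hX => ?_⟩
    rw [delta_symm]
    have : delta Y' X = delta Y X := h6 X
    rw [this, delta_symm]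
    exact h4 X hX
  · filter_upwards [not_W h1] with B hB G hG
    obtain ⟨V, h3, h4, h5⟩ := hB G hG
    have h6 : SI A fun m : ℕ => ∃ ρ : List Bool, encode ρ = m ∧ ρ ∈ V :=
      SI.ex (SI.and (SI.of_prim (pp_eq (by fun_prop) (by fun_prop)))
        (h3.comp (f := fun z : ℕ × List Bool => z.2) (by fun_prop)))
    obtain ⟨f, h7, h8⟩ := (SI.iff_ceIn (W := {m | ∃ ρ : List Bool, encode ρ = m ∧ ρ ∈ V})).2 h6
    refine ⟨V, ⟨f, h7, fun σ => ?_⟩, h4, fun n => by rw [RI.ofFn_eq_pre]; exact h5 n⟩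
    rw [← h8]
    simp

theorem one_le_sup {A B Y : ℕ → Bool} (hY : SetEquiv Y B) (h : ∀ X, TLe X A → 1 ≤ delta X Y) :
    1 ≤ ⨆ D : {D : ℕ → Bool // SetEquiv D B}, ⨅ C : {C : ℕ → Bool // SetEquiv C A},
      delta C.1 D.1 := by
  have : Nonempty {C : ℕ → Bool // SetEquiv C A} := ⟨⟨A, TLe.refl A, TLe.refl A⟩⟩
  refine le_ciSup_of_le ⟨1, ?_⟩ ⟨Y, hY⟩ (le_ciInf fun C => h C.1 C.2.1)
  rintro r ⟨D, rfl⟩
  refine ciInf_le_of_le ⟨0, ?_⟩ ⟨A, TLe.refl A, TLe.refl A⟩ (delta_le_one _ _)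
  rintro s ⟨C, rfl⟩
  exact delta_nonneg _ _

end Pool.Agent.H100Z.FW
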