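import Pool.Agent.H100Z.CS
import Pool.Agent.H100Z.Defs

set_option autoImplicit false

namespace Pool.Agent.H100Z.HB

open Encodable Pool.Agent.Helper227 Pool.Agent.H100Z.PR Pool.Agent.H100Z.CS Filter Topology
open Pool.Agent.H100Z.Defs
open Nat.Partrec (Code)

theorem setLe_iff {A B : ℕ → Bool} : SetLe A B ↔ TLe A B := Iff.rfl

theorem funLe_iff {f : ℕ → ℕ} {B : ℕ → Bool} : FunLe f B ↔ SI B fun x : ℕ × ℕ => f x.1 = x.2 := by
  have h := SI.iff_recIn (B := B) (f := fun n : ℕ => (Part.some (f n) : Part ℕ))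
  refine Iff.trans h ⟨fun h => h.of_eq fun x => ?_, fun h => h.of_eq fun x => ?_⟩ <;>
    simp [eq_comm]

theorem delta_eq (A B : ℕ → Bool) : delta A B = limsup (rho A B) atTop := rfl

theorem delta_nonneg (A B : ℕ → Bool) : 0 ≤ delta A B := HD.dl_nonneg A B

theorem delta_le_one (A B : ℕ → Bool) : delta A B ≤ 1 := HD.dl_le_one A B

theorem delta_symm (A B : ℕ → Bool) : delta A B = delta B A := by
  rw [delta_eq, delta_eq, rho_symm]

theorem delta_self (A : ℕ → Bool) : delta A A = 0 := (sim_equiv.refl A).limsup_eq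

theorem delta_le_of {A B : ℕ → Bool} {θ : ℝ} (h : ∀ ε, 0 < ε → ∀ᶠ n in atTop, rho A B n ≤ θ + ε) :
    delta A B ≤ θ :=
  le_of_forall_pos_le_add fun ε hε => limsup_le_of_le (HD.cobdd A B) (h ε hε)

theorem delta_tri (A B C : ℕ → Bool) : delta A C ≤ delta A B + delta B C := by
  refine delta_le_of fun ε hε => ?_
  have h1 : ∀ᶠ n in atTop, rho A B n < delta A B + ε / 2 :=
    eventually_lt_of_limsup_lt (by rw [← delta_eq]; linarith) (HD.bdd A B)
  have h2 : ∀ᶠ n in atTop, rho B C n < delta B C + ε / 2 :=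
    eventually_lt_of_limsup_lt (by rw [← delta_eq]; linarith) (HD.bdd B C)
  filter_upwards [h1, h2] with n h1 h2
  linarith [rho_tri A B C n]

theorem mem_closure_of_le {X A : ℕ → Bool} (h : TLe X A) : X ∈ degClosure A := by
  intro ε hε
  obtain ⟨X', h1, h2⟩ := HD.exists_coding (X := X) (Y := A) h
  refine ⟨X', h1, ?_⟩
  rw [delta_symm]
  have : delta X' X = delta X X := h2 X
  rw [this, delta_self]
  exact hε

theorem bddBelow_delta (x : ℕ → Bool) (T : Set (ℕ → Bool)) :
    BddBelow {s : ℝ | ∃ y ∈ T, s = delta x y} :=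
  ⟨0, by rintro s ⟨y, _, rfl⟩; exact delta_nonneg _ _⟩

theorem H_symm (A B : ℕ → Bool) : H A B = H B A := by
  unfold H
  rw [max_comm]
  simp only [delta_symm]

/-- one half of the Hausdorff distance -/
noncomputable def H1 (A B : ℕ → Bool) : ℝ :=
  sSup {r : ℝ | ∃ x ∈ degClosure A, r = sInf {s : ℝ | ∃ y ∈ degClosure B, s = delta x y}}

theorem H_eq (A B : ℕ → Bool) : H A B = max (H1 A B) (H1 B A) := by
  unfold H H1
  simp only [delta_symm]

theorem H1_le {A B : ℕ → Bool} {θ : ℝ}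
    (h : ∀ X, TLe X A → ∀ ε, 0 < ε → ∃ Y, TLe Y B ∧ delta X Y ≤ θ + ε) : H1 A B ≤ θ := by
  refine csSup_le ⟨_, A, mem_closure_of_le (TLe.refl A), rfl⟩ ?_
  rintro r ⟨x, hx, rfl⟩
  refine le_of_forall_pos_le_add fun ε hε => ?_
  obtain ⟨X, h1, h2⟩ := hx (ε / 2) (by positivity)
  obtain ⟨Y, h3, h4⟩ := h X h1.1 (ε / 2) (by positivity)
  refine csInf_le_of_le (bddBelow_delta _ _) ⟨Y, mem_closure_of_le h3, rfl⟩ ?_
  linarith [delta_tri x X Y]

theorem H1_le_one (A B : ℕ → Bool) : H1 A B ≤ 1 :=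
  H1_le fun X _ ε hε => ⟨B, TLe.refl B, by linarith [delta_le_one X B]⟩

theorem le_H1 {A B X : ℕ → Bool} {θ : ℝ} (hX : TLe X A) (h : ∀ Y, TLe Y B → θ ≤ delta X Y) :
    θ ≤ H1 A B := by
  refine le_csSup_of_le ⟨1, ?_⟩ ⟨X, mem_closure_of_le hX, rfl⟩ ?_
  · rintro r ⟨x, _, rfl⟩
    exact csInf_le_of_le (bddBelow_delta _ _) ⟨B, mem_closure_of_le (TLe.refl B), rfl⟩
      (delta_le_one _ _)
  · refine le_csInf ⟨_, B, mem_closure_of_le (TLe.refl B), rfl⟩ ?_
    rintro s ⟨y, hy, rfl⟩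
    refine le_of_forall_pos_le_add fun ε hε => ?_
    obtain ⟨Y, h1, h2⟩ := hy ε hε
    linarith [delta_tri X y Y, h Y h1.1]

theorem H_eq_one {A B Y : ℕ → Bool} (hY : TLe Y B) (h : ∀ X, TLe X A → 1 ≤ delta X Y) :
    H A B = 1 := by
  rw [H_eq]
  refine le_antisymm (max_le (H1_le_one _ _) (H1_le_one _ _)) (le_max_of_le_right ?_)
  exact le_H1 hY fun X hX => by rw [delta_symm]; exact h X hX

/-- index of the long block containing `i` -/
def blk (i : ℕ) : ℕ := Nat.sqrt (Nat.log 2 (i + 1))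

theorem blk_eq_iff {i k : ℕ} : blk i = k ↔ 2 ^ (k * k) ≤ i + 1 ∧ i + 1 < 2 ^ ((k + 1) * (k + 1)) := by
  unfold blk
  rw [eq_comm, Nat.eq_sqrt, Nat.le_log_iff_pow_le (by norm_num) (by omega),
    Nat.log_lt_iff_lt_pow (by norm_num) (by omega)]

theorem cnt_ge {X Y : ℕ → Bool} {a : ℕ} (N : ℕ) (h : ∀ i, a ≤ i → i < N → X i ≠ Y i) :
    N ≤ a + cnt X Y 0 N := by
  induction N with
  | zero => simp
  | succ N ih =>
    have h1 := ih fun i h1 h2 => h i h1 (by omega)
    rw [cnt_succ]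
    by_cases h2 : a ≤ N
    · rw [if_pos ⟨Nat.zero_le _, h N h2 (by omega)⟩]; omega
    · omega

theorem far {X Y : ℕ → Bool} (h : ∀ K, ∃ k, K ≤ k ∧ ∀ i, blk i = k → X i ≠ Y i) :
    1 ≤ delta X Y := by
  refine le_of_forall_pos_le_add fun ε hε => ?_
  rw [← sub_le_iff_le_add]
  refine le_limsup_of_frequently_le ?_ (HD.bdd X Y)
  rw [frequently_atTop]
  intro K
  obtain ⟨q, hq⟩ := exists_nat_gt (1 / ε)
  obtain ⟨k, hk, h1⟩ := h (max K q)
  have hk1 : K ≤ k := le_trans (le_max_left _ _) hk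
  have hk2 : q ≤ k := le_trans (le_max_right _ _) hk
  obtain ⟨a, ha⟩ : ∃ a, 2 ^ (k * k) = a + 1 := ⟨2 ^ (k * k) - 1, by
    have : 0 < 2 ^ (k * k) := by positivity
    omega⟩
  have e : 2 ^ ((k + 1) * (k + 1)) = 2 ^ (k * k) * 2 ^ (2 * k + 1) := by
    rw [← pow_add]; congr 1; ring
  have h2 : 2 * k + 1 < 2 ^ (2 * k + 1) := Nat.lt_two_pow_self
  obtain ⟨N, hN⟩ : ∃ N, 2 ^ ((k + 1) * (k + 1)) = N + 1 := ⟨2 ^ ((k + 1) * (k + 1)) - 1, by
    have : 0 < 2 ^ ((k + 1) * (k + 1)) := by positivity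
    omega⟩
  have h3 : (a + 1) * (2 * k + 2) ≤ N + 1 := by
    rw [← hN, e, ha]
    exact Nat.mul_le_mul_left _ h2
  have h4 : N ≤ a + cnt X Y 0 N := cnt_ge N fun i h5 h6 => h1 i (blk_eq_iff.2 ⟨by omega, by omega⟩)
  have h5 : a * q + 1 ≤ N := by nlinarith
  refine ⟨N, by nlinarith, ?_⟩
  change 1 - ε ≤ rho X Y N
  have hN0 : (0 : ℝ) < N := by exact_mod_cast (by omega : 0 < N)
  rw [rho_eq, le_div_iff₀ hN0]
  have h6 : (N : ℝ) ≤ a + cnt X Y 0 N := by exact_mod_cast h4
  have h7 : (a : ℝ) * q + 1 ≤ N := by exact_mod_cast h5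
  rw [div_lt_iff₀ hε] at hq
  have h8 : (0 : ℝ) ≤ a := Nat.cast_nonneg a
  nlinarith

/-- relativized uniformization -/
theorem si_choice {B : ℕ → Bool} {R : ℕ → ℕ → Prop} (hR : SI B fun x : ℕ × ℕ => R x.1 x.2)
    (h : ∀ a, ∃ b, R a b) : ∃ f : ℕ → ℕ, FunLe f B ∧ ∀ a, R a (f a) := by
  classical
  obtain ⟨E, ⟨q, hq, hm, he⟩, mE, eE⟩ := hR
  have hex : ∀ a, ∃ w : ℕ, q (pre B w.unpair.1, a, w.unpair.2.unpair.1) w.unpair.2.unpair.2 := by
    intro a
    obtain ⟨b, hb⟩ := h a
    obtain ⟨s, hs⟩ := (eE (a, b)).1 hb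
    obtain ⟨n, hn⟩ := (he _).1 hs
    exact ⟨Nat.pair s (Nat.pair b n), by simpa using hn⟩
  refine ⟨fun a => (Nat.find (hex a)).unpair.2.unpair.1, ?_, fun a =>
    (eE (a, _)).2 ⟨_, (he _).2 ⟨_, Nat.find_spec (hex a)⟩⟩⟩
  rw [funLe_iff]
  have hq' : PrimrecPred fun z : (List Bool × ℕ) × ℕ =>
      q (z.1.1.take z.2.unpair.1, z.1.2, z.2.unpair.2.unpair.1) z.2.unpair.2.unpair.2 :=
    hq.comp (f := fun z : (List Bool × ℕ) × ℕ =>
      (z.1.1.take z.2.unpair.1, z.1.2, z.2.unpair.2.unpair.1))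
      (g := fun z : (List Bool × ℕ) × ℕ => z.2.unpair.2.unpair.2) (by fun_prop) (by fun_prop)
  have hS : S1 fun y : List Bool × ℕ × ℕ => (y.1.length.unpair.2.unpair.1 = y.2.2 ∧
      q (y.1.take y.1.length.unpair.1, y.2.1, y.1.length.unpair.2.unpair.1)
        y.1.length.unpair.2.unpair.2) ∧
      ∀ w < y.1.length, ¬ q (y.1.take w.unpair.1, y.2.1, w.unpair.2.unpair.1) w.unpair.2.unpair.2 := by
    refine S1.and (S1.and (s1_eq (by fun_prop) (by fun_prop)) (S1.of_prim ?_)) (S1.of_prim ?_)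
    · exact hq'.comp (f := fun y : List Bool × ℕ × ℕ => ((y.1, y.2.1), y.1.length)) (by fun_prop)
    · refine PP.all_lt (α := List Bool × ℕ × ℕ) (f := fun y => y.1.length)
        (p := fun y w => ¬ q (y.1.take w.unpair.1, y.2.1, w.unpair.2.unpair.1) w.unpair.2.unpair.2)
        ?_ (by fun_prop)
      exact PrimrecPred.not (hq'.comp
        (f := fun z : (List Bool × ℕ × ℕ) × ℕ => ((z.1.1, z.1.2.1), z.2)) (by fun_prop))
  refine (si_of_pre (B := B) hS).of_eq ?_
  rintro ⟨a, b⟩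
  simp only [length_pre]
  constructor
  · rintro ⟨s, ⟨h1, h2⟩, h3⟩
    have : Nat.find (hex a) = s := by
      rw [Nat.find_eq_iff]
      rw [take_pre _ _ _ (Nat.unpair_left_le s)] at h2
      refine ⟨h2, fun w hw => ?_⟩
      have := h3 w hw
      rwa [take_pre _ _ _ ((Nat.unpair_left_le w).trans hw.le)] at this
    rw [this, h1]
  · intro h1
    refine ⟨Nat.find (hex a), ⟨h1, ?_⟩, fun w hw => ?_⟩
    · rw [take_pre _ _ _ (Nat.unpair_left_le _)]
      exact Nat.find_spec (hex a)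
    · rw [take_pre _ _ _ ((Nat.unpair_left_le w).trans hw.le)]
      exact Nat.find_min (hex a) hw

/-- convergence within `u` steps and use at most `u` -/
def W (c : Code) (α : List Bool) (i : ℕ) (b : Bool) (u : ℕ) : Bool :=
  (List.range (u + 1)).any fun t => (c.evaln u (encode (α.take t, i, b))).isSome

/-- the value at `i` of the functional `c` with the finite oracle `α` -/
def val (c : Code) (α : List Bool) (i : ℕ) : Bool :=
  (List.range (α.length + 1)).any fun u => W c α i true u && !W c α i false u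

section
variable {α : Type*} [Primcodable α]

@[fun_prop] theorem pW {c : α → Code} {f : α → List Bool} {i u : α → ℕ} {b : α → Bool}
    (hc : Primrec c) (hf : Primrec f) (hi : Primrec i) (hb : Primrec b) (hu : Primrec u) :
    Primrec fun x => W (c x) (f x) (i x) (b x) (u x) := by
  unfold W
  refine pany (f := fun x => List.range (u x + 1))
    (g := fun x t => ((c x).evaln (u x) (encode ((f x).take t, i x, b x))).isSome) (by fun_prop) ?_
  refine pisSome (pevaln ?_ ?_ ?_) <;> fun_prop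

@[fun_prop] theorem pval {c : α → Code} {f : α → List Bool} {i : α → ℕ}
    (hc : Primrec c) (hf : Primrec f) (hi : Primrec i) :
    Primrec fun x => val (c x) (f x) (i x) := by
  unfold val
  refine pany (f := fun x => List.range ((f x).length + 1))
    (g := fun x u => W (c x) (f x) (i x) true u && !W (c x) (f x) (i x) false u) (by fun_prop) ?_
  refine pand (pW ?_ ?_ ?_ ?_ ?_) (pnot (pW ?_ ?_ ?_ ?_ ?_)) <;> fun_prop

end

theorem W_iff {c : Code} {α : List Bool} {i : ℕ} {b : Bool} {u : ℕ} :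
    W c α i b u = true ↔ ∃ t, t ≤ u ∧ (c.evaln u (encode (α.take t, i, b))).isSome = true := by
  simp [W, Nat.lt_succ_iff]

theorem isSome_mono {c : Code} {u u' x : ℕ} (h : u ≤ u') (h2 : (c.evaln u x).isSome = true) :
    (c.evaln u' x).isSome = true := by
  rw [Option.isSome_iff_exists] at h2 ⊢
  obtain ⟨y, hy⟩ := h2
  exact ⟨y, Nat.Partrec.Code.evaln_mono h hy⟩

theorem W_mono {c : Code} {α : List Bool} {i : ℕ} {b : Bool} {u u' : ℕ} (h : u ≤ u')
    (h2 : W c α i b u = true) : W c α i b u' = true := by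
  rw [W_iff] at h2 ⊢
  obtain ⟨t, ht, h3⟩ := h2
  exact ⟨t, ht.trans h, isSome_mono h h3⟩

theorem W_congr {c : Code} {α β : List Bool} {i : ℕ} {b : Bool} {u T : ℕ} (hu : u ≤ T)
    (h : α.take T = β.take T) : W c α i b u = W c β i b u := by
  have key : ∀ t, t ≤ u → α.take t = β.take t := by
    intro t ht
    have := congrArg (List.take t) h
    rwa [List.take_take, List.take_take, min_eq_left (ht.trans hu)] at this
  rw [Bool.eq_iff_iff, W_iff, W_iff]
  exact exists_congr fun t => and_congr_right fun ht => by rw [key t ht]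

theorem W_sound {c : Code} {X A : ℕ → Bool} (h : cpt c X A) {i : ℕ} {b : Bool} {u T : ℕ}
    (hu : u ≤ T) (h2 : W c (pre A T) i b u = true) : X i = b := by
  rw [W_iff] at h2
  obtain ⟨t, ht, h3⟩ := h2
  rw [take_pre _ _ _ (ht.trans hu)] at h3
  exact (h i b).2 ⟨t, u, h3⟩

theorem W_complete {c : Code} {X A : ℕ → Bool} (h : cpt c X A) (L : ℕ) :
    ∃ T, ∀ i < L, W c (pre A T) i (X i) T = true := by
  induction L with
  | zero => exact ⟨0, by simp⟩
  | succ L ih =>
    obtain ⟨T, hT⟩ := ih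
    obtain ⟨s, r, h1⟩ := (h L (X L)).1 rfl
    refine ⟨max T (max s r), fun i hi => ?_⟩
    rcases Nat.lt_succ_iff_lt_or_eq.1 hi with h2 | rfl
    · refine W_mono (le_max_left _ _) ?_
      rw [W_congr (β := pre A T) (T := T) le_rfl
        (by rw [take_pre _ _ _ (le_max_left _ _), take_pre _ _ _ le_rfl])]
      exact hT i h2
    · rw [W_iff]
      refine ⟨s, by omega, ?_⟩
      rw [take_pre _ _ _ (by omega)]
      exact isSome_mono (by omega) h1

theorem val_eq' {c : Code} {α β : List Bool} {i T : ℕ} {b : Bool} (hT : T ≤ α.length)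
    (hα : α.take T = β.take T) (h1 : W c β i b T = true) (h2 : W c β i (!b) T = false) :
    val c α i = b := by
  have e : ∀ b' u, u ≤ T → W c α i b' u = W c β i b' u := fun b' u hu => W_congr hu hα
  cases b with
  | true =>
    simp only [val, List.any_eq_true, List.mem_range]
    refine ⟨T, by omega, ?_⟩
    rw [e _ _ le_rfl, e _ _ le_rfl, h1]
    simpa using h2
  | false =>
    simp only [val, List.any_eq_false, List.mem_range]
    intro u _
    rcases le_total u T with hu | hu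
    · have : W c α i true u = false := by
        rw [e _ _ hu]
        by_contra h3
        have h4 := W_mono hu (Bool.eq_true_of_not_eq_false h3)
        simp [h4] at h2
      simp [this]
    · have : W c α i false u = true := W_mono hu (by rw [e _ _ le_rfl]; exact h1)
      simp [this]

theorem val_eq {c : Code} {X A : ℕ → Bool} (h : cpt c X A) {α : List Bool} {i T : ℕ} {b : Bool}
    (hT : T ≤ α.length) (hα : α.take T = pre A T) (h1 : W c (pre A T) i b T = true) :
    val c α i = X i := by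
  have h2 := W_sound h le_rfl h1
  rw [h2]
  refine val_eq' (β := pre A T) hT (by rw [hα, take_pre _ _ _ le_rfl]) h1 ?_
  by_contra h3
  have h4 := W_sound h le_rfl (Bool.eq_true_of_not_eq_false h3)
  rw [h2] at h4
  simp at h4

theorem countable_funLe (A : ℕ → Bool) : {g : ℕ → ℕ | FunLe g A}.Countable := by
  have := HD.OC.countable
  have : Nonempty HD.OC := ⟨.zero⟩
  have h : ∀ g ∈ {g : ℕ → ℕ | FunLe g A}, ∃ c : HD.OC,
      c.eval (fun n => Part.some (A n).toNat) = fun n => Part.some (g n) := by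
    intro g hg
    exact HD.exists_code (RecursiveIn.iff_nat.1 hg)
  choose! F hF using h
  refine Set.MapsTo.countable_of_injOn (f := F) (t := Set.univ) (fun _ _ => Set.mem_univ _) ?_
    Set.countable_univ
  intro f hf g hg hfg
  have h1 := hF f hf
  have h2 := hF g hg
  rw [hfg, h2] at h1
  funext n
  exact (Part.some_injective (congrFun h1 n)).symm

end Pool.Agent.H100Z.HB
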