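import Pool.Agent.H100Z.HD

set_option autoImplicit false
open MeasureTheory Filter Topology
open scoped ENNReal

namespace Pool.Agent.H100Z.HD

/-- fair coin -/
noncomputable def coin : Measure Bool := (PMF.uniformOfFintype Bool).toMeasure

instance coin_prob : IsProbabilityMeasure coin := by unfold coin; infer_instance

theorem coin_single (b : Bool) : coin {b} = 1 / 2 := by
  unfold coin
  rw [PMF.toMeasure_apply_singleton _ _ (measurableSet_singleton b)]
  simp [PMF.uniformOfFintype_apply]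

/-- uniform measure on Cantor space -/
noncomputable def lam : Measure (ℕ → Bool) := Measure.infinitePi (fun _ : ℕ => coin)

instance lam_prob : IsProbabilityMeasure lam := by unfold lam; infer_instance

/-- cylinder -/
def cyl (L : ℕ) (τ : ℕ → Bool) : Set (ℕ → Bool) := {X | ∀ i < L, X i = τ i}

theorem lam_cyl (L : ℕ) (τ : ℕ → Bool) : lam (cyl L τ) = (1 / 2) ^ L := by
  have : cyl L τ = Set.pi (Finset.range L : Set ℕ) (fun i => {τ i}) := by
    ext X; simp [cyl, Set.mem_pi]
  rw [this, lam, Measure.infinitePi_pi _ (fun i _ => measurableSet_singleton _)]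
  simp [coin_single]

theorem half_tendsto : Tendsto (fun n : ℕ => ((1 : ℝ≥0∞) / 2) ^ n) atTop (𝓝 0) :=
  ENNReal.tendsto_pow_atTop_nhds_zero_of_lt_one (by norm_num)

theorem lam_single (X : ℕ → Bool) : lam {X} = 0 := by
  refine le_antisymm (ge_of_tendsto' half_tendsto fun n => ?_) (zero_le)
  rw [← lam_cyl n X]
  apply measure_mono
  rintro Y rfl
  intro i _
  rfl

/-- the join -/
def join (X Y : ℕ → Bool) : ℕ → Bool := fun n => if n % 2 = 0 then X (n / 2) else Y (n / 2)

theorem measurable_join : Measurable (fun p : (ℕ → Bool) × (ℕ → Bool) => join p.1 p.2) := by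
  refine measurable_pi_lambda _ fun n => ?_
  unfold join
  split_ifs
  · exact (measurable_pi_apply _).comp measurable_fst
  · exact (measurable_pi_apply _).comp measurable_snd

theorem map_join : (lam.prod lam).map (fun p : (ℕ → Bool) × (ℕ → Bool) => join p.1 p.2) = lam := by
  classical
  unfold lam
  apply Measure.eq_infinitePi
  intro s t ht
  rw [Measure.map_apply measurable_join (MeasurableSet.pi s.countable_toSet fun i _ => ht i)]
  obtain ⟨E, hE⟩ : ∃ E : Finset ℕ, ∀ k, k ∈ E ↔ 2 * k ∈ s :=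
    ⟨s.preimage (fun k => 2 * k) (by intro a _ b _ h; simpa using h),
      fun k => Finset.mem_preimage⟩
  obtain ⟨O, hO⟩ : ∃ O : Finset ℕ, ∀ k, k ∈ O ↔ 2 * k + 1 ∈ s :=
    ⟨s.preimage (fun k => 2 * k + 1) (by intro a _ b _ h; simpa using h),
      fun k => Finset.mem_preimage⟩
  have h1 : (fun p : (ℕ → Bool) × (ℕ → Bool) => join p.1 p.2) ⁻¹' (Set.pi (s : Set ℕ) t) =
      (Set.pi (E : Set ℕ) (fun k => t (2 * k))) ×ˢ (Set.pi (O : Set ℕ) (fun k => t (2 * k + 1))) := by
    ext p
    simp only [Set.mem_preimage, Set.mem_pi, Finset.mem_coe, Set.mem_prod, hE, hO]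
    constructor
    · intro h
      constructor
      · intro k hk
        have := h _ hk
        simpa [join] using this
      · intro k hk
        have := h _ hk
        have e1 : (2 * k + 1) % 2 ≠ 0 := by omega
        have e2 : (2 * k + 1) / 2 = k := by omega
        simpa only [join, if_neg e1, e2] using this
    · rintro ⟨h1, h2⟩ i hi
      unfold join
      split_ifs with h
      · have e : 2 * (i / 2) = i := by omega
        have := h1 (i / 2) (by rwa [e])
        rwa [e] at this
      · have e : 2 * (i / 2) + 1 = i := by omega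
        have := h2 (i / 2) (by rwa [e])
        rwa [e] at this
  rw [h1, Measure.prod_prod, Measure.infinitePi_pi _ (fun i _ => ht _),
    Measure.infinitePi_pi _ (fun i _ => ht _)]
  rw [← Finset.prod_filter_mul_prod_filter_not s (fun i => i % 2 = 0)]
  congr 1
  · apply Finset.prod_bij (fun k _ => 2 * k)
    · intro k hk
      rw [hE] at hk
      simp [hk]
    · intro a _ b _ h; omega
    · intro i hi
      simp only [Finset.mem_filter] at hi
      have e : 2 * (i / 2) = i := by omega
      exact ⟨i / 2, by rw [hE, e]; exact hi.1, e⟩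
    · intro _ _; rfl
  · apply Finset.prod_bij (fun k _ => 2 * k + 1)
    · intro k hk
      rw [hO] at hk
      simp only [Finset.mem_filter]
      exact ⟨hk, by omega⟩
    · intro a _ b _ h; omega
    · intro i hi
      simp only [Finset.mem_filter] at hi
      have e : 2 * (i / 2) + 1 = i := by omega
      exact ⟨i / 2, by rw [hO, e]; exact hi.1, e⟩
    · intro _ _; rfl

theorem ae_join {P : (ℕ → Bool) → Prop} (h : ∀ᵐ X ∂lam, P X) :
    ∀ᵐ X ∂lam, ∀ᵐ Y ∂lam, P (join X Y) := by
  rw [← map_join] at h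
  exact Measure.ae_ae_of_ae_prod (ae_of_ae_map measurable_join.aemeasurable h)

theorem TLe_join_left (X Y : ℕ → Bool) : TLe X (join X Y) := by
  have h1 := (TLe.refl (join X Y)).comp (g := fun k => 2 * k)
    (Primrec.nat_mul.comp (Primrec.const 2) Primrec.id).to_comp
  convert h1 using 1
  funext k
  simp [join]

theorem TLe_join_right (X Y : ℕ → Bool) : TLe Y (join X Y) := by
  have h1 := (TLe.refl (join X Y)).comp (g := fun k => 2 * k + 1)
    (Primrec.succ.comp (Primrec.nat_mul.comp (Primrec.const 2) Primrec.id)).to_comp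
  convert h1 using 1
  funext k
  have e1 : (2 * k + 1) % 2 ≠ 0 := by omega
  have e2 : (2 * k + 1) / 2 = k := by omega
  simp only [join, if_neg e1, e2]

theorem ae_not_below (X : ℕ → Bool) : ∀ᵐ Y ∂lam, ¬ TLe Y X := by
  rw [ae_iff]
  simp only [not_not]
  have h := countable_below X
  rw [← Set.biUnion_of_singleton {A | TLe A X}]
  exact (measure_biUnion_null_iff h).2 fun Y _ => lam_single Y

open Classical in
/-- the test condition -/
def IsTest (f : ℕ → ℕ → Option (List Bool)) : Prop := ∀ n M L : ℕ,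
  ((Finset.univ : Finset (Fin L → Bool)).filter (fun τ =>
    ∃ j < M, ∃ σ : List Bool, f n j = some σ ∧ σ.length ≤ L ∧
      ∀ i : Fin L, (i : ℕ) < σ.length → σ.getD i false = τ i)).card * 2 ^ n ≤ 2 ^ L

/-- the `n`-th level of the test -/
def Lev (f : ℕ → ℕ → Option (List Bool)) (n : ℕ) : Set (ℕ → Bool) :=
  {X | ∃ j : ℕ, ∃ σ : List Bool, f n j = some σ ∧ σ = (List.range σ.length).map X}

theorem lam_Lev {f : ℕ → ℕ → Option (List Bool)} (hf : IsTest f) (n : ℕ) :
    lam (Lev f n) ≤ (1 / 2) ^ n := by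
  classical
  let U : ℕ → Set (ℕ → Bool) := fun M =>
    {X | ∃ j < M, ∃ σ : List Bool, f n j = some σ ∧ σ.length ≤ M ∧ σ = (List.range σ.length).map X}
  have hU : Monotone U := by
    intro M M' h X hX
    obtain ⟨j, hj, σ, h1, h2, h3⟩ := hX
    exact ⟨j, by omega, σ, h1, by omega, h3⟩
  have h1 : Lev f n = ⋃ M, U M := by
    ext X
    simp only [Set.mem_iUnion]
    constructor
    · rintro ⟨j, σ, h1, h2⟩
      exact ⟨max (j + 1) σ.length, j, by omega, σ, h1, by omega, h2⟩
    · rintro ⟨M, j, _, σ, h1, _, h2⟩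
      exact ⟨j, σ, h1, h2⟩
  rw [h1, hU.measure_iUnion]
  refine iSup_le fun M => ?_
  set F := (Finset.univ : Finset (Fin M → Bool)).filter (fun τ =>
    ∃ j < M, ∃ σ : List Bool, f n j = some σ ∧ σ.length ≤ M ∧
      ∀ i : Fin M, (i : ℕ) < σ.length → σ.getD i false = τ i) with hF
  have hc : F.card * 2 ^ n ≤ 2 ^ M := by
    have := hf n M M
    convert this
  have h2 : U M ⊆ ⋃ τ ∈ F, cyl M (fun i => if h : i < M then τ ⟨i, h⟩ else false) := by
    rintro X ⟨j, hj, σ, h1, h2, h3⟩
    simp only [Set.mem_iUnion]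
    refine ⟨fun i => X i, ?_, ?_⟩
    · rw [hF, Finset.mem_filter]
      refine ⟨Finset.mem_univ _, j, hj, σ, h1, h2, fun i hi => ?_⟩
      rw [h3]
      simp [List.getD_eq_getElem?_getD, hi]
    · intro i hi
      simp [hi]
  refine (measure_mono h2).trans ((measure_biUnion_finset_le _ _).trans ?_)
  simp only [lam_cyl, Finset.sum_const, nsmul_eq_mul]
  have h3 : (F.card : ℝ≥0∞) * 2 ^ n ≤ 2 ^ M := by exact_mod_cast hc
  have e1 : ∀ k : ℕ, ((1 : ℝ≥0∞) / 2) ^ k * 2 ^ k = 1 := by
    intro k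
    rw [← mul_pow, one_div, ENNReal.inv_mul_cancel (by norm_num) (by norm_num), one_pow]
  calc (F.card : ℝ≥0∞) * (1 / 2) ^ M
      = (F.card * 2 ^ n) * (1 / 2) ^ M * (1 / 2) ^ n := by
        rw [show (F.card * 2 ^ n : ℝ≥0∞) * (1 / 2) ^ M * (1 / 2) ^ n =
          F.card * (1 / 2) ^ M * ((1 / 2) ^ n * 2 ^ n) by ring, e1, mul_one]
    _ ≤ 2 ^ M * (1 / 2) ^ M * (1 / 2) ^ n := by gcongr
    _ = (1 / 2) ^ n := by rw [mul_comm (2 ^ M : ℝ≥0∞), e1, one_mul]

/-- Martin-Löf randomness -/
def Rnd (X : ℕ → Bool) : Prop :=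
  ¬ ∃ f : ℕ → ℕ → Option (List Bool), Computable₂ f ∧ IsTest f ∧ ∀ n : ℕ, X ∈ Lev f n

theorem countable_computable₂ :
    {f : ℕ → ℕ → Option (List Bool) | Computable₂ f}.Countable := by
  have h : ∀ f ∈ {f : ℕ → ℕ → Option (List Bool) | Computable₂ f}, ∃ c : Nat.Partrec.Code,
      c.eval = fun n => Part.bind (Part.ofOption (Encodable.decode (α := ℕ × ℕ) n))
        fun a : ℕ × ℕ => (Part.some (f a.1 a.2)).map Encodable.encode := by
    intro f hf
    exact Nat.Partrec.Code.exists_code.1 hf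
  have : Nonempty Nat.Partrec.Code := ⟨.zero⟩
  choose! F hF using h
  refine Set.MapsTo.countable_of_injOn (f := F) (t := Set.univ) (fun _ _ => Set.mem_univ _) ?_
    Set.countable_univ
  intro f hf g hg hfg
  have h1 := hF f hf
  have h2 := hF g hg
  rw [hfg, h2] at h1
  funext a b
  have := congrFun h1 (Encodable.encode (a, b))
  simp only [Encodable.encodek, Part.coe_some, Part.bind_some, Part.map_some] at this
  exact (Encodable.encode_injective (Part.some_injective this)).symm

theorem ae_Rnd : ∀ᵐ X ∂lam, Rnd X := by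
  have h : ∀ᵐ X ∂lam, ∀ f ∈ {f : ℕ → ℕ → Option (List Bool) | Computable₂ f},
      ¬ (IsTest f ∧ ∀ n : ℕ, X ∈ Lev f n) := by
    rw [ae_ball_iff countable_computable₂]
    intro f _
    by_cases hf : IsTest f
    · rw [ae_iff]
      simp only [not_not]
      refine le_antisymm (ge_of_tendsto' half_tendsto fun n => ?_) (zero_le)
      exact (measure_mono fun X hX => hX.2 n).trans (lam_Lev hf n)
    · exact Eventually.of_forall fun X h => hf h.1
  filter_upwards [h] with X hX
  rintro ⟨f, h1, h2⟩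
  exact hX f h1 h2

theorem exists_chain : ∃ A B C : ℕ → Bool, Rnd A ∧ Rnd B ∧ Rnd C ∧ TLe A B ∧ TLe B C ∧
    ¬ TLe B A ∧ ¬ TLe C B := by
  have h1 : ∀ᵐ B ∂lam, Rnd B ∧ ∀ᵐ Z ∂lam, Rnd (join B Z) := ae_Rnd.and (ae_join ae_Rnd)
  obtain ⟨A, hA, h2⟩ := (ae_Rnd.and (ae_join h1)).exists
  obtain ⟨Y, ⟨hB, h3⟩, hY⟩ := (h2.and (ae_not_below A)).exists
  obtain ⟨Z, hC, hZ⟩ := (h3.and (ae_not_below (join A Y))).exists
  exact ⟨A, join A Y, join (join A Y) Z, hA, hB, hC, TLe_join_left _ _, TLe_join_left _ _,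
    fun h => hY ((TLe_join_right _ _).trans h), fun h => hZ ((TLe_join_right _ _).trans h)⟩

end Pool.Agent.H100Z.HD
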