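import Pool.Agent.H100Z.CE1
import Pool.Agent.Helper227.Cov1

set_option autoImplicit false

namespace Pool.Agent.H100Z.HB

open Encodable Pool.Agent.Helper227 Pool.Agent.H100Z.PR Pool.Agent.H100Z.CS Filter Topology
open Pool.Agent.H100Z.Defs MeasureTheory
open Nat.Partrec (Code)
open scoped ENNReal

theorem s1_of_si_zero {α : Type*} [Primcodable α] {p : α → Prop} (h : SI (fun _ => false) p) :
    S1 p := by
  obtain ⟨E, hE, _, eE⟩ := h
  have : S1 fun a => ∃ s, E (pre (fun _ => false) s, a) := by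
    refine S1.ex (hE.comp (f := fun z : α × ℕ => (pre (fun _ => false) z.2, z.1)) (ppair ?_ (by fun_prop)))
    unfold pre
    exact pmap (f := fun z : α × ℕ => List.range z.2) (g := fun _ _ => false) (by fun_prop)
      (by fun_prop)
  exact this.of_eq fun a => (eE a).symm

/-- normal form of the complement of the double jump -/
theorem pi2_form : ∃ q : ℕ → ℕ → ℕ → Prop, (PrimrecPred fun z : (ℕ × ℕ) × ℕ => q z.1.1 z.1.2 z.2) ∧
    (∀ x j m n, m ≤ n → q x j m → q x j n) ∧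
    ∀ x, jump (jump fun _ => false) x = false ↔ ∀ j, ∃ n, q x j n := by
  obtain ⟨q0, hq0, m0, e0⟩ := s1_of_si_zero (si_jump fun _ => false)
  obtain ⟨E, ⟨qE, hqE, mqE, eqE⟩, mE, eE⟩ := si_jump (jump fun _ => false)
  have hD : S1 fun y : ℕ × (List Bool × ℕ × ℕ) => ¬ qE (y.2.1, y.1) y.2.2.1 ∨
      (∃ i, i < y.2.1.length ∧ y.2.1.getD i false = false ∧ ∃ n, q0 i n) ∨
      (∃ i, i < y.2.1.length ∧ y.2.1.getD i false = true ∧ ¬ q0 i y.2.2.2) := by
    refine S1.or (S1.of_prim (PrimrecPred.not (hqE.comp (by fun_prop) (by fun_prop))))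
      (S1.or (S1.ex (S1.and (s1_lt (by fun_prop) (by fun_prop)) (S1.and
        (s1_eq (by fun_prop) (by fun_prop)) (S1.ex (S1.of_prim
          (hq0.comp (by fun_prop) (by fun_prop)))))))
        (S1.ex (S1.and (s1_lt (by fun_prop) (by fun_prop)) (S1.and
        (s1_eq (by fun_prop) (by fun_prop)) (S1.of_prim
          (PrimrecPred.not (hq0.comp (by fun_prop) (by fun_prop))))))))
  have hD2 := hD.comp (f := fun z : ℕ × ℕ =>
    (z.1, (decode (α := List Bool × ℕ × ℕ) z.2).getD ([], 0, 0))) (by fun_prop)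
  obtain ⟨q, hq, mq, eq⟩ := hD2
  refine ⟨fun x j n => q (x, j) n, hq, fun x j m n h => mq _ _ _ h, fun x => ?_⟩
  simp only [← eq]
  constructor
  · intro h j
    generalize (decode (α := List Bool × ℕ × ℕ) j).getD ([], 0, 0) = y
    obtain ⟨σ, n, t⟩ := y
    by_contra hc
    push Not at hc
    obtain ⟨h1, h2, h3⟩ := hc
    have h4 : pre (jump fun _ => false) σ.length = σ := by
      refine List.ext_getElem (by simp) fun i h5 h6 => ?_
      rw [getElem_pre]
      have h7 : σ.getD i false = σ[i] := by simp [h6]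
      cases h8 : σ[i] with
      | false =>
        by_contra h9
        obtain ⟨n', hn'⟩ := (e0 i).1 (by simpa using h9)
        exact h2 i h6 (h7.trans h8) n' hn'
      | true => exact (e0 i).2 ⟨t, h3 i h6 (h7.trans h8)⟩
    have := (eE x).2 ⟨σ.length, by rw [h4]; exact (eqE _).2 ⟨n, h1⟩⟩
    simp [h] at this
  · intro h
    by_contra hc
    obtain ⟨s, hs⟩ := (eE x).1 (by simpa using hc)
    obtain ⟨n, hn⟩ := (eqE _).1 hs
    have ht : ∀ s, ∃ t, ∀ i < s, jump (fun _ => false) i = true → q0 i t := by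
      intro s
      induction s with
      | zero => exact ⟨0, by simp⟩
      | succ s ih =>
        obtain ⟨t, ht⟩ := ih
        by_cases h1 : jump (fun _ => false) s = true
        · obtain ⟨t', ht'⟩ := (e0 s).1 h1
          refine ⟨max t t', fun i hi h2 => ?_⟩
          rcases Nat.lt_succ_iff_lt_or_eq.1 hi with h3 | rfl
          · exact m0 _ _ _ (le_max_left _ _) (ht i h3 h2)
          · exact m0 _ _ _ (le_max_right _ _) ht'
        · refine ⟨t, fun i hi h2 => ?_⟩
          rcases Nat.lt_succ_iff_lt_or_eq.1 hi with h3 | rfl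
          · exact ht i h3 h2
          · exact absurd h2 h1
    obtain ⟨t, ht⟩ := ht s
    have h1 := h (encode ((pre (jump fun _ => false) s, n, t) : List Bool × ℕ × ℕ))
    simp only [encodek, Option.getD_some, length_pre] at h1
    rcases h1 with h1 | ⟨i, hi, h2, n', h3⟩ | ⟨i, hi, h2, h3⟩
    · exact h1 hn
    · rw [pre_getD _ _ _ _ hi, (e0 i).2 ⟨n', h3⟩] at h2
      cases h2
    · rw [pre_getD _ _ _ _ hi] at h2
      exact h3 (ht i hi h2)

/-- the block `(x, j)` is zero -/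
def Zb (x j : ℕ) : Set (ℕ → Bool) := {B | ∀ i < x + 2, B (Nat.pair (Nat.pair x j) i) = false}

theorem Zb_eq (x j : ℕ) : Zb x j = {B | ∀ p ∈ (Finset.range (x + 2)).image
    (fun i => Nat.pair (Nat.pair x j) i), B p = (fun _ => false) p} := by
  ext B; simp [Zb]

theorem card_Zb (x j : ℕ) : ((Finset.range (x + 2)).image
    (fun i => Nat.pair (Nat.pair x j) i)).card = x + 2 := by
  rw [Finset.card_image_of_injective _ (fun a b h => by simpa using h), Finset.card_range]

theorem lam_Zb (x j : ℕ) : lam (Zb x j) = (1 / 2) ^ (x + 2) := by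
  rw [Zb_eq, lam_coord, card_Zb]

theorem lam_Zb2 (x : ℕ) {j j' : ℕ} (h : j ≠ j') :
    lam (Zb x j ∩ Zb x j') = (1 / 2) ^ (x + 2) * (1 / 2) ^ (x + 2) := by
  have : Zb x j ∩ Zb x j' = {B | ∀ p ∈ (Finset.range (x + 2)).image
      (fun i => Nat.pair (Nat.pair x j) i) ∪ (Finset.range (x + 2)).image
      (fun i => Nat.pair (Nat.pair x j') i), B p = (fun _ => false) p} := by
    rw [Zb_eq, Zb_eq]
    ext B
    simp only [Set.mem_inter_iff, Set.mem_ofPred_eq, Finset.mem_union, or_imp, forall_and]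
  rw [this, lam_coord, Finset.card_union_of_disjoint, card_Zb, card_Zb, pow_add]
  rw [Finset.disjoint_left]
  simp only [Finset.mem_image]
  rintro p ⟨a, _, rfl⟩ ⟨b, _, h2⟩
  simp at h2
  exact h h2.1.symm

theorem isClosed_Zb (x j : ℕ) : IsClosed (Zb x j) ∧ IsOpen (Zb x j) := by
  have : Zb x j = ⋂ i ∈ Finset.range (x + 2), {B : ℕ → Bool | B (Nat.pair (Nat.pair x j) i) = false} := by
    ext B; simp [Zb]
  rw [this]
  have h : ∀ p : ℕ, IsClopen {B : ℕ → Bool | B p = false} := fun p =>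
    (isClopen_discrete {false}).preimage (continuous_apply p)
  exact ⟨isClosed_biInter fun i _ => (h _).1, isOpen_biInter_finset fun i _ => (h _).2⟩

theorem finite_miss {S : Set (ℕ → Bool)} (hS : MeasurableSet S) (hpos : lam S ≠ 0) (x : ℕ) :
    ∃ j0, ∀ j, j0 ≤ j → ∃ B ∈ S, B ∈ Zb x j := by
  by_contra hc
  push Not at hc
  have hinf : {j | Disjoint S (Zb x j)}.Infinite := by
    refine Set.infinite_of_forall_exists_gt fun j0 => ?_
    obtain ⟨j, h1, h2⟩ := hc (j0 + 1)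
    exact ⟨j, Set.disjoint_left.2 h2, h1⟩
  have hr : 0 < lam.real S := ENNReal.toReal_pos hpos (measure_ne_top _ _)
  obtain ⟨k, hk⟩ := exists_nat_gt (1 / ((1 / 2 : ℝ) ^ (x + 2) * lam.real S))
  obtain ⟨F, hF, hcard⟩ := hinf.exists_subset_card_eq k
  have h1 : ∀ j, lam.real (Zb x j) = (1 / 2 : ℝ) ^ (x + 2) := by
    intro j
    rw [measureReal_def, lam_Zb]
    simp
  have := chebyshev lam F (Zb x) (fun j _ => (isClosed_Zb x j).1.measurableSet)
    (fun _ => (1 / 2 : ℝ) ^ (x + 2)) (fun j _ => h1 j) (fun j _ j' _ h => by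
      rw [measureReal_def, lam_Zb2 x h]
      simp) S hS (fun j hj => hF hj)
  rw [Finset.sum_const, hcard, nsmul_eq_mul] at this
  rw [div_lt_iff₀ (by positivity)] at hk
  nlinarith

theorem high_core {A : ℕ → Bool} (hA : AEDominating A) {q : ℕ → ℕ → ℕ → Prop}
    (hq : PrimrecPred fun z : (ℕ × ℕ) × ℕ => q z.1.1 z.1.2 z.2)
    (mq : ∀ x j m n, m ≤ n → q x j m → q x j n) :
    SI (jump A) fun x => ∀ j, ∃ n, q x j n := by
  classical
  -- the good set
  let bad : ℕ → Set (ℕ → Bool) := fun x =>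
    if h : ∃ j, ∀ n, ¬ q x j n then Zb x (Nat.find h) else ∅
  have hbad : lam (⋃ x, bad x) ≤ 1 / 2 := by
    refine (measure_iUnion_le _).trans ?_
    have : ∀ x, lam (bad x) ≤ (1 / 2) ^ (x + 2) := by
      intro x
      simp only [bad]
      split_ifs
      · exact (lam_Zb _ _).le
      · simp
    refine (ENNReal.tsum_le_tsum this).trans (le_of_eq ?_)
    simp only [pow_add, ENNReal.tsum_mul_right, ENNReal.tsum_geometric]
    rw [one_div, ENNReal.one_sub_inv_two, inv_inv, pow_two, ← mul_assoc,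
      ENNReal.mul_inv_cancel (by norm_num) (by norm_num), one_mul]
  let S : (ℕ → ℕ) → ℕ → Set (ℕ → Bool) := fun g N => {B | ∀ x j n, N ≤ n →
    (∀ j' < j, q x j' n) → B ∈ Zb x j → q x j (g (Nat.pair x (Nat.pair j n)))}
  have hSm : ∀ g N, MeasurableSet (S g N) := by
    intro g N
    have : S g N = ⋂ x, ⋂ j, ⋂ n, ⋂ (_ : N ≤ n ∧ (∀ j' < j, q x j' n) ∧
        ¬ q x j (g (Nat.pair x (Nat.pair j n)))), (Zb x j)ᶜ := by
      ext B
      simp only [S, Set.mem_ofPred_eq, Set.mem_iInter, Set.mem_compl_iff]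
      refine forall_congr' fun x => forall_congr' fun j => forall_congr' fun n => ?_
      tauto
    rw [this]
    exact MeasurableSet.iInter fun x => MeasurableSet.iInter fun j => MeasurableSet.iInter fun n =>
      MeasurableSet.iInter fun _ => (isClosed_Zb x j).1.measurableSet.compl
  have hcover : ∀ᵐ B ∂lam, B ∈ (⋃ x, bad x) ∨ ∃ g, FunLe g A ∧ ∃ N, B ∈ S g N := by
    have hA' : ∀ᵐ B ∂lam, ∀ f : ℕ → ℕ, FunLe f B →
      ∃ g : ℕ → ℕ, FunLe g A ∧ ∀ᶠ n in atTop, f n ≤ g n := hA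
    filter_upwards [hA'] with B hB
    by_cases hb : B ∈ ⋃ x, bad x
    · exact Or.inl hb
    right
    have hR : SI B fun z : ℕ × ℕ =>
        (∃ j', j' < z.1.unpair.2.unpair.1 ∧ ¬ q z.1.unpair.1 j' z.1.unpair.2.unpair.2) ∨
        (∃ i, i < z.1.unpair.1 + 2 ∧
          B (Nat.pair (Nat.pair z.1.unpair.1 z.1.unpair.2.unpair.1) i) = true) ∨
        q z.1.unpair.1 z.1.unpair.2.unpair.1 z.2 := by
      refine SI.or (SI.ex (SI.of_prim (PrimrecPred.and (pp_lt (by fun_prop) (by fun_prop))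
        (PrimrecPred.not (hq.comp (f := fun y : (ℕ × ℕ) × ℕ =>
          ((y.1.1.unpair.1, y.2), y.1.1.unpair.2.unpair.2)) (by fun_prop))))))
        (SI.or (SI.ex (SI.and (SI.of_prim (pp_lt (by fun_prop) (by fun_prop)))
          (SI.query.comp (f := fun y : (ℕ × ℕ) × ℕ =>
            (Nat.pair (Nat.pair y.1.1.unpair.1 y.1.1.unpair.2.unpair.1) y.2, true)) (by fun_prop))))
          (SI.of_prim (hq.comp (f := fun y : ℕ × ℕ =>
          ((y.1.unpair.1, y.1.unpair.2.unpair.1), y.2)) (by fun_prop))))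
    obtain ⟨f, hf1, hf2⟩ := si_choice (R := fun m v =>
        (∃ j', j' < m.unpair.2.unpair.1 ∧ ¬ q m.unpair.1 j' m.unpair.2.unpair.2) ∨
        (∃ i, i < m.unpair.1 + 2 ∧
          B (Nat.pair (Nat.pair m.unpair.1 m.unpair.2.unpair.1) i) = true) ∨
        q m.unpair.1 m.unpair.2.unpair.1 v) hR (by
      intro m
      by_contra hc
      push Not at hc
      apply hb
      have h1 : ∃ j, ∀ n, ¬ q m.unpair.1 j n := ⟨_, fun n => (hc n).2.2⟩
      have h2 : Nat.find h1 = m.unpair.2.unpair.1 := by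
        rw [Nat.find_eq_iff]
        exact ⟨fun n => (hc n).2.2, fun j' hj' h3 => h3 _ ((hc 0).1 j' hj')⟩
      refine Set.mem_iUnion.2 ⟨m.unpair.1, ?_⟩
      simp only [bad]
      rw [dif_pos h1, h2]
      intro i hi
      simpa using (hc 0).2.1 i hi)
    obtain ⟨g, hg, h1⟩ := hB f hf1
    obtain ⟨N, hN⟩ := eventually_atTop.1 h1
    refine ⟨g, hg, N, fun x j n hn h2 h3 => ?_⟩
    have h4 := hf2 (Nat.pair x (Nat.pair j n))
    simp only [Nat.unpair_pair] at h4
    rcases h4 with ⟨j', h5, h6⟩ | ⟨i, h5, h6⟩ | h4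
    · exact absurd (h2 j' h5) h6
    · rw [h3 i h5] at h6
      cases h6
    · exact mq _ _ _ _ (hN _ (hn.trans ((Nat.right_le_pair _ _).trans (Nat.right_le_pair _ _)))) h4
  obtain ⟨g, hg, N, hpos⟩ : ∃ g, FunLe g A ∧ ∃ N, lam (S g N) ≠ 0 := by
    by_contra hc
    push Not at hc
    have h1 : ∀ᵐ B ∂lam, ∀ g ∈ {g : ℕ → ℕ | FunLe g A}, ∀ N, B ∉ S g N := by
      rw [ae_ball_iff (countable_funLe A)]
      intro g hg
      rw [ae_all_iff]
      intro N
      exact measure_eq_zero_iff_ae_notMem.1 (hc g hg N)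
    have h2 : ∀ᵐ B ∂lam, B ∈ (⋃ x, bad x) := by
      filter_upwards [hcover, h1] with B h2 h3
      rcases h2 with h2 | ⟨g, hg, N, h2⟩
      · exact h2
      · exact absurd h2 (h3 g hg N)
    have h3 : lam Set.univ ≤ lam (⋃ x, bad x) := measure_mono_ae (h2.mono fun B h _ => h)
    rw [measure_univ] at h3
    have := h3.trans hbad
    norm_num at this
  have hPi : SI A fun y : ℕ × ℕ => ∃ j, ∃ n, ∃ v, g (Nat.pair y.1 (Nat.pair j n)) = v ∧
      (y.2 ≤ j ∧ N ≤ n) ∧ (∀ j' < j, q y.1 j' n) ∧ ¬ q y.1 j v := by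
    refine SI.ex (SI.ex (SI.ex (SI.and ((funLe_iff.1 hg).comp
      (f := fun z : (((ℕ × ℕ) × ℕ) × ℕ) × ℕ => (Nat.pair z.1.1.1.1 (Nat.pair z.1.1.2 z.1.2), z.2))
      (by fun_prop)) (SI.of_prim (PrimrecPred.and (PrimrecPred.and (pp_le (by fun_prop) (by fun_prop))
        (pp_le (by fun_prop) (by fun_prop))) (PrimrecPred.and ?_ (PrimrecPred.not ?_)))))))
    · refine PP.all_lt (α := (((ℕ × ℕ) × ℕ) × ℕ) × ℕ) (f := fun z => z.1.1.2)
        (p := fun z j' => q z.1.1.1.1 j' z.1.2) ?_ (by fun_prop)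
      exact hq.comp (f := fun w : ((((ℕ × ℕ) × ℕ) × ℕ) × ℕ) × ℕ => ((w.1.1.1.1.1, w.2), w.1.1.2))
        (by fun_prop)
    · exact hq.comp (f := fun z : (((ℕ × ℕ) × ℕ) × ℕ) × ℕ => ((z.1.1.1.1, z.1.1.2), z.2))
        (by fun_prop)
  have hfin : SI (jump A) fun x => ∃ j0, (∀ j < j0, ∃ n, q x j n) ∧
      ¬ ∃ j, ∃ n, ∃ v, g (Nat.pair x (Nat.pair j n)) = v ∧
      (j0 ≤ j ∧ N ≤ n) ∧ (∀ j' < j, q x j' n) ∧ ¬ q x j v := by
    refine SI.ex (SI.and (SI.all_lt (SI.ex (SI.of_prim ?_)) (by fun_prop)) hPi.decide_jump.2)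
    exact hq.comp (f := fun w : ((ℕ × ℕ) × ℕ) × ℕ => ((w.1.1.1, w.1.2), w.2)) (by fun_prop)
  refine hfin.of_eq fun x => ?_
  constructor
  · rintro ⟨j0, h1, h2⟩ j
    push Not at h2
    induction j using Nat.strong_induction_on with
    | _ j ih =>
      by_cases hj : j < j0
      · exact h1 j hj
      · have : ∀ k ≤ j, ∃ n, N ≤ n ∧ ∀ j' < k, q x j' n := by
          intro k hk
          induction k with
          | zero => exact ⟨N, le_rfl, by simp⟩
          | succ k ih2 =>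
            obtain ⟨n, h3, h4⟩ := ih2 (by omega)
            obtain ⟨n', h5⟩ := ih k (by omega)
            refine ⟨max n n', by omega, fun j' hj' => ?_⟩
            rcases Nat.lt_succ_iff_lt_or_eq.1 hj' with h6 | rfl
            · exact mq _ _ _ _ (le_max_left _ _) (h4 j' h6)
            · exact mq _ _ _ _ (le_max_right _ _) h5
        obtain ⟨n, h3, h4⟩ := this j le_rfl
        exact ⟨_, h2 j n _ rfl ⟨by omega, h3⟩ h4⟩
  · intro h
    obtain ⟨j0, hj0⟩ := finite_miss (hSm g N) hpos x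
    refine ⟨j0, fun j _ => h j, ?_⟩
    rintro ⟨j, n, v, rfl, ⟨h1, h2⟩, h3, h4⟩
    obtain ⟨B, hB, hZ⟩ := hj0 j h1
    exact h4 (hB x j n h2 h3 hZ)

theorem ceIn_iff_si {A V : ℕ → Bool} : Defs.CEIn A V ↔ SI A fun n => V n = true :=
  SI.iff_ceIn (B := A) (W := {n | V n = true})

theorem isJump_jump (A : ℕ → Bool) : IsJump A (jump A) := by
  refine ⟨ceIn_iff_si.2 (si_jump A), fun V hV => ?_⟩
  obtain ⟨f, hf, h⟩ := (ceIn_iff_si.1 hV).to_jump
  exact tLe_of_computable hf fun n => by rw [Bool.eq_iff_iff]; exact h n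

theorem tLe_of_si {V B : ℕ → Bool} (h1 : SI B fun n => V n = true) (h2 : SI B fun n => V n = false) :
    TLe V B := by
  rw [tLe_iff_SI]
  have h4 : SI B fun x : ℕ × Bool => (V x.1 = true ∧ x.2 = true) ∨ (V x.1 = false ∧ x.2 = false) :=
    SI.or (SI.and (h1.comp Primrec.fst) (SI.of_prim (pp_eq (by fun_prop) (by fun_prop))))
      (SI.and (h2.comp (f := fun x : ℕ × Bool => x.1) Primrec.fst)
        (SI.of_prim (pp_eq (by fun_prop) (by fun_prop))))
  refine h4.of_eq fun x => ?_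
  rcases x with ⟨n, b⟩
  cases b <;> simp

theorem zero_tLe (A : ℕ → Bool) : TLe (fun _ => false) A := by
  rw [tLe_iff_SI]
  exact SI.of_prim (pp_eq (by fun_prop) (by fun_prop))

theorem high_of_attr {A C : ℕ → Bool} (hC : CE C) (h : SetEquiv A C) (hA : Attractive A) :
    High A := by
  refine ⟨jump A, jump fun _ => false, jump (jump fun _ => false), isJump_jump _, isJump_jump _,
    isJump_jump _, ?_, ?_⟩
  · refine TLe.jump (TLe.trans h.1 ?_)
    exact (isJump_jump _).2 C (ceIn_iff_si.2 (SI.of_s1 (S1.of_re hC)))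
  · obtain ⟨q, hq, mq, eq⟩ := pi2_form
    refine tLe_of_si ((si_jump _).trans (zero_tLe A).jump) ?_
    exact (high_core (aed_of_attr hC h hA) hq mq).of_eq fun x => (eq x).symm

end Pool.Agent.H100Z.HB
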