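import Pool.Agent.H100Z.AT
import Pool.Agent.H100Z.Defs2

set_option autoImplicit false

namespace Pool.Agent.H100Z.KM

open Encodable Pool.Agent.Helper227 Pool.Agent.H100Z.PR Filter Topology
open Pool.Agent.H100Z.Defs MeasureTheory Pool.Agent.H100Z.HB Pool.Agent.H100Z.BT
open Pool.Agent.H100Z.AT
open Nat.Partrec (Code)
open scoped ENNReal

section
variable {u L : ℕ → ℕ} {T P : List Bool → Prop} {q m D : ℕ} {τ : List Bool}

theorem len_child (hL : StrictMono L) {β : List Bool} (hl : τ.length = L m)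
    (hβ : β.length = L (m + 1) - L m) : (τ ++ β).length = L (m + 1) := by
  have := hL (Nat.lt_succ_self m)
  rw [List.length_append, hl, hβ]
  simp only [Nat.succ_eq_add_one] at this
  omega

theorem big_top (hL : StrictMono L) (hu : ∀ m, 0 < q * u m)
    (h : Big u L T q (fun ρ => ρ.length = L D ∧ P ρ) m τ) (hl : τ.length = L m) (hD : D ≤ m) :
    m = D ∧ P τ := by
  induction h with
  | base _ h => exact ⟨hL.injective (by rw [← hl, h.1]), h.2⟩
  | @step m τ F _ h2 h3 _ ih =>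
    obtain ⟨β, hβ⟩ := Finset.card_pos.1 (lt_of_lt_of_le (hu m) h2)
    have := (ih β hβ (len_child hL hl (h3 β hβ)) (by omega)).1
    omega

theorem fill (hL : StrictMono L) {m0 : ℕ} (hB : Bushy u L T q m0)
    (hup : ∀ ρ ρ', ρ <+: ρ' → P ρ → P ρ') (d : ℕ) : ∀ m τ, m + d = D → m0 ≤ m → τ.length = L m →
    T τ → P τ → Big u L T q (fun ρ => ρ.length = L D ∧ P ρ) m τ := by
  induction d with
  | zero => exact fun m τ h1 _ h3 h4 h5 => .base h4 ⟨by rw [h3, ← h1, add_zero], h5⟩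
  | succ d ih =>
    intro m τ h1 h2 h3 h4 h5
    obtain ⟨F, h6, h7⟩ := hB m τ h2 h3 h4
    exact .step F h4 h6 (fun β hβ => (h7 β hβ).1) fun β hβ => ih _ _ (by omega) (by omega)
      (len_child hL h3 (h7 β hβ).1) (h7 β hβ).2 (hup _ _ (List.prefix_append _ _) h5)

theorem big_exact (hL : StrictMono L) {m0 : ℕ} (hB : Bushy u L T q m0)
    (hup : ∀ ρ ρ', ρ <+: ρ' → P ρ → P ρ')
    (h : Big u L T q (fun ρ => ρ.length ≤ L D ∧ P ρ) m τ) (hl : τ.length = L m) (hm : m0 ≤ m) :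
    Big u L T q (fun ρ => ρ.length = L D ∧ P ρ) m τ := by
  induction h with
  | @base m τ h1 h2 =>
    have : m ≤ D := hL.le_iff_le.1 (by rw [← hl]; exact h2.1)
    exact fill hL hB hup (D - m) m τ (by omega) hm hl h1 h2.2
  | step F h1 h2 h3 _ ih =>
    exact .step F h1 h2 h3 fun β hβ => ih β hβ (len_child hL hl (h3 β hβ)) (by omega)

end

theorem ultra {ι : Type*} (l : List ι) (good : ι → ℕ → ℕ → Prop)
    (h : ∀ τ ∈ l, ∀ i j k, i < j → j < k → good τ i j ∨ good τ j k ∨ good τ i k) (i0 : ℕ) :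
    ∃ i j, i0 ≤ i ∧ i < j ∧ ∀ τ ∈ l, good τ i j := by
  have hgt : ∀ a : ℕ, ∀ᶠ j in (hyperfilter ℕ : Filter ℕ), a < j := fun a =>
    (eventually_gt_atTop a).filter_mono Nat.hyperfilter_le_atTop
  have h1 : ∀ τ ∈ l, ∀ᶠ i in (hyperfilter ℕ : Filter ℕ),
      ∀ᶠ j in (hyperfilter ℕ : Filter ℕ), good τ i j := by
    intro τ hτ
    by_contra hc
    rw [← Ultrafilter.eventually_not] at hc
    simp only [← Ultrafilter.eventually_not] at hc
    obtain ⟨i, hi⟩ := hc.exists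
    obtain ⟨j, ⟨h2, h3⟩, h4⟩ := ((hc.and hi).and (hgt i)).exists
    obtain ⟨k, ⟨h5, h6⟩, h7⟩ := ((hi.and h2).and (hgt j)).exists
    rcases h τ hτ i j k h4 h7 with h8 | h8 | h8
    exacts [h3 h8, h6 h8, h5 h8]
  have h2 : ∀ᶠ i in (hyperfilter ℕ : Filter ℕ),
      ∀ᶠ j in (hyperfilter ℕ : Filter ℕ), ∀ τ ∈ l, good τ i j := by
    clear h
    induction l with
    | nil => simp
    | cons a l ih =>
      filter_upwards [ih fun τ hτ => h1 τ (List.mem_cons_of_mem _ hτ), h1 a List.mem_cons_self]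
        with i h2 h3
      filter_upwards [h2, h3] with j h4 h5 τ hτ
      rcases List.mem_cons.1 hτ with rfl | hτ
      exacts [h5, h4 τ hτ]
  obtain ⟨i, h3, h4⟩ := (h2.and (hgt i0)).exists
  obtain ⟨j, h5, h6⟩ := (h3.and (hgt i)).exists
  exact ⟨i, j, h4.le, h6, h5⟩

/-- parity -/
def par (v : List Bool) : ℕ := v.countP id % 2

@[fun_prop] theorem ppar {α : Type*} [Primcodable α] {f : α → List Bool} (hf : Primrec f) :
    Primrec fun x => par (f x) :=
  pmod (pcountP (g := fun _ => id) hf Primrec.snd) (Primrec.const 2)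

/-- the output has even parity between `i` and `j` -/
def PP (c : Code) (i j : ℕ) (ρ : List Bool) : Prop :=
  ∃ v ∈ allStr j, Out c v ρ ∧ par (v.take i) = par v

theorem PP.up {c : Code} {i j : ℕ} (ρ ρ' : List Bool) (h : ρ <+: ρ') (h2 : PP c i j ρ) :
    PP c i j ρ' :=
  let ⟨v, h3, h4, h5⟩ := h2
  ⟨v, h3, h4.up h, h5⟩

theorem tri {c : Code} {i j k : ℕ} (h1 : i < j) (h2 : j < k) {ρ : List Bool}
    (h : ∃ v ∈ allStr k, Out c v ρ) : (PP c i j ρ ∨ PP c j k ρ) ∨ PP c i k ρ := by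
  obtain ⟨v, h3, h4⟩ := h
  have h5 := mem_allStr.1 h3
  by_cases e1 : par (v.take j) = par v
  · exact Or.inl (Or.inr ⟨v, h3, h4, e1⟩)
  by_cases e2 : par (v.take i) = par v
  · exact Or.inr ⟨v, h3, h4, e2⟩
  refine Or.inl (Or.inl ⟨v.take j, mem_allStr.2 (by rw [List.length_take]; omega), h4.take j, ?_⟩)
  rw [List.take_take, min_eq_left h1.le]
  unfold par at *
  omega

/-- forcing conditions -/
structure Cd where
  n : ℕ
  σ : List Bool
  p : ℕ
  T : List Bool → Prop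
  E : List Bool → Prop
  hl : σ.length = L7 n
  hT : T σ
  s1 : S1 T
  s2 : S1 fun ρ => ¬ T ρ
  s3 : S1 E
  dn : ∀ ρ ρ', ρ <+: ρ' → T ρ' → T ρ
  up : ∀ ρ ρ', ρ <+: ρ' → E ρ → E ρ'
  pos : 0 < p
  b1 : Bushy u7 L7 T p n
  b2 : ∀ K, ∃ n', Bushy u7 L7 T K n'
  sm : ¬ Big u7 L7 T p E n σ

/-- extension of conditions -/
def Cd.le (y x : Cd) : Prop := x.σ <+: y.σ ∧ (∀ ρ, y.T ρ → x.T ρ) ∧ ∀ ρ, x.E ρ → y.E ρ

/-- `A` satisfies the condition -/
def Cd.Gen (x : Cd) (A : ℕ → Bool) : Prop :=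
  (∀ t, x.T (pre A t) ∧ ¬ x.E (pre A t)) ∧ pre A x.σ.length = x.σ

/-- the requirement for the functional `c` -/
def Res (c : Code) (A : ℕ → Bool) : Prop :=
  (∀ X, ¬ cpt c X A) ∨ ∃ G : ℕ → ℕ × ℕ × ℕ, Computable G ∧
    (∀ k, (G k).2.1 < (G k).2.2 ∧ (G k).2.2 ≤ (G (k + 1)).2.1) ∧
    ∀ k, PP c (G k).2.1 (G k).2.2 (pre A (G k).1)

/-- one stage of the subtree -/
def Wit (x : Cd) (c : Code) (a : ℕ × ℕ × ℕ) (b : (ℕ × ℕ) × (ℕ × ℕ) × List (ℕ × List Bool)) : Prop :=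
  ((a.2.1 < b.1.1 ∧ x.n ≤ b.1.1) ∧ b.1.1 ≤ b.1.2 ∧ a.2.2 ≤ b.2.1.1 ∧ b.2.1.1 < b.2.1.2) ∧
  Valid u7 L7 x.T (x.p + a.1) (fun ρ => ρ.length = L7 b.1.2 ∧ PP c b.2.1.1 b.2.1.2 ρ) b.2.2 ∧
  ∀ τ ∈ allStr (L7 b.1.1), τ.take x.σ.length ≠ x.σ ∨ ¬ x.T τ ∨
    Big u7 L7 x.T x.p x.E b.1.1 τ ∨ (b.1.1, τ) ∈ b.2.2

theorem s1_Wit (x : Cd) (c : Code) :
    S1 fun z : (ℕ × ℕ × ℕ) × (ℕ × ℕ) × (ℕ × ℕ) × List (ℕ × List Bool) => Wit x c z.1 z.2 := by
  unfold Wit
  refine S1.and (S1.and (S1.and (s1_lt ?_ ?_) (s1_le ?_ ?_)) (S1.and (s1_le ?_ ?_)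
    (S1.and (s1_le ?_ ?_) (s1_lt ?_ ?_)))) (S1.and (s1_Valid
      (S := fun (z : (ℕ × ℕ × ℕ) × (ℕ × ℕ) × (ℕ × ℕ) × List (ℕ × List Bool)) ρ =>
        ρ.length = L7 z.2.1.2 ∧ PP c z.2.2.1.1 z.2.2.1.2 ρ) primrec_u7 primrec_L7 x.s1
      (S1.and (s1_eq ?_ ?_) (S1.of_prim (PP.ex_mem
        (α := ((ℕ × ℕ × ℕ) × (ℕ × ℕ) × (ℕ × ℕ) × List (ℕ × List Bool)) × List Bool)
        (f := fun w => allStr w.1.2.2.1.2)
        (p := fun w v => Out c v w.2 ∧ par (v.take w.1.2.2.1.1) = par v)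
        (PrimrecPred.and (pp_Out ?_ ?_ ?_) (pp_eq ?_ ?_)) ?_))) ?_ ?_)
      (S1.all_mem (S1.or (s1_ne ?_ ?_) (S1.or (x.s2.comp Primrec.snd) (S1.or
        (s1_Big (S := fun _ => x.E) primrec_u7 primrec_L7 x.s1 (x.s3.comp Primrec.snd) ?_ ?_ ?_)
        (S1.of_prim (s1_mem ?_ ?_))))) ?_)) <;> fun_prop

theorem u7_pos {q : ℕ} (hq : 0 < q) (m : ℕ) : 0 < q * u7 m := Nat.mul_pos hq (Nat.succ_pos _)

theorem exists_Wit (x : Cd) (c : Code) (H : ∀ q m τ N, x.n ≤ m → τ.length = L7 m → x.σ <+: τ →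
    x.T τ → Bushy u7 L7 x.T (x.p + q) m → Big u7 L7 x.T x.p x.E m τ ∨
      Big u7 L7 x.T q (fun ρ => ∃ v ∈ allStr N, Out c v ρ) m τ) (a : ℕ × ℕ × ℕ) :
    ∃ b, Wit x c a b := by
  classical
  obtain ⟨k, D0, i0⟩ := a
  obtain ⟨q, hq⟩ : ∃ q, q = x.p + k := ⟨_, rfl⟩
  obtain ⟨n', hn'⟩ := x.b2 (x.p + (q + q + q))
  obtain ⟨m, h1, h2, h3⟩ : ∃ m, D0 < m ∧ x.n ≤ m ∧ n' ≤ m := ⟨D0 + 1 + x.n + n', by omega⟩
  have hB := hn'.mono le_rfl h3
  obtain ⟨l, hl⟩ : ∃ l : List (List Bool), ∀ τ, τ ∈ l ↔ τ.length = L7 m ∧ x.σ <+: τ ∧ x.T τ ∧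
      ¬ Big u7 L7 x.T x.p x.E m τ :=
    ⟨(allStr (L7 m)).filter fun τ => x.σ <+: τ ∧ x.T τ ∧ ¬ Big u7 L7 x.T x.p x.E m τ,
      fun τ => by simp [mem_allStr]⟩
  obtain ⟨i, j, h4, h5, h6⟩ := ultra l (fun τ i j => Big u7 L7 x.T q (PP c i j) m τ) (by
    intro τ hτ i j k' hij hjk
    obtain ⟨g1, g2, g3, g4⟩ := (hl τ).1 hτ
    have g5 := ((H _ m τ k' h2 g1 g2 g3 hB).resolve_left g4).mono (fun _ h => h) le_rfl
      fun ρ _ h => tri hij hjk h
    rcases g5.union with g6 | g6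
    · exact g6.union.imp id Or.inl
    · exact Or.inr (Or.inr g6)) i0
  have h7 : ∀ τ ∈ l, ∃ D, Big u7 L7 x.T q (fun ρ => ρ.length ≤ D ∧ PP c i j ρ) m τ :=
    fun τ hτ => (h6 τ hτ).depth
  choose! Df hD using h7
  obtain ⟨D, h8, h9⟩ : ∃ D, m ≤ D ∧ ∀ τ ∈ l, Df τ ≤ L7 D :=
    ⟨m + (l.map Df).sum, by omega, fun τ hτ => le_trans (le_trans
      (List.single_le_sum (by simp) _ (List.mem_map_of_mem hτ)) (Nat.le_add_left _ m))
      (L7_strict.id_le _)⟩
  have h10 : ∀ τ ∈ l, ∃ Tr, (m, τ) ∈ Tr ∧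
      Valid u7 L7 x.T q (fun ρ => ρ.length = L7 D ∧ PP c i j ρ) Tr := fun τ hτ =>
    (big_exact L7_strict (hB.mono (by omega) le_rfl) PP.up ((hD τ hτ).mono (fun _ h => h) le_rfl
      fun ρ _ h => ⟨h.1.trans (h9 τ hτ), h.2⟩) ((hl τ).1 hτ).1 le_rfl).valid
  choose! G hG using h10
  refine ⟨((m, D), (i, j), l.flatMap G), ⟨⟨h1, h2⟩, h8, h4, h5⟩, ?_, fun τ hτ => ?_⟩
  · simp only [← hq]
    exact Valid.flat (fun v hv => (hG v hv).2) fun v hv y hy => List.mem_flatMap.2 ⟨v, hv, hy⟩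
  · by_contra hc
    push Not at hc
    have h11 : τ ∈ l := (hl τ).2 ⟨mem_allStr.1 hτ, by rw [← hc.1]; exact List.take_prefix _ _,
      hc.2.1, hc.2.2.1⟩
    exact hc.2.2.2 (List.mem_flatMap.2 ⟨τ, h11, (hG τ h11).1⟩)

/-- leaving the witness tree -/
def Vio (ρ : List Bool) (m : ℕ) (g : (ℕ × ℕ) × (ℕ × ℕ) × List (ℕ × List Bool)) : Prop :=
  (g.1.1 ≤ m ∧ m ≤ g.1.2 ∧ L7 m ≤ ρ.length) ∧ (g.1.1, ρ.take (L7 g.1.1)) ∈ g.2.2 ∧
    (m, ρ.take (L7 m)) ∉ g.2.2

theorem pp_Vio : PrimrecPred fun z : (List Bool × ℕ) × (ℕ × ℕ) × (ℕ × ℕ) × List (ℕ × List Bool) =>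
    Vio z.1.1 z.1.2 z.2 := by
  unfold Vio
  refine PrimrecPred.and (PrimrecPred.and (pp_le ?_ ?_) (PrimrecPred.and (pp_le ?_ ?_)
    (pp_le ?_ ?_))) (PrimrecPred.and (s1_mem ?_ ?_) (PrimrecPred.not (s1_mem ?_ ?_))) <;> fun_prop

theorem take_of_prefix {ρ ρ' : List Bool} (h : ρ <+: ρ') {k : ℕ} (hk : k ≤ ρ.length) :
    ρ'.take k = ρ.take k := by
  obtain ⟨t, rfl⟩ := h
  exact List.take_append_of_le_length hk

theorem step (x : Cd) (c : Code) : ∃ y : Cd, y.le x ∧ x.n ≤ y.n ∧ ∀ A, y.Gen A → Res c A := by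
  classical
  have hm := L7_strict.monotone
  by_cases H : ∀ q m τ N, x.n ≤ m → τ.length = L7 m → x.σ <+: τ →
    x.T τ → Bushy u7 L7 x.T (x.p + q) m → Big u7 L7 x.T x.p x.E m τ ∨
      Big u7 L7 x.T q (fun ρ => ∃ v ∈ allStr N, Out c v ρ) m τ
  swap
  · push Not at H
    obtain ⟨q, m, τ, N, h1, h2, h3, h4, h5, h6, h7⟩ := H
    refine ⟨⟨m, τ, x.p + q, x.T, fun ρ => x.E ρ ∨ ∃ v ∈ allStr N, Out c v ρ, h2, h4, x.s1, x.s2,
      x.s3.or (S1.of_prim (PP.ex_mem (p := fun ρ v => Out c v ρ)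
        (pp_Out (by fun_prop) (by fun_prop) (by fun_prop)) (by fun_prop))), x.dn,
      fun ρ ρ' h8 h9 => h9.imp (x.up _ _ h8) fun ⟨v, h11, h12⟩ => ⟨v, h11, h12.up h8⟩,
      by have := x.pos; omega, h5, x.b2, fun h8 => h8.union.elim h6 h7⟩,
      ⟨h3, fun _ h => h, fun _ h => Or.inl h⟩, h1, fun A hA => Or.inl fun X hX => ?_⟩
    obtain ⟨n, hn⟩ := Out.complete hX N
    exact (hA.1 n).2 (Or.inr ⟨_, mem_allStr.2 (length_pre _ _), hn⟩)
  obtain ⟨f, hf, hw⟩ := s1_choice (s1_Wit x c) (exists_Wit x c H)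
  obtain ⟨G, hG, hG0, hGs⟩ : ∃ G : ℕ → (ℕ × ℕ) × (ℕ × ℕ) × List (ℕ × List Bool), Computable G ∧
      G 0 = f (0, 0, 0) ∧ ∀ k, G (k + 1) = f (k + 1, (G k).1.2, (G k).2.1.2) := by
    refine ⟨fun k => Nat.rec (f (0, 0, 0)) (fun y IH => f (y + 1, IH.1.2, IH.2.1.2)) k, ?_, rfl,
      fun k => rfl⟩
    exact Computable.nat_rec (f := fun k : ℕ => k) (g := fun _ => f (0, 0, 0))
      (h := fun _ p => f (p.1 + 1, p.2.1.2, p.2.2.1.2)) Computable.id (Computable.const _)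
      (hf.comp (Primrec.to_comp (by fun_prop)))
  have w1 : ∀ k, ∃ a b, Wit x c (k, a, b) (G k) := by
    intro k
    cases k with
    | zero => exact ⟨_, _, hG0 ▸ hw _⟩
    | succ k => exact ⟨_, _, hGs k ▸ hw _⟩
  have w2 : ∀ k, (G k).1.2 < (G (k + 1)).1.1 ∧ (G k).2.1.2 ≤ (G (k + 1)).2.1.1 := by
    intro k
    have := hw (k + 1, (G k).1.2, (G k).2.1.2)
    rw [← hGs] at this
    exact ⟨this.1.1.1, this.1.2.2.1⟩
  have w3 : ∀ k, x.n ≤ (G k).1.1 ∧ (G k).1.1 ≤ (G k).1.2 ∧ (G k).2.1.1 < (G k).2.1.2 := fun k =>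
    let ⟨_, _, h⟩ := w1 k
    ⟨h.1.1.2, h.1.2.1, h.1.2.2.2⟩
  have w4 : ∀ k k', k < k' → (G k).1.2 < (G k').1.1 := by
    intro k k' h
    induction h with
    | refl => exact (w2 k).1
    | @step k' _ ih => exact lt_trans (lt_of_lt_of_le ih (w3 k').2.1) (w2 k').1
  have w5 : ∀ k, k ≤ (G k).1.1 := by
    intro k
    induction k with
    | zero => exact Nat.zero_le _
    | succ k ih => have := (w2 k).1; have := (w3 k).2.1; omega
  have hbushy : ∀ q m0, Bushy u7 L7 x.T q m0 → (∀ k, m0 < (G k).1.2 → q ≤ x.p + k) →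
      Bushy u7 L7 (fun ρ => x.T ρ ∧ ∀ k m, ¬ Vio ρ m (G k)) q m0 := by
    intro q m0 h1 h2 m τ h3 h4 h5
    have hlt : L7 m < L7 (m + 1) := L7_strict (Nat.lt_succ_self m)
    have hold : ∀ β k m', m' ≤ m → ¬ Vio (τ ++ β) m' (G k) := by
      rintro β k m' h6 ⟨⟨h7, h8, -⟩, h9, h10⟩
      have h11 : L7 m' ≤ τ.length := by rw [h4]; exact hm h6
      rw [List.take_append_of_le_length (le_trans (hm h7) h11)] at h9
      rw [List.take_append_of_le_length h11] at h10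
      exact h5.2 k m' ⟨⟨h7, h8, h11⟩, h9, h10⟩
    have hnew : ∀ β k m', β.length = L7 (m + 1) - L7 m → Vio (τ ++ β) m' (G k) → m' = m + 1 := by
      intro β k m' h6 h7
      have h8 := h7.1.2.2
      rw [len_child L7_strict h4 h6] at h8
      have h9 := L7_strict.le_iff_le.1 h8
      by_contra h10
      exact hold β k m' (by omega) h7
    by_cases hc : ∃ k, (G k).1.1 ≤ m ∧ m < (G k).1.2 ∧ ((G k).1.1, τ.take (L7 (G k).1.1)) ∈ (G k).2.2
    · obtain ⟨k, h6, h7, h8⟩ := hc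
      obtain ⟨a, b, hW⟩ := w1 k
      have h9 : (m, τ) ∈ (G k).2.2 := by
        by_contra h9
        exact h5.2 k m ⟨⟨h6, h7.le, h4.ge⟩, h8, by rwa [← h4, List.take_length]⟩
      rcases (hW.2.1 _ h9).2 with h10 | h10
      · have := L7_strict h7
        have := h10.1
        simp only at this
        omega
      obtain ⟨F, h11, h12⟩ := Valid.children h10
      refine ⟨F, (Nat.mul_le_mul_right _ (h2 k (by omega))).trans h11, fun β hβ =>
        ⟨(h12 β hβ).1, (hW.2.1 _ (h12 β hβ).2).1, fun k' m' h13 => ?_⟩⟩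
      obtain rfl := hnew β k' m' (h12 β hβ).1 h13
      obtain rfl : k' = k := by
        have h14 := h13.1.1
        have h15 := h13.1.2.1
        rcases lt_trichotomy k' k with h | h | h
        · have := w4 _ _ h; omega
        · exact h
        · have := w4 _ _ h; omega
      refine h13.2.2 ?_
      rw [← len_child L7_strict h4 (h12 β hβ).1, List.take_length]
      exact (h12 β hβ).2
    · obtain ⟨F, h6, h7⟩ := h1 m τ h3 h4 h5.1
      refine ⟨F, h6, fun β hβ => ⟨(h7 β hβ).1, (h7 β hβ).2, fun k' m' h13 => ?_⟩⟩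
      obtain rfl := hnew β k' m' (h7 β hβ).1 h13
      obtain ⟨⟨h8, h9, -⟩, h10, h11⟩ := h13
      rcases h8.eq_or_lt with h12 | h12
      · rw [h12] at h10; exact h11 h10
      · rw [List.take_append_of_le_length (by rw [h4]; exact hm (by omega))] at h10
        exact hc ⟨k', by omega, by omega, h10⟩
  have hV : S1 fun z : (List Bool × ℕ) × ℕ => Vio z.1.1 z.2 (G z.1.2) :=
    (S1.of_prim pp_Vio).comp_computable (f := fun z : (List Bool × ℕ) × ℕ => ((z.1.1, z.2), G z.1.2))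
      ((Primrec.to_comp (by fun_prop)).pair (hG.comp (Primrec.to_comp (by fun_prop))))
  have hV' : S1 fun z : (List Bool × ℕ) × ℕ => ¬ Vio z.1.1 z.2 (G z.1.2) :=
    (S1.of_prim pp_Vio.not).comp_computable
      (f := fun z : (List Bool × ℕ) × ℕ => ((z.1.1, z.2), G z.1.2))
      ((Primrec.to_comp (by fun_prop)).pair (hG.comp (Primrec.to_comp (by fun_prop))))
  refine ⟨⟨x.n, x.σ, x.p, fun ρ => x.T ρ ∧ ∀ k m, ¬ Vio ρ m (G k),
    fun ρ => x.E ρ ∨ ∃ m, (x.n ≤ m ∧ L7 m ≤ ρ.length) ∧ Big u7 L7 x.T x.p x.E m (ρ.take (L7 m)),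
    x.hl, ⟨x.hT, ?_⟩, x.s1.and ?_, ?_, x.s3.or (S1.ex (S1.and (S1.and
      (s1_le (by fun_prop) (by fun_prop)) (s1_le (by fun_prop) (by fun_prop)))
      (s1_Big (S := fun _ => x.E) primrec_u7 primrec_L7 x.s1 (x.s3.comp Primrec.snd)
        (by fun_prop) (by fun_prop) (by fun_prop)))), ?_, ?_, x.pos,
    hbushy _ _ x.b1 fun _ _ => by omega, fun K => ?_, ?_⟩,
    ⟨List.prefix_refl _, fun _ h => h.1, fun _ h => Or.inl h⟩, le_rfl, fun A hA => Or.inr
      ⟨fun k => (L7 (G k).1.2, (G k).2.1), ?_, fun k => ⟨(w3 k).2.2, (w2 k).2⟩, fun k => ?_⟩⟩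
  · rintro k m ⟨⟨h1, h2, h3⟩, h4, h5⟩
    rw [x.hl] at h3
    have h6 := L7_strict.le_iff_le.1 h3
    have h7 := (w3 k).1
    rw [show (G k).1.1 = m by omega] at h4
    exact h5 h4
  · have h1 : S1 fun ρ : List Bool => ∀ k < ρ.length + 1, ∀ m < ρ.length + 1, ¬ Vio ρ m (G k) :=
      S1.all_lt (S1.all_lt hV' (by fun_prop)) (by fun_prop)
    refine h1.of_eq fun ρ => ⟨fun h k m h2 => ?_, fun h k _ m _ => h k m⟩
    have h3 := w5 k
    have h4 : m ≤ L7 m := L7_strict.id_le m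
    have h5 := h2.1
    exact h k (by omega) m (by omega) h2
  · have h1 : S1 fun ρ : List Bool => ¬ x.T ρ ∨ ∃ k m, Vio ρ m (G k) :=
      x.s2.or (S1.ex (S1.ex hV))
    refine h1.of_eq fun ρ => ?_
    push Not
    tauto
  · rintro ρ ρ' h1 ⟨h2, h3⟩
    refine ⟨x.dn _ _ h1 h2, ?_⟩
    rintro k m ⟨⟨h4, h5, h6⟩, h7, h8⟩
    refine h3 k m ⟨⟨h4, h5, h6.trans h1.length_le⟩, ?_, ?_⟩
    · rwa [take_of_prefix h1 ((hm h4).trans h6)]
    · rwa [take_of_prefix h1 h6]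
  · refine fun ρ ρ' h1 h2 => h2.imp (x.up _ _ h1) ?_
    rintro ⟨m, ⟨h3, h4⟩, h5⟩
    exact ⟨m, ⟨h3, h4.trans h1.length_le⟩, by rwa [take_of_prefix h1 h4]⟩
  · obtain ⟨n', hn'⟩ := x.b2 K
    refine ⟨n' + (G K).1.2, hbushy _ _ (hn'.mono le_rfl (by omega)) fun k hk => ?_⟩
    by_contra h1
    have h2 := w4 k K (by omega)
    have h3 := (w3 K).2.1
    omega
  · have key : ∀ m τ, Big u7 L7 (fun ρ => x.T ρ ∧ ∀ k m, ¬ Vio ρ m (G k)) x.p
        (fun ρ => x.E ρ ∨ ∃ m, (x.n ≤ m ∧ L7 m ≤ ρ.length) ∧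
          Big u7 L7 x.T x.p x.E m (ρ.take (L7 m))) m τ → τ.length = L7 m → x.n ≤ m →
        ∃ m, (x.n ≤ m ∧ L7 m ≤ τ.length) ∧ Big u7 L7 x.T x.p x.E m (τ.take (L7 m)) := by
      intro m τ h
      induction h with
      | @base m τ h1 h2 =>
        intro h3 h4
        rcases h2 with h2 | h2
        · exact ⟨m, ⟨h4, h3.ge⟩, by rw [← h3, List.take_length]; exact .base h1.1 h2⟩
        · exact h2
      | @step m τ F h1 h2 h3 _ ih =>
        intro h4 h5
        by_contra hc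
        refine hc ⟨m, ⟨h5, h4.ge⟩, ?_⟩
        rw [← h4, List.take_length]
        refine .step F h1.1 h2 h3 fun β hβ => ?_
        have h6 := len_child L7_strict h4 (h3 β hβ)
        obtain ⟨m', ⟨h7, h8⟩, h9⟩ := ih β hβ h6 (by omega)
        rw [h6] at h8
        rcases (L7_strict.le_iff_le.1 h8).eq_or_lt with rfl | h10
        · rwa [← h6, List.take_length] at h9
        · have h11 : L7 m' ≤ τ.length := by rw [h4]; exact hm (by omega)
          rw [List.take_append_of_le_length h11] at h9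
          exact absurd ⟨m', ⟨h7, h11⟩, h9⟩ hc
    intro h
    obtain ⟨m, ⟨h1, h2⟩, h3⟩ := key _ _ h x.hl le_rfl
    rw [x.hl] at h2
    obtain rfl : m = x.n := le_antisymm (L7_strict.le_iff_le.1 h2) h1
    rw [← x.hl, List.take_length] at h3
    exact x.sm h3
  · exact ((primrec_L7.to_comp).comp (Computable.snd.comp (Computable.fst.comp hG))).pair
      (Computable.fst.comp (Computable.snd.comp hG))
  · obtain ⟨a, b, hW⟩ := w1 k
    obtain ⟨h1, h2⟩ := hA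
    simp only at h1 h2 ⊢
    have h3 := w3 k
    have h4 : ((G k).1.1, pre A (L7 (G k).1.1)) ∈ (G k).2.2 := by
      rcases hW.2.2 (pre A (L7 (G k).1.1)) (mem_allStr.2 (length_pre _ _)) with h | h | h | h
      · rw [take_pre _ _ _ (by rw [x.hl]; exact hm h3.1)] at h
        exact absurd h2 h
      · exact absurd (h1 _).1.1 h
      · refine absurd (Or.inr ⟨(G k).1.1, ⟨h3.1, by simp⟩, ?_⟩) (h1 (L7 (G k).1.1)).2
        rwa [take_pre _ _ _ le_rfl]
      · exact h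
    have h5 : ((G k).1.2, pre A (L7 (G k).1.2)) ∈ (G k).2.2 := by
      by_contra h5
      refine (h1 (L7 (G k).1.2)).1.2 k (G k).1.2 ⟨⟨h3.2.1, le_rfl, by simp⟩, ?_, ?_⟩
      · rwa [take_pre _ _ _ (hm h3.2.1)]
      · rwa [take_pre _ _ _ le_rfl]
    exact (big_top L7_strict (u7_pos (by have := x.pos; simp only; omega)) (hW.2.1.big _ h5)
      (length_pre _ _) le_rfl).2

theorem generic (x0 : Cd) : ∃ A, x0.Gen A ∧ ∀ c, Res c A := by
  have hs : ∀ (k : ℕ) (x : Cd), ∃ y : Cd, y.le x ∧ x.n < y.n ∧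
      ∀ A, y.Gen A → Res (Denumerable.ofNat Code k) A := by
    intro k x
    obtain ⟨ρ, h1, h2, h3, h4⟩ := x.b1.ext L7_strict.monotone x.hl x.hT x.sm (Nat.le_succ x.n)
    obtain ⟨y, h5, h6, h7⟩ := step ⟨x.n + 1, ρ, x.p, x.T, x.E, h1, h3, x.s1, x.s2, x.s3, x.dn, x.up,
      x.pos, x.b1.mono le_rfl (Nat.le_succ _), x.b2, h4⟩ (Denumerable.ofNat Code k)
    exact ⟨y, ⟨h2.trans h5.1, h5.2⟩, h6, h7⟩
  choose F hF using hs
  let g : ℕ → Cd := fun k => Nat.rec x0 (fun k p => F k p) k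
  have hn : ∀ k, k ≤ (g k).n := by
    intro k
    induction k with
    | zero => exact Nat.zero_le _
    | succ k ih => exact lt_of_le_of_lt ih (hF k (g k)).2.1
  have hlen : ∀ k, k ≤ (g k).σ.length := fun k => by
    rw [(g k).hl]; exact (hn k).trans (L7_strict.id_le _)
  obtain ⟨A, hA⟩ := exists_limit (fun k => (g k).σ) (fun k => (hF k (g k)).1.1) hlen
  have hle : ∀ k d, (g (k + d)).le (g k) := by
    intro k d
    induction d with
    | zero => exact ⟨List.prefix_refl _, fun _ h => h, fun _ h => h⟩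
    | succ d ih =>
      have := (hF (k + d) (g (k + d))).1
      exact ⟨ih.1.trans this.1, fun ρ h => ih.2.1 ρ (this.2.1 ρ h),
        fun ρ h => this.2.2 ρ (ih.2.2 ρ h)⟩
  have hgen : ∀ k, (g k).Gen A := by
    intro k
    refine ⟨fun t => ?_, hA k⟩
    have h1 : pre A t <+: (g (k + t)).σ := by
      rw [← hA (k + t)]
      exact pre_prefix _ (le_trans (by omega) (hlen (k + t)))
    exact ⟨(hle k t).2.1 _ ((g (k + t)).dn _ _ h1 (g (k + t)).hT), fun h =>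
      (g (k + t)).sm (.base (g (k + t)).hT ((g (k + t)).up _ _ h1 ((hle k t).2.2 _ h)))⟩
  refine ⟨A, hgen 0, fun c => ?_⟩
  have := (hF (encode c) (g (encode c))).2.2 A (hgen (encode c + 1))
  rwa [Denumerable.ofNat_encode] at this

theorem hif {A : ℕ → Bool} (h : ∀ c, Res c A) : HyperimmuneFree A := by
  intro f hf
  obtain ⟨E, hE, mE, eE⟩ := funLe_iff.1 hf
  have hS : S1 fun y : List Bool × ℕ × Bool => y.2.2 = true ∧ ∃ m, m ≤ y.1.length ∧
      E (y.1, y.2.1, m) :=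
    S1.and (s1_eq (by fun_prop) (by fun_prop)) (S1.ex (S1.and (s1_le (by fun_prop) (by fun_prop))
      (hE.comp (by fun_prop))))
  obtain ⟨c, hc⟩ := s1_code hS
  have hc' : ∀ y : List Bool × ℕ × Bool, (y.2.2 = true ∧ ∃ m, m ≤ y.1.length ∧ E (y.1, y.2.1, m)) ↔
      ∃ r, (c.evaln r (encode y)).isSome = true := by
    intro y
    rw [hc, Part.dom_iff_mem]
    simp only [Nat.Partrec.Code.evaln_complete, Option.isSome_iff_exists]
    exact exists_comm
  have h1 : cpt c (fun _ => true) A := by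
    intro n b
    simp only [← hc', length_pre]
    constructor
    · rintro rfl
      obtain ⟨s, hs⟩ := (eE (n, f n)).1 rfl
      exact ⟨max s (f n), rfl, f n, le_max_right _ _,
        mE _ _ _ (pre_prefix _ (le_max_left _ _)) hs⟩
    · rintro ⟨s, h, -⟩
      exact h.symm
  rcases h c with h2 | ⟨G, hG, h2, h3⟩
  · exact absurd h1 (h2 _)
  refine ⟨fun k => (G k).1, Computable.fst.comp hG, Eventually.of_forall fun n => ?_⟩
  have h4 : ∀ k, k < (G k).2.2 := by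
    intro k
    induction k with
    | zero => have := (h2 0).1; omega
    | succ k ih => have := (h2 k).2; have := (h2 (k + 1)).1; omega
  obtain ⟨v, h5, h6, -⟩ := h3 n
  obtain ⟨t, h7, h8⟩ := W_iff.1 (h6 n (by rw [mem_allStr.1 h5]; exact h4 n))
  rw [length_pre] at h7
  rw [take_pre _ _ _ h7] at h8
  obtain ⟨-, m, h9, h10⟩ := (hc' (pre A t, n, v.getD n false)).2 ⟨_, h8⟩
  simp only [length_pre] at h9
  have h11 : f n = m := (eE (n, m)).2 ⟨t, h10⟩
  change f n ≤ (G n).1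
  omega

theorem par_flip (X : ℕ → Bool) (a t : ℕ) :
    par (pre (fun n => xor (X n) (decide (n = a))) t) =
      (par (pre X t) + if a < t then 1 else 0) % 2 := by
  unfold par
  induction t with
  | zero => simp [pre]
  | succ t ih =>
    rw [pre_succ, pre_succ, List.countP_append, List.countP_append]
    by_cases h : t = a
    · subst h
      cases X t <;> simp at ih ⊢ <;> omega
    · have e : (a < t + 1) = (a < t) := propext (by omega)
      simp only [e]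
      cases X t <;> simp [h] at ih ⊢ <;> omega

theorem lam_par {i j : ℕ → ℕ} (h : ∀ k, i k < j k ∧ j k ≤ i (k + 1)) (n : ℕ) :
    lam {X | ∀ k < n, par (pre X (i k)) = par (pre X (j k))} ≤ (1 / 2) ^ n := by
  have h1 : ∀ k n, k < n → j k ≤ i n := by
    intro k n hk
    induction hk with
    | refl => exact (h k).2
    | @step n _ ih => exact ih.trans ((h n).1.le.trans (h n).2)
  have hM : ∀ n, MeasurableSet {X : ℕ → Bool | ∀ k < n, par (pre X (i k)) = par (pre X (j k))} := by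
    intro n
    convert measurableSet_pre (i n) fun ρ => ∀ k < n, par (ρ.take (i k)) = par (ρ.take (j k))
      using 1
    ext X
    refine forall_congr' fun k => forall_congr' fun hk => ?_
    rw [take_pre _ _ _ (h1 k n hk), take_pre _ _ _ ((h k).1.le.trans (h1 k n hk))]
  induction n with
  | zero => rw [pow_zero]; exact prob_le_one
  | succ n ih =>
    have hm : Measurable (fun (X : ℕ → Bool) m => xor (X m) (decide (m = i n))) :=
      measurable_pi_iff.2 fun m =>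
        (measurable_of_countable fun b : Bool => xor b (decide (m = i n))).comp
          (measurable_pi_apply m)
    have h2 := Measure.map_apply (μ := lam) hm (hM (n + 1))
    rw [lam_xor] at h2
    have h3 : Disjoint {X : ℕ → Bool | ∀ k < n + 1, par (pre X (i k)) = par (pre X (j k))}
        ((fun (X : ℕ → Bool) m => xor (X m) (decide (m = i n))) ⁻¹'
          {X : ℕ → Bool | ∀ k < n + 1, par (pre X (i k)) = par (pre X (j k))}) := by
      rw [Set.disjoint_left]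
      intro X h4 h5
      have h6 := h4 n (Nat.lt_succ_self n)
      have h7 := h5 n (Nat.lt_succ_self n)
      rw [par_flip, par_flip, if_neg (lt_irrefl _), if_pos (h n).1] at h7
      omega
    have h4 := measure_union (μ := lam) h3 (hm (hM (n + 1)))
    rw [← h2, ← two_mul] at h4
    have h5 : 2 * lam {X : ℕ → Bool | ∀ k < n + 1, par (pre X (i k)) = par (pre X (j k))} ≤
        (1 / 2) ^ n := by
      rw [← h4]
      refine le_trans (measure_mono ?_) ih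
      rintro X (h6 | h6) k hk
      · exact h6 k (by omega)
      · have h7 := h6 k (by omega)
        have h8 := h1 k n hk
        have h9 := (h k).1
        rw [par_flip, par_flip, if_neg (by omega), if_neg (by omega)] at h7
        unfold par at h7 ⊢
        omega
    rw [pow_succ, mul_one_div, ENNReal.le_div_iff_mul_le (by simp) (by simp), mul_comm]
    exact h5

theorem no_random {A : ℕ → Bool} (h : ∀ c, Res c A) (R : ℕ → Bool) (hR : TLe R A) :
    ¬ Defs.MLRandom R := by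
  intro hr
  obtain ⟨c, hc⟩ := exists_cpt hR
  rcases h c with h2 | ⟨G, hG, h2, h3⟩
  · exact h2 _ hc
  have hS : S1 fun x : ℕ × List Bool => ∀ k < x.1, (G k).2.2 ≤ x.2.length ∧
      par (x.2.take (G k).2.1) = par (x.2.take (G k).2.2) :=
    S1.all_lt (S1.comp_computable (p := fun y : List Bool × ℕ × ℕ × ℕ => y.2.2.2 ≤ y.1.length ∧
      par (y.1.take y.2.2.1) = par (y.1.take y.2.2.2))
      (f := fun z : (ℕ × List Bool) × ℕ => (z.1.2, G z.2))
      (S1.and (s1_le (by fun_prop) (by fun_prop)) (s1_eq (by fun_prop) (by fun_prop)))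
      ((Primrec.to_comp (by fun_prop)).pair (hG.comp Computable.snd))) (by fun_prop)
  obtain ⟨n, hn⟩ := hr (fun n ρ => ∀ k < n, (G k).2.2 ≤ ρ.length ∧
      par (ρ.take (G k).2.1) = par (ρ.take (G k).2.2)) hS.re (fun n => by
    refine le_trans (measure_mono ?_) (lam_par (i := fun k => (G k).2.1) (j := fun k => (G k).2.2)
      h2 n)
    rintro X ⟨t, ht⟩ k hk
    obtain ⟨h4, h5⟩ := ht k hk
    change _ ≤ (pre X t).length at h4
    change par ((pre X t).take _) = par ((pre X t).take _) at h5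
    rw [length_pre] at h4
    rwa [take_pre _ _ _ h4, take_pre _ _ _ ((h2 k).1.le.trans h4)] at h5)
  refine hn (((List.range n).map fun k => (G k).2.2).sum) fun k hk => ?_
  have h4 : (G k).2.2 ≤ ((List.range n).map fun k => (G k).2.2).sum :=
    List.single_le_sum (by simp) _ (List.mem_map_of_mem (f := fun k => (G k).2.2)
      (List.mem_range.2 hk))
  refine ⟨by simpa using h4, ?_⟩
  change par ((pre R _).take _) = par ((pre R _).take _)
  obtain ⟨v, h5, h6, h7⟩ := h3 k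
  have h8 := Out.sound hc h6
  rw [mem_allStr.1 h5] at h8
  rw [take_pre _ _ _ h4, take_pre _ _ _ ((h2 k).1.le.trans h4), h8, ← h7, ← h8,
    take_pre _ _ _ (h2 k).1.le]

theorem final : ∃ A, Attractive A ∧ HyperimmuneFree A ∧ ∀ R, SetLe R A → ¬ Defs.MLRandom R := by
  obtain ⟨A, h1, h2⟩ := generic ⟨0, [], 1, fun _ => True, P0, rfl, trivial,
    S1.of_prim (PP.const True), S1.of_prim (PP.const _), s1_P0, fun _ _ _ _ => trivial, P0_up,
    Nat.one_pos, bushy_top 0, fun K => ⟨K, (bushy_top K).mono (Nat.le_succ K) le_rfl⟩, fun h => by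
      obtain ⟨n, h1, -⟩ := P0_small h rfl
      have : n + 1 ≤ L7 (n + 1) := L7_strict.id_le _
      simp only [List.length_nil] at h1
      omega⟩
  exact ⟨A, attractive fun t => (h1.1 t).2, hif h2, no_random h2⟩

end Pool.Agent.H100Z.KM
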