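import Pool.Agent.H100Z.Hi
import Pool.Agent.Helper227.VL

set_option autoImplicit false

namespace Pool.Agent.H100Z.HB

open Encodable Pool.Agent.Helper227 Pool.Agent.H100Z.PR Filter Topology
open Pool.Agent.H100Z.Defs MeasureTheory
open Nat.Partrec (Code)
open scoped ENNReal

theorem isClosed_pre' (n : ℕ) (P : List Bool → Prop) : IsClosed {X : ℕ → Bool | P (pre X n)} :=
  CS.isClosed_pre n (fun X => P (pre X n)) fun X Y h h2 => by rwa [← CS.pre_congr h]

theorem isClosed_all (P : List Bool → Prop) : IsClosed {X : ℕ → Bool | ∀ t, P (pre X t)} := by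
  have : {X : ℕ → Bool | ∀ t, P (pre X t)} = ⋂ t, {X | P (pre X t)} := by ext; simp
  rw [this]
  exact isClosed_iInter fun t => isClosed_pre' t P

theorem nested {C : ℕ → Set (ℕ → Bool)} (hc : ∀ k, IsClosed (C k)) (hne : ∀ k, (C k).Nonempty)
    (hd : ∀ k, C (k + 1) ⊆ C k) : ∃ X, ∀ k, X ∈ C k := by
  obtain ⟨X, hX⟩ := IsCompact.nonempty_iInter_of_sequence_nonempty_isCompact_isClosed C hd hne
    (hc 0).isCompact hc
  exact ⟨X, Set.mem_iInter.1 hX⟩

theorem compact_pre {R : List Bool → Prop} (h : ∀ X, ∃ t, R (pre X t)) :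
    ∃ L, ∀ σ ∈ allStr L, ∃ t, t ≤ L ∧ R (σ.take t) := by
  by_contra hc
  push Not at hc
  obtain ⟨X, hX⟩ := nested (C := fun L => {X | ∀ t, (pre X t).length ≤ L → ¬ R (pre X t)})
    (fun L => isClosed_all fun σ => σ.length ≤ L → ¬ R σ) (fun L => by
      obtain ⟨σ, h1, h2⟩ := hc L
      rw [mem_allStr] at h1
      refine ⟨fun i => σ.getD i false, fun t ht => ?_⟩
      rw [length_pre] at ht
      have := take_pre (fun i => σ.getD i false) σ.length t (by omega)
      rw [CS.pre_getD_self] at this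
      rw [← this]
      exact h2 t ht) (fun L X h1 t ht => h1 t (by omega))
  obtain ⟨t, ht⟩ := h X
  exact hX t t (by simp) ht

theorem s1_code {α : Type*} [Primcodable α] {E : α → Prop} (hE : S1 E) :
    ∃ c : Code, ∀ x, E x ↔ (c.eval (encode x)).Dom := by
  obtain ⟨c, hc⟩ := Nat.Partrec.Code.exists_code.1 hE.re
  refine ⟨c, fun x => ?_⟩
  rw [hc]
  simp [Part.assert]

theorem s1_dom {α β : Type*} [Primcodable α] [Primcodable β] {c : α → Code} {f : α → β}
    (hc : Primrec c) (hf : Primrec f) : S1 fun x => ((c x).eval (encode (f x))).Dom :=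
  s1_eval.comp (f := fun x => (c x, encode (f x))) (by fun_prop)

theorem hif_step (c : Code) {E : List Bool → Prop} (hE : S1 E) (hne : ∃ X, ∀ t, ¬ E (pre X t)) :
    ∃ E' : List Bool → Prop, (S1 E' ∧ ∃ X, ∀ t, ¬ E' (pre X t)) ∧ (∀ σ, E σ → E' σ) ∧
      ∀ X, (∀ t, ¬ E' (pre X t)) → ∀ f : ℕ → ℕ,
        (∀ n m, f n = m ↔ ∃ s, (c.eval (encode (pre X s, n, m))).Dom) →
        ∃ g, Computable g ∧ ∀ n, f n ≤ g n := by
  by_cases h : ∃ n : ℕ, ∃ X, ∀ t, ¬ (E (pre X t) ∨ ∃ m : ℕ, (c.eval (encode (pre X t, n, m))).Dom)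
  · obtain ⟨n, h⟩ := h
    refine ⟨fun σ => E σ ∨ ∃ m : ℕ, (c.eval (encode (σ, n, m))).Dom,
      ⟨hE.or (S1.ex (s1_dom (by fun_prop) (by fun_prop))), h⟩, fun σ => Or.inl, ?_⟩
    intro X hX f hf
    obtain ⟨s, hs⟩ := (hf n _).1 rfl
    exact absurd (Or.inr ⟨_, hs⟩) (hX s)
  · push Not at h
    refine ⟨E, ⟨hE, hne⟩, fun _ h => h, fun X hX f hf => ?_⟩
    have hR : S1 fun x : ℕ × ℕ => ∃ L, ∀ σ ∈ allStr L, ∃ t, t ≤ L ∧ (E (σ.take t) ∨
        ∃ m : ℕ, m ≤ x.2 ∧ (c.eval (encode (σ.take t, x.1, m))).Dom) :=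
      S1.ex (S1.all_mem (S1.ex (S1.and (s1_le (by fun_prop) (by fun_prop)) (S1.or
        (hE.comp (by fun_prop)) (S1.ex (S1.and (s1_le (by fun_prop) (by fun_prop))
          (s1_dom (by fun_prop) (by fun_prop))))))) (by fun_prop))
    obtain ⟨g, hg, h1⟩ := s1_choice (R := fun n M => ∃ L, ∀ σ ∈ allStr L, ∃ t, t ≤ L ∧
        (E (σ.take t) ∨ ∃ m : ℕ, m ≤ M ∧ (c.eval (encode (σ.take t, n, m))).Dom)) hR (by
      intro n
      obtain ⟨L, hL⟩ := compact_pre (R := fun σ => E σ ∨ ∃ m : ℕ, (c.eval (encode (σ, n, m))).Dom)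
        (fun Y => by
          obtain ⟨t, ht⟩ := h n Y
          exact ⟨t, by tauto⟩)
      have key : ∀ l : List (List Bool), (∀ σ ∈ l, ∃ t, t ≤ L ∧
          (E (σ.take t) ∨ ∃ m : ℕ, (c.eval (encode (σ.take t, n, m))).Dom)) →
          ∃ M, ∀ σ ∈ l, ∃ t, t ≤ L ∧
          (E (σ.take t) ∨ ∃ m : ℕ, m ≤ M ∧ (c.eval (encode (σ.take t, n, m))).Dom) := by
        intro l
        induction l with
        | nil => simp
        | cons τ l ih =>
          intro h2
          obtain ⟨M, hM⟩ := ih fun σ hσ => h2 σ (List.mem_cons_of_mem _ hσ)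
          obtain ⟨t, ht, h3⟩ := h2 τ List.mem_cons_self
          obtain ⟨M', hM'⟩ : ∃ M', E (τ.take t) ∨
              ∃ m : ℕ, m ≤ M' ∧ (c.eval (encode (τ.take t, n, m))).Dom := by
            rcases h3 with h3 | ⟨m, h3⟩
            · exact ⟨0, Or.inl h3⟩
            · exact ⟨m, Or.inr ⟨m, le_rfl, h3⟩⟩
          refine ⟨max M M', fun σ hσ => ?_⟩
          rcases List.mem_cons.1 hσ with rfl | hσ
          · exact ⟨t, ht, hM'.imp id fun ⟨m, h4, h5⟩ => ⟨m, by omega, h5⟩⟩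
          · obtain ⟨t', h4, h5⟩ := hM σ hσ
            exact ⟨t', h4, h5.imp id fun ⟨m, h4, h5⟩ => ⟨m, by omega, h5⟩⟩
      obtain ⟨M, hM⟩ := key _ hL
      exact ⟨M, L, hM⟩)
    refine ⟨g, hg, fun n => ?_⟩
    obtain ⟨L, hL⟩ := h1 n
    obtain ⟨t, ht, h2⟩ := hL (pre X L) (mem_allStr.2 (by simp))
    rw [take_pre _ _ _ ht] at h2
    rcases h2 with h2 | ⟨m, h2, h3⟩
    · exact absurd h2 (hX t)
    · rw [(hf n m).2 ⟨t, h3⟩]; exact h2

/-- the hyperimmune-free basis theorem -/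
theorem hif_basis {E : List Bool → Prop} (hE : S1 E) (hne : ∃ X, ∀ t, ¬ E (pre X t)) :
    ∃ X, (∀ t, ¬ E (pre X t)) ∧ ∀ f, FunLe f X → ∃ g, Computable g ∧ ∀ n, f n ≤ g n := by
  have hs : ∀ (k : ℕ) (p : {E : List Bool → Prop // S1 E ∧ ∃ X, ∀ t, ¬ E (pre X t)}),
      ∃ p' : {E : List Bool → Prop // S1 E ∧ ∃ X, ∀ t, ¬ E (pre X t)}, (∀ σ, p.1 σ → p'.1 σ) ∧
      ∀ X, (∀ t, ¬ p'.1 (pre X t)) → ∀ f : ℕ → ℕ, (∀ n m, f n = m ↔
        ∃ s, ((Denumerable.ofNat Code k).eval (encode (pre X s, n, m))).Dom) →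
        ∃ g, Computable g ∧ ∀ n, f n ≤ g n := by
    intro k p
    obtain ⟨E', h1, h2⟩ := hif_step (Denumerable.ofNat Code k) p.2.1 p.2.2
    exact ⟨⟨E', h1⟩, h2⟩
  choose F hF using hs
  let g : ℕ → {E : List Bool → Prop // S1 E ∧ ∃ X, ∀ t, ¬ E (pre X t)} := fun k =>
    Nat.rec ⟨E, hE, hne⟩ (fun k p => F k p) k
  obtain ⟨X, hX⟩ := nested (C := fun k => {X | ∀ t, ¬ (g k).1 (pre X t)})
    (fun k => isClosed_all fun σ => ¬ (g k).1 σ) (fun k => (g k).2.2)
    (fun k X h t h2 => h t ((hF k (g k)).1 _ h2))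
  refine ⟨X, hX 0, fun f hf => ?_⟩
  obtain ⟨G, hG, _, eG⟩ := funLe_iff.1 hf
  obtain ⟨c, hc⟩ := s1_code hG
  refine (hF (encode c) (g (encode c))).2 X (hX (encode c + 1)) f fun n m => ?_
  rw [Denumerable.ofNat_encode]
  exact (eG (n, m)).trans (exists_congr fun s => hc _)

theorem ae_mlr' (X : ℕ → Bool) : ∀ᵐ Z ∂lam, MLR X Z := by
  obtain ⟨E, hE, mE, hEm, hEU⟩ := exists_universal
  have h1 : Tendsto (fun n : ℕ => (1 / 2 : ℝ≥0∞) ^ n) atTop (𝓝 0) :=
    ENNReal.tendsto_pow_atTop_nhds_zero_of_lt_one (by norm_num)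
  have h0 : lam {Z | ¬ MLR X Z} = 0 := by
    refine le_antisymm (ge_of_tendsto' h1 fun n => le_trans (measure_mono ?_) (hEm X n))
      (by positivity)
    intro Z hZ
    simp only [Set.mem_ofPred_eq, hEU, not_exists, not_not] at hZ
    exact hZ n
  exact h0

theorem exists_hif_random : ∃ a, MLR (fun _ => false) a ∧
    ∀ f, FunLe f a → ∃ g, Computable g ∧ ∀ n, f n ≤ g n := by
  obtain ⟨E, hE, mE, hEm, hEU⟩ := exists_universal
  obtain ⟨Z, hZ⟩ := (ae_mlr' fun _ => false).exists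
  obtain ⟨n, hn⟩ := (hEU _ _).1 hZ
  have hS : S1 fun σ : List Bool => ∃ s, E (pre (fun _ => false) s, n, σ) :=
    s1_of_si_zero (si_of_pre (E := fun y : List Bool × List Bool => E (y.1, n, y.2))
      (hE.comp (by fun_prop)))
  obtain ⟨a, h1, h2⟩ := hif_basis hS ⟨Z, fun t ⟨s, hs⟩ => hn ⟨s, t, hs⟩⟩
  exact ⟨a, (hEU _ _).2 ⟨n, fun ⟨s, t, h⟩ => h1 t ⟨s, h⟩⟩, h2⟩

theorem not_aed_zero : ¬ AEDominating fun _ => false := by
  intro h
  obtain ⟨q, hq, mq, eq⟩ := pi2_form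
  have h1 : SI (jump fun _ => false) fun x => jump (jump fun _ => false) x = false :=
    (high_core h hq mq).of_eq fun x => (eq x).symm
  obtain ⟨e, he⟩ := ceIn_iff_exists_WE.1
    ((SI.iff_ceIn (W := {x | jump (jump fun _ => false) x = false})).2 h1)
  have h2 : jump (jump fun _ => false) e = false ↔ e ∈ WE (jump fun _ => false) e := by
    rw [← he]; rfl
  rw [← jump_eq_true] at h2
  cases h3 : jump (jump fun _ => false) e <;> simp [h3] at h2

/-- violation of diagonal noncomputability by the odd bits, or of the even bits -/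
def Viol (α τ : List Bool) : Prop :=
  (∃ k, (k < α.length ∧ 2 * k < τ.length) ∧ τ.getD (2 * k) false ≠ α.getD k false) ∨
  ∃ e r, 2 * e + 1 < τ.length ∧
    (Denumerable.ofNat Code e).evaln r e = some (τ.getD (2 * e + 1) false).toNat

theorem s1_Viol : S1 fun x : List Bool × List Bool => Viol x.1 x.2 := by
  unfold Viol
  exact S1.or (S1.ex (S1.and (S1.and (s1_lt (by fun_prop) (by fun_prop))
    (s1_lt (by fun_prop) (by fun_prop))) (s1_ne (by fun_prop) (by fun_prop))))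
    (S1.ex (S1.ex (S1.and (s1_lt (by fun_prop) (by fun_prop)) (s1_eq (by fun_prop) (by fun_prop)))))

theorem viol_pre {c Z : ℕ → Bool} {s t : ℕ} : Viol (pre c s) (pre Z t) ↔
    (∃ k, (k < s ∧ 2 * k < t) ∧ Z (2 * k) ≠ c k) ∨
    ∃ e r, 2 * e + 1 < t ∧ (Denumerable.ofNat Code e).evaln r e = some (Z (2 * e + 1)).toNat := by
  unfold Viol
  simp only [length_pre]
  refine or_congr (exists_congr fun k => and_congr_right fun h => ?_)
    (exists_congr fun e => exists_congr fun r => and_congr_right fun h => ?_)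
  · rw [pre_getD _ _ _ _ h.1, pre_getD _ _ _ _ h.2]
  · rw [pre_getD _ _ _ _ h]

/-- randomness preservation for the class of diagonally noncomputable sets above `c` -/
theorem exists_pa {a c : ℕ → Bool} (h : MLR c a) : ∃ Z, MLR Z a ∧ TLe c Z ∧
    ∀ (e : Code) y, y ∈ e.eval (encode e) → (Z (2 * encode e + 1)).toNat ≠ y := by
  classical
  obtain ⟨E, hE, mE, hEm, hEU⟩ := exists_universal
  let F : List Bool × ℕ × List Bool → Prop := fun x => ∃ L, ∀ τ ∈ allStr L,
    Viol x.1 τ ∨ E (τ, x.2.1, x.2.2)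
  have hF : S1 F := S1.ex (S1.all_mem (S1.or (s1_Viol.comp
    (f := fun z : ((List Bool × ℕ × List Bool) × ℕ) × List Bool => (z.1.1.1, z.2)) (by fun_prop))
    (hE.comp (by fun_prop))) (by fun_prop))
  let p : ℕ → Bool := fun e => decide (0 ∈ (Denumerable.ofNat Code e).eval e)
  have h0 : ∀ s t, ¬ Viol (pre c s) (pre (join c p) t) := by
    intro s t
    rw [viol_pre]
    rintro (⟨k, _, h1⟩ | ⟨e, r, _, h1⟩)
    · exact h1 (join_even _ _ _)
    · rw [join_odd] at h1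
      have h2 := Nat.Partrec.Code.evaln_sound h1
      by_cases h3 : 0 ∈ (Denumerable.ofNat Code e).eval e
      · have := Part.mem_unique h2 h3
        simp [p, h3] at this
      · apply h3
        simpa [p, h3] using h2
  have hm : ∀ n, lam (UE F c n) ≤ (1 / 2) ^ n := by
    intro n
    refine le_trans (measure_mono ?_) (hEm (join c p) n)
    rintro X ⟨s, t, L, hL⟩
    exact ⟨L, t, (hL _ (mem_allStr.2 (length_pre _ _))).resolve_left (h0 s L)⟩
  have h1 := h _ (isMLTest_of_E hF hm)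
  simp only [Set.mem_iInter, not_forall] at h1
  obtain ⟨n, hn⟩ := h1
  have h2 : ∃ Z, ∀ t, ¬ (Viol (pre c (pre Z t).length) (pre Z t) ∨
      E (pre Z t, n, pre a (pre Z t).length)) := by
    by_contra hc
    push Not at hc
    obtain ⟨L, hL⟩ := compact_pre (R := fun τ => Viol (pre c τ.length) τ ∨
      E (τ, n, pre a τ.length)) (fun Z => by
        obtain ⟨t, ht⟩ := hc Z
        exact ⟨t, by tauto⟩)
    refine hn ⟨L, L, L, fun τ hτ => ?_⟩
    obtain ⟨t, ht, h3⟩ := hL τ hτ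
    rw [mem_allStr] at hτ
    have e1 : τ = pre (fun i => τ.getD i false) L := by rw [← hτ, CS.pre_getD_self]
    rw [e1, take_pre _ _ _ ht, length_pre] at h3
    rw [e1]
    rcases h3 with h3 | h3
    · left
      rw [viol_pre] at h3 ⊢
      rcases h3 with ⟨k, h4, h5⟩ | ⟨e, r, h4, h5⟩
      · exact Or.inl ⟨k, by omega, h5⟩
      · exact Or.inr ⟨e, r, by omega, h5⟩
    · exact Or.inr (mE _ _ _ _ _ (pre_prefix _ ht) (pre_prefix _ ht) h3)
  obtain ⟨Z, hZ⟩ := h2
  simp only [length_pre, viol_pre, not_or] at hZ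
  refine ⟨Z, (hEU _ _).2 ⟨n, ?_⟩, ?_, ?_⟩
  · rintro ⟨s, t, h3⟩
    exact (hZ (max s t)).2 (mE _ _ _ _ _ (pre_prefix _ (le_max_left _ _))
      (pre_prefix _ (le_max_right _ _)) h3)
  · refine tLe_of_computable (f := fun k => 2 * k) (Primrec.to_comp (by fun_prop)) fun k => ?_
    by_contra h3
    exact (hZ (2 * k + 1)).1.1 ⟨k, by omega, fun h4 => h3 h4.symm⟩
  · intro e y hy h3
    obtain ⟨r, hr⟩ := Nat.Partrec.Code.evaln_complete.1 hy
    refine (hZ (2 * encode e + 2)).1.2 ⟨encode e, r, by omega, ?_⟩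
    rw [Denumerable.ofNat_encode, h3]
    exact hr

theorem lam_pre_count (n : ℕ) (P : List Bool → Bool) :
    lam {X : ℕ → Bool | P (pre X n) = true} = ((allStr n).countP P : ℕ) * (1 / 2) ^ n := by
  classical
  have h := lam_finset ((allStr n).filter P).toFinset n (by
    intro σ hσ
    simp only [List.mem_toFinset, List.mem_filter, mem_allStr] at hσ
    exact hσ.1)
  rw [List.toFinset_card_of_nodup ((nodup_allStr n).filter _)] at h
  have e : {X : ℕ → Bool | pre X n ∈ ((allStr n).filter P).toFinset} =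
      {X : ℕ → Bool | P (pre X n) = true} := by
    ext X
    simp [mem_allStr]
  rw [e] at h
  rw [h, List.countP_eq_length_filter]

theorem sum_three (n : ℕ) : ((allStr n).map fun σ => 3 ^ σ.countP id).sum = 4 ^ n := by
  induction n with
  | zero => simp [allStr]
  | succ n ih =>
    rw [pow_succ, ← ih]
    simp only [allStr]
    induction allStr n with
    | nil => simp
    | cons τ l ih2 =>
      simp only [List.flatMap_cons, List.map_append, List.sum_append, ih2, List.map_cons,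
        List.sum_cons, List.map_nil, List.sum_nil, List.countP_cons]
      simp
      ring

theorem countP_mul_le {α : Type*} (l : List α) (P : α → Bool) (w : α → ℕ) (M : ℕ)
    (h : ∀ a ∈ l, P a = true → M ≤ w a) : l.countP P * M ≤ (l.map w).sum := by
  induction l with
  | nil => simp
  | cons a l ih =>
    have h1 := ih fun b hb => h b (List.mem_cons_of_mem _ hb)
    have h2 := h a List.mem_cons_self
    rw [List.countP_cons, List.map_cons, List.sum_cons]
    split_ifs with h3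
    · have := h2 h3
      nlinarith
    · simp only [add_zero]; omega

theorem lam_many (k : ℕ) :
    lam {X : ℕ → Bool | decide (6 * k ≤ (pre X (8 * k)).countP id) = true} ≤ (1 / 2) ^ k := by
  rw [lam_pre_count (8 * k) (fun σ => decide (6 * k ≤ σ.countP id)), ennreal_aux]
  have h1 := countP_mul_le (allStr (8 * k)) (fun σ => decide (6 * k ≤ σ.countP id))
    (fun σ => 3 ^ σ.countP id) (3 ^ (6 * k)) fun σ _ h =>
      Nat.pow_le_pow_right (by norm_num) (by simpa using h)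
  rw [sum_three] at h1
  have h2 : 4 ^ (8 * k) * 2 ^ k ≤ 2 ^ (8 * k) * 3 ^ (6 * k) := by
    rw [pow_mul, pow_mul, pow_mul, ← mul_pow, ← mul_pow]
    exact Nat.pow_le_pow_left (by norm_num) _
  have h3 : 0 < 3 ^ (6 * k) := by positivity
  refine Nat.le_of_mul_le_mul_right ?_ h3
  nlinarith [Nat.mul_le_mul_right (2 ^ k) h1]

theorem mlr_lln {D X Z : ℕ → Bool} (hZ : MLR D Z) (hX : TLe X D) : delta Z X ≤ 7 / 8 := by
  have hW := hZ.xor_of hX
  let F : List Bool × ℕ × List Bool → Prop := fun x => ∃ k, (x.2.1 < k ∧ x.2.2.length = 8 * k) ∧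
    6 * k ≤ x.2.2.countP id
  have hF : S1 F := S1.ex (S1.and (S1.and (s1_lt (by fun_prop) (by fun_prop))
    (s1_eq (by fun_prop) (by fun_prop))) (s1_le (by fun_prop)
      (pcountP (f := fun x : (List Bool × ℕ × List Bool) × ℕ => x.1.2.2) (g := fun _ => id)
        (by fun_prop) Primrec.snd)))
  have hm : ∀ n, lam (UE F D n) ≤ (1 / 2) ^ n := by
    intro n
    rw [← tsum_half_pow n]
    refine le_trans (measure_mono (t := ⋃ j, {X : ℕ → Bool |
      decide (6 * (n + j + 1) ≤ (pre X (8 * (n + j + 1))).countP id) = true}) ?_)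
      ((measure_iUnion_le _).trans (ENNReal.tsum_le_tsum fun j => lam_many _))
    rintro Y ⟨s, t, k, ⟨h1, h2⟩, h3⟩
    simp only [length_pre] at h1 h2 h3
    obtain ⟨j, rfl⟩ := Nat.exists_eq_add_of_lt h1
    subst h2
    exact Set.mem_iUnion.2 ⟨j, by simpa using h3⟩
  have h1 := hW _ (isMLTest_of_E hF hm)
  simp only [Set.mem_iInter, not_forall] at h1
  obtain ⟨n, hn⟩ := h1
  have h2 : ∀ N, CS.cnt Z X 0 N = (pre (fun n => xor (Z n) (X n)) N).countP id := by
    intro N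
    simp [CS.cnt, pre, List.countP_map]
  have h3 : ∀ k, n < k → CS.cnt Z X 0 (8 * k) < 6 * k := by
    intro k hk
    by_contra h4
    exact hn ⟨0, 8 * k, k, ⟨hk, by simp⟩, by rw [← h2]; omega⟩
  have h4 : ∀ N M, N ≤ M → CS.cnt Z X 0 N ≤ CS.cnt Z X 0 M := by
    intro N M h
    induction h with
    | refl => exact le_rfl
    | step _ ih => rw [CS.cnt_succ]; omega
  refine delta_le_of fun ε hε => ?_
  filter_upwards [eventually_ge_atTop (8 * n + 100)] with N hN
  have h5 := h3 (N / 8 + 1) (by omega)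
  have h6 := h4 N (8 * (N / 8 + 1)) (by omega)
  have h7 : 8 * CS.cnt Z X 0 N ≤ 7 * N := by omega
  have h8 : (8 : ℝ) * CS.cnt Z X 0 N ≤ 7 * N := by exact_mod_cast h7
  have h9 : (0 : ℝ) < N := by exact_mod_cast (by omega : 0 < N)
  rw [CS.rho_eq, div_le_iff₀ h9]
  nlinarith

theorem computable_funLe {g : ℕ → ℕ} (hg : Computable g) (A : ℕ → Bool) : FunLe g A := by
  rw [funLe_iff]
  exact SI.of_s1 (S1.comp_computable (p := fun x : ℕ × ℕ => x.1 = x.2)
    (f := fun x : ℕ × ℕ => (g x.1, x.2)) (s1_eq (by fun_prop) (by fun_prop))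
    ((hg.comp Computable.fst).pair Computable.snd))

theorem pa_main : ∃ a b : ℕ → Bool,
    (∀ f, FunLe f a → ∃ g, Computable g ∧ ∀ n, f n ≤ g n) ∧
    (¬ ∀ f, FunLe f b → ∃ g, Computable g ∧ ∀ n, f n ≤ g n) ∧
    (∃ f, FunLe f b ∧ (∀ n, f n ≤ 1) ∧ ∀ (e : Code) y, y ∈ e.eval (encode e) → f (encode e) ≠ y) ∧
    (∀ A, TLe A a → ∃ B, SetEquiv B b ∧ delta A B ≤ 7 / 8) ∧
    (∀ B, TLe B b → ∃ A, SetEquiv A a ∧ delta A B ≤ 7 / 8) := by
  obtain ⟨a, ha, hhif⟩ := exists_hif_random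
  have h1 : ∃ c, MLR a c ∧ ¬ ∀ f : ℕ → ℕ, FunLe f c →
      ∃ g : ℕ → ℕ, FunLe g (fun _ => false) ∧ ∀ᶠ n in atTop, f n ≤ g n := by
    by_contra hc
    push Not at hc
    apply not_aed_zero
    have : ∀ᵐ B ∂lam, ∀ f : ℕ → ℕ, FunLe f B →
        ∃ g : ℕ → ℕ, FunLe g (fun _ => false) ∧ ∀ᶠ n in atTop, f n ≤ g n := by
      filter_upwards [ae_mlr' a] with B hB using hc B hB
    exact this
  obtain ⟨c, hc, hhi⟩ := h1
  have h2 : MLR c a :=
    MLR.mono (tLe_join_right _ _) (ha.join_of (hc.mono (join_tLe (zero_tLe a) (TLe.refl a)))).symm.right_rel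
  obtain ⟨b, hb, hcb, hd⟩ := exists_pa h2
  refine ⟨a, b, hhif, fun h => hhi fun f hf => ?_, ⟨fun n => (b (2 * n + 1)).toNat, ?_, ?_, hd⟩,
    ?_, ?_⟩
  · obtain ⟨g, hg, h3⟩ := h f (funLe_trans hf hcb)
    exact ⟨g, computable_funLe hg _, Eventually.of_forall h3⟩
  · exact tLe_of_computable (A := fun n => b (2 * n + 1)) (f := fun n => 2 * n + 1)
      (Primrec.to_comp (by fun_prop)) fun _ => rfl
  · exact fun n => Bool.toNat_le _
  · intro A hA
    obtain ⟨B, h3, h4⟩ := HD.exists_coding (X := c) (Y := b) hcb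
    refine ⟨B, h3, ?_⟩
    rw [delta_symm]
    have : delta B A = delta c A := h4 A
    rw [this]
    exact mlr_lln hc hA
  · intro B hB
    exact ⟨a, ⟨TLe.refl a, TLe.refl a⟩, mlr_lln hb hB⟩

end Pool.Agent.H100Z.HB
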