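import Pool.Agent.Helper227.Sacks
import Pool.Agent.Helper227.RD.Jump

set_option autoImplicit false

namespace Pool.Agent.H100Z.PR

open Encodable Pool.Agent.Helper227
open Nat.Partrec (Code)

attribute [fun_prop] Primrec

section basic

variable {α β γ δ : Type*} [Primcodable α] [Primcodable β] [Primcodable γ] [Primcodable δ]

@[fun_prop] theorem pid : Primrec (fun x : α => x) := Primrec.id
@[fun_prop] theorem pconst (b : β) : Primrec (fun _ : α => b) := Primrec.const b
@[fun_prop] theorem pcomp {f : β → γ} {g : α → β} (hf : Primrec f) (hg : Primrec g) :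
    Primrec (fun x => f (g x)) := hf.comp hg
@[fun_prop] theorem pfst {f : α → β × γ} (hf : Primrec f) :
    Primrec (fun x => (f x).1) := Primrec.fst.comp hf
@[fun_prop] theorem psnd {f : α → β × γ} (hf : Primrec f) :
    Primrec (fun x => (f x).2) := Primrec.snd.comp hf
@[fun_prop] theorem ppair {f : α → β} {g : α → γ} (hf : Primrec f) (hg : Primrec g) :
    Primrec (fun x => (f x, g x)) := hf.pair hg
@[fun_prop] theorem padd {f g : α → ℕ} (hf : Primrec f) (hg : Primrec g) :
    Primrec (fun x => f x + g x) := Primrec.nat_add.comp hf hg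
@[fun_prop] theorem psub {f g : α → ℕ} (hf : Primrec f) (hg : Primrec g) :
    Primrec (fun x => f x - g x) := Primrec.nat_sub.comp hf hg
@[fun_prop] theorem pmul {f g : α → ℕ} (hf : Primrec f) (hg : Primrec g) :
    Primrec (fun x => f x * g x) := Primrec.nat_mul.comp hf hg
@[fun_prop] theorem pdiv {f g : α → ℕ} (hf : Primrec f) (hg : Primrec g) :
    Primrec (fun x => f x / g x) := Primrec.nat_div.comp hf hg
@[fun_prop] theorem pmod {f g : α → ℕ} (hf : Primrec f) (hg : Primrec g) :
    Primrec (fun x => f x % g x) := Primrec.nat_mod.comp hf hg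
@[fun_prop] theorem ppow {f g : α → ℕ} (hf : Primrec f) (hg : Primrec g) :
    Primrec (fun x => f x ^ g x) := primrec_pow.comp hf hg
@[fun_prop] theorem pmin {f g : α → ℕ} (hf : Primrec f) (hg : Primrec g) :
    Primrec (fun x => min (f x) (g x)) := Primrec.nat_min.comp hf hg
@[fun_prop] theorem pmax {f g : α → ℕ} (hf : Primrec f) (hg : Primrec g) :
    Primrec (fun x => max (f x) (g x)) := Primrec.nat_max.comp hf hg
@[fun_prop] theorem psucc {f : α → ℕ} (hf : Primrec f) :
    Primrec (fun x => Nat.succ (f x)) := Primrec.succ.comp hf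
@[fun_prop] theorem psqrt {f : α → ℕ} (hf : Primrec f) :
    Primrec (fun x => Nat.sqrt (f x)) := Primrec.nat_sqrt.comp hf
@[fun_prop] theorem pappend {f g : α → List β} (hf : Primrec f) (hg : Primrec g) :
    Primrec (fun x => f x ++ g x) := Primrec.list_append.comp hf hg
@[fun_prop] theorem pcons {f : α → β} {g : α → List β} (hf : Primrec f) (hg : Primrec g) :
    Primrec (fun x => f x :: g x) := Primrec.list_cons.comp hf hg
@[fun_prop] theorem plength {f : α → List β} (hf : Primrec f) :
    Primrec (fun x => (f x).length) := Primrec.list_length.comp hf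
@[fun_prop] theorem pgetElem {f : α → List β} {g : α → ℕ} (hf : Primrec f)
    (hg : Primrec g) : Primrec (fun x => (f x)[g x]?) :=
  Primrec.list_getElem?.comp hf hg
@[fun_prop] theorem pgetD {f : α → List β} {g : α → ℕ} (d : β) (hf : Primrec f)
    (hg : Primrec g) : Primrec (fun x => (f x).getD (g x) d) :=
  (Primrec.list_getD d).comp hf hg
@[fun_prop] theorem ptake {f : α → List β} {g : α → ℕ} (hf : Primrec f)
    (hg : Primrec g) : Primrec (fun x => (f x).take (g x)) :=
  Primrec.list_take.comp hg hf
@[fun_prop] theorem pdrop {f : α → List β} {g : α → ℕ} (hf : Primrec f)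
    (hg : Primrec g) : Primrec (fun x => (f x).drop (g x)) :=
  Primrec.list_drop.comp hg hf
@[fun_prop] theorem prange {g : α → ℕ} (hg : Primrec g) : Primrec (fun x => List.range (g x)) :=
  Primrec.list_range.comp hg
@[fun_prop] theorem pallStr {g : α → ℕ} (hg : Primrec g) : Primrec (fun x => allStr (g x)) :=
  primrec_allStr.comp hg
@[fun_prop] theorem pflatten {f : α → List (List β)} (hf : Primrec f) :
    Primrec (fun x => (f x).flatten) := Primrec.list_flatten.comp hf
@[fun_prop] theorem pencode {f : α → β} (hf : Primrec f) :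
    Primrec (fun x => encode (f x)) := Primrec.encode.comp hf
@[fun_prop] theorem pdecode {f : α → ℕ} (hf : Primrec f) :
    Primrec (fun x => (decode (f x) : Option β)) := Primrec.decode.comp hf
@[fun_prop] theorem pofNat {f : α → ℕ} (hf : Primrec f) :
    Primrec (fun x => Denumerable.ofNat Code (f x)) := (Primrec.ofNat Code).comp hf
@[fun_prop] theorem psome {f : α → β} (hf : Primrec f) :
    Primrec (fun x => some (f x)) := Primrec.option_some.comp hf
@[fun_prop] theorem pisSome {f : α → Option β} (hf : Primrec f) :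
    Primrec (fun x => (f x).isSome) := Primrec.option_isSome.comp hf
@[fun_prop] theorem pogetD {f : α → Option β} {g : α → β} (hf : Primrec f) (hg : Primrec g) :
    Primrec (fun x => (f x).getD (g x)) := Primrec.option_getD.comp hf hg
@[fun_prop] theorem pnot {f : α → Bool} (hf : Primrec f) :
    Primrec (fun x => !(f x)) := Primrec.not.comp hf
@[fun_prop] theorem pand {f g : α → Bool} (hf : Primrec f) (hg : Primrec g) :
    Primrec (fun x => f x && g x) := Primrec.and.comp hf hg
@[fun_prop] theorem por {f g : α → Bool} (hf : Primrec f) (hg : Primrec g) :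
    Primrec (fun x => f x || g x) := Primrec.or.comp hf hg
@[fun_prop] theorem pxor {f g : α → Bool} (hf : Primrec f) (hg : Primrec g) :
    Primrec (fun x => xor (f x) (g x)) := (Primrec.dom_bool₂ xor).comp hf hg
@[fun_prop] theorem ptoNat {f : α → Bool} (hf : Primrec f) :
    Primrec (fun x => (f x).toNat) := (Primrec.dom_bool Bool.toNat).comp hf
@[fun_prop] theorem punpair {f : α → ℕ} (hf : Primrec f) :
    Primrec (fun x => (f x).unpair) := Primrec.unpair.comp hf
@[fun_prop] theorem pnatpair {f g : α → ℕ} (hf : Primrec f) (hg : Primrec g) :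
    Primrec (fun x => Nat.pair (f x) (g x)) := Primrec₂.natPair.comp hf hg
@[fun_prop] theorem pcond {c : α → Bool} {f g : α → β} (hc : Primrec c) (hf : Primrec f)
    (hg : Primrec g) : Primrec (fun x => bif c x then f x else g x) :=
  Primrec.cond hc hf hg
@[fun_prop] theorem pevaln {k : α → ℕ} {c : α → Code} {n : α → ℕ} (hk : Primrec k)
    (hc : Primrec c) (hn : Primrec n) : Primrec (fun x => (c x).evaln (k x) (n x)) :=
  Nat.Partrec.Code.primrec_evaln.comp ((hk.pair hc).pair hn)
@[fun_prop] theorem pmap {f : α → List β} {g : α → β → γ} (hf : Primrec f)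
    (hg : Primrec fun x : α × β => g x.1 x.2) : Primrec (fun x => (f x).map (g x)) :=
  Primrec.list_map hf hg
@[fun_prop] theorem pflatMap {f : α → List β} {g : α → β → List γ} (hf : Primrec f)
    (hg : Primrec fun x : α × β => g x.1 x.2) : Primrec (fun x => (f x).flatMap (g x)) :=
  Primrec.list_flatMap hf hg
@[fun_prop] theorem pfilter {f : α → List β} {g : α → β → Bool} (hf : Primrec f)
    (hg : Primrec fun x : α × β => g x.1 x.2) : Primrec (fun x => (f x).filter (g x)) := by
  have h : Primrec (fun x => (f x).filterMap (fun b => bif g x b then some b else none)) :=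
    Primrec.listFilterMap hf (Primrec.cond hg (Primrec.option_some.comp Primrec.snd)
      (Primrec.const none))
  refine h.of_eq fun x => ?_
  induction f x with
  | nil => rfl
  | cons b l ih => cases hb : g x b <;> simp [List.filter_cons, List.filterMap_cons, hb, ih]
@[fun_prop] theorem pcountP {f : α → List β} {g : α → β → Bool} (hf : Primrec f)
    (hg : Primrec fun x : α × β => g x.1 x.2) : Primrec (fun x => (f x).countP (g x)) :=
  (plength (pfilter hf hg)).of_eq fun x => (List.countP_eq_length_filter).symm
@[fun_prop] theorem pall {f : α → List β} {g : α → β → Bool} (hf : Primrec f)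
    (hg : Primrec fun x : α × β => g x.1 x.2) : Primrec (fun x => (f x).all (g x)) := by
  have h : Primrec (fun x => (f x).foldr (fun b s => g x b && s) true) :=
    Primrec.list_foldr (h := fun x (p : β × Bool) => g x p.1 && p.2) hf (Primrec.const true)
      (by unfold Primrec₂; fun_prop)
  refine h.of_eq fun x => ?_
  induction f x with
  | nil => rfl
  | cons b l ih => simp [ih]
@[fun_prop] theorem pany {f : α → List β} {g : α → β → Bool} (hf : Primrec f)
    (hg : Primrec fun x : α × β => g x.1 x.2) : Primrec (fun x => (f x).any (g x)) := by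
  have h : Primrec (fun x => (f x).foldr (fun b s => g x b || s) false) :=
    Primrec.list_foldr (h := fun x (p : β × Bool) => g x p.1 || p.2) hf (Primrec.const false)
      (by unfold Primrec₂; fun_prop)
  refine h.of_eq fun x => ?_
  induction f x with
  | nil => rfl
  | cons b l ih => simp [ih]
@[fun_prop] theorem psum {f : α → List ℕ} (hf : Primrec f) : Primrec (fun x => (f x).sum) := by
  have h : Primrec (fun x => (f x).foldr (fun b s => b + s) 0) :=
    Primrec.list_foldr (h := fun _ (p : ℕ × ℕ) => p.1 + p.2) hf (Primrec.const 0)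
      (by unfold Primrec₂; fun_prop)
  refine h.of_eq fun x => ?_
  induction f x with
  | nil => rfl
  | cons b l ih => simp [ih]
@[fun_prop] theorem pdeq [DecidableEq β] {f g : α → β} (hf : Primrec f) (hg : Primrec g) :
    Primrec (fun x => decide (f x = g x)) := (Primrec.eq.comp hf hg).decide
@[fun_prop] theorem pdle {f g : α → ℕ} (hf : Primrec f) (hg : Primrec g) :
    Primrec (fun x => decide (f x ≤ g x)) := (Primrec.nat_le.comp hf hg).decide
@[fun_prop] theorem pdlt {f g : α → ℕ} (hf : Primrec f) (hg : Primrec g) :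
    Primrec (fun x => decide (f x < g x)) := (Primrec.nat_lt.comp hf hg).decide

theorem pp_eq {f g : α → β} (hf : Primrec f) (hg : Primrec g) :
    PrimrecPred (fun x => f x = g x) := Primrec.eq.comp hf hg
theorem pp_ne {f g : α → β} (hf : Primrec f) (hg : Primrec g) :
    PrimrecPred (fun x => f x ≠ g x) := (Primrec.eq.comp hf hg).not
theorem pp_le {f g : α → ℕ} (hf : Primrec f) (hg : Primrec g) :
    PrimrecPred (fun x => f x ≤ g x) := Primrec.nat_le.comp hf hg
theorem pp_lt {f g : α → ℕ} (hf : Primrec f) (hg : Primrec g) :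
    PrimrecPred (fun x => f x < g x) := Primrec.nat_lt.comp hf hg
theorem pp_bool {f : α → Bool} (hf : Primrec f) : PrimrecPred (fun x => f x = true) :=
  Primrec.eq.comp hf (Primrec.const true)

theorem s1_eq {f g : α → β} (hf : Primrec f) (hg : Primrec g) : S1 (fun x => f x = g x) :=
  S1.of_prim (pp_eq hf hg)
theorem s1_ne {f g : α → β} (hf : Primrec f) (hg : Primrec g) : S1 (fun x => f x ≠ g x) :=
  S1.of_prim (pp_ne hf hg)
theorem s1_le {f g : α → ℕ} (hf : Primrec f) (hg : Primrec g) : S1 (fun x => f x ≤ g x) :=
  S1.of_prim (pp_le hf hg)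
theorem s1_lt {f g : α → ℕ} (hf : Primrec f) (hg : Primrec g) : S1 (fun x => f x < g x) :=
  S1.of_prim (pp_lt hf hg)
theorem s1_bool {f : α → Bool} (hf : Primrec f) : S1 (fun x => f x = true) :=
  S1.of_prim (pp_bool hf)

/-- A predicate which is Sigma-one in initial segments of `B` is Sigma-one relative to `B`. -/
theorem si_of_pre {B : ℕ → Bool} {E : List Bool × α → Prop} (hE : S1 E) :
    SI B fun a => ∃ s, E (pre B s, a) := by
  refine ⟨fun x => ∃ k, k ≤ x.1.length ∧ E (x.1.take k, x.2), ?_, ?_, ?_⟩
  · refine S1.ex (S1.and (s1_le (by fun_prop) (by fun_prop)) (hE.comp (by fun_prop)))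
  · rintro σ τ a h ⟨k, hk, h2⟩
    refine ⟨k, hk.trans h.length_le, ?_⟩
    have : σ.take k = τ.take k := by
      rw [List.prefix_iff_eq_take] at h
      rw [h, List.take_take, min_eq_left hk]
    rwa [← this]
  · intro a
    constructor
    · rintro ⟨s, hs⟩
      exact ⟨s, s, by simp, by rwa [take_pre _ _ _ le_rfl]⟩
    · rintro ⟨s, k, hk, h⟩
      rw [length_pre] at hk
      rw [take_pre _ _ _ hk] at h
      exact ⟨k, h⟩

/-- uniformization of total Sigma-one relations -/
theorem s1_choice {R : α → β → Prop} (hR : S1 fun x : α × β => R x.1 x.2)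
    (h : ∀ a, ∃ b, R a b) : ∃ f : α → β, Computable f ∧ ∀ a, R a (f a) := by
  classical
  obtain ⟨q, hq, hm, he⟩ := hR
  have hex : ∀ a, ∃ k : ℕ, ∃ b ∈ (decode (α := β) k.unpair.1).toList, q (a, b) k.unpair.2 := by
    intro a
    obtain ⟨b, hb⟩ := h a
    obtain ⟨n, hn⟩ := (he (a, b)).1 hb
    exact ⟨Nat.pair (encode b) n, b, by simp, by simpa using hn⟩
  have hp : PrimrecPred fun x : α × ℕ =>
      ∃ b ∈ (decode (α := β) x.2.unpair.1).toList, q (x.1, b) x.2.unpair.2 := by
    refine PP.ex_mem (α := α × ℕ) (f := fun x => (decode (α := β) x.2.unpair.1).toList)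
      (p := fun x b => q (x.1, b) x.2.unpair.2) ?_
      (Primrec.optionToList.comp (by fun_prop))
    exact hq.comp (f := fun z : (α × ℕ) × β => (z.1.1, z.2))
      (g := fun z : (α × ℕ) × β => z.1.2.unpair.2) (by fun_prop) (by fun_prop)
  have h1 : Partrec fun a : α => Nat.rfind fun k => Part.some (decide
      (∃ b ∈ (decode (α := β) k.unpair.1).toList, q (a, b) k.unpair.2)) := by
    apply Partrec.rfind
    exact hp.decide.to_comp.partrec
  have h2 : Computable fun a : α => Nat.find (hex a) := by
    refine h1.of_eq fun a => ?_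
    refine Part.eq_some_iff.2 (Nat.mem_rfind.2 ⟨?_, ?_⟩)
    · simpa using Nat.find_spec (hex a)
    · intro m hm
      simpa using Nat.find_min (hex a) hm
  have h3 : ∀ a, ∃ b, decode (α := β) (Nat.find (hex a)).unpair.1 = some b ∧ R a b := by
    intro a
    obtain ⟨b, hb, hq⟩ := Nat.find_spec (hex a)
    exact ⟨b, by simpa using hb, (he (a, b)).2 ⟨_, hq⟩⟩
  choose f hf1 hf2 using h3
  refine ⟨f, ?_, hf2⟩
  have h4 : Computable fun a => decode (α := β) (Nat.find (hex a)).unpair.1 :=
    Computable.decode.comp (Computable.fst.comp (Computable.unpair.comp h2))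
  have h5 : Computable fun a => some (f a) := h4.of_eq hf1
  exact Computable.option_some_iff.1 h5

end basic

end Pool.Agent.H100Z.PR
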