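import Pool.Agent.H100Z.PA
import Pool.Agent.H851Z.LR.KG

set_option autoImplicit false

namespace Pool.Agent.H100Z.RI

open Encodable Pool.Agent.Helper227 Pool.Agent.H100Z.PR Filter Topology
open Pool.Agent.H100Z.Defs MeasureTheory Pool.Agent.H100Z.HB Pool.Agent.H851Z.LR
open Nat.Partrec (Code)
open scoped ENNReal

theorem pre_agree {B Z : ℕ → Bool} {m n : ℕ} (h : pre B n = pre Z n) (hm : m ≤ n) :
    pre B m = pre Z m := by
  rw [← take_pre B n m hm, h, take_pre Z n m hm]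

theorem nn_mono {k l : ℕ} (h : k ≤ l) : nn k ≤ nn l := by
  unfold nn
  exact Nat.mul_le_mul h (by omega)

@[fun_prop] theorem pnn {α : Type*} [Primcodable α] {f : α → ℕ} (hf : Primrec f) :
    Primrec fun x => nn (f x) := primrec_nn.comp hf

theorem mem_cyl_pre_iff {B Z : ℕ → Bool} {n : ℕ} : B ∈ cyl (pre Z n) ↔ pre B n = pre Z n := by
  rw [mem_cyl_iff, length_pre]

theorem exists_seq (ρ : List Bool) : ∃ Z : ℕ → Bool, pre Z ρ.length = ρ :=
  ⟨_, CS.pre_getD_self ρ⟩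

/-- the `e`-th effectively open set -/
def Uc (e : ℕ) : Set (ℕ → Bool) :=
  {X | ∃ t, ((Denumerable.ofNat Code e).eval (encode (pre X t))).Dom}

theorem measurableSet_Uc (e : ℕ) : MeasurableSet (Uc e) :=
  measurableSet_open fun _ σ => ((Denumerable.ofNat Code e).eval (encode σ)).Dom

theorem isClosed_Uc (e : ℕ) : IsClosed (Uc e)ᶜ := by
  have : (Uc e)ᶜ = {X | ∀ t, ¬ ((Denumerable.ofNat Code e).eval (encode (pre X t))).Dom} := by
    ext X; simp [Uc]
  rw [this]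
  exact isClosed_all fun σ => ¬ ((Denumerable.ofNat Code e).eval (encode σ)).Dom

theorem Uc_of_s1 {E : List Bool → Prop} (hE : S1 E) : ∃ e, Uc e = {X | ∃ t, E (pre X t)} := by
  obtain ⟨c, hc⟩ := s1_code hE
  exact ⟨encode c, by ext X; simp [Uc, hc]⟩

theorem Uc_union (e e' : ℕ) : ∃ e'', Uc e'' = Uc e ∪ Uc e' := by
  obtain ⟨e'', h⟩ := Uc_of_s1 (E := fun σ => ((Denumerable.ofNat Code e).eval (encode σ)).Dom ∨
    ((Denumerable.ofNat Code e').eval (encode σ)).Dom)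
    (S1.or (s1_dom (by fun_prop) (by fun_prop)) (s1_dom (by fun_prop) (by fun_prop)))
  refine ⟨e'', ?_⟩
  rw [h]
  ext X
  simp [Uc, exists_or]

theorem s1_ngood : S1 fun x : ℕ × ℕ × List Bool => ¬ good (Uc x.1) x.2.1 x.2.2 := by
  let P : (ℕ × ℕ × List Bool) → List Bool → Prop := fun x η =>
    η.take x.2.2.length = x.2.2 ∧ ∃ t, t ≤ η.length ∧
      ((Denumerable.ofNat Code x.1).eval (encode (η.take t))).Dom
  have hP : S1 fun x : (ℕ × ℕ × List Bool) × List Bool => P x.1 x.2 :=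
    S1.and (s1_eq (by fun_prop) (by fun_prop)) (S1.ex (S1.and (s1_le (by fun_prop) (by fun_prop))
      (s1_dom (by fun_prop) (by fun_prop))))
  have hset : ∀ x : ℕ × ℕ × List Bool, {X | ∃ t, P x (pre X t)} = cyl x.2.2 ∩ Uc x.1 := by
    rintro ⟨e, k, ζ⟩
    ext X
    simp only [P, Set.mem_ofPred_eq, Set.mem_inter_iff, length_pre]
    constructor
    · rintro ⟨t, h1, t', h2, h3⟩
      rw [take_pre _ _ _ h2] at h3
      refine ⟨?_, t', h3⟩
      have h3 : ζ <+: pre X t := by rw [← h1]; exact List.take_prefix _ _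
      rw [mem_cyl_iff]
      exact (pre_eq_of_prefix h3).symm
    · rintro ⟨h1, t, h2⟩
      refine ⟨max t ζ.length, ?_, t, le_max_left _ _, ?_⟩
      · rw [take_pre _ _ _ (le_max_right _ _)]
        exact mem_cyl_iff.1 h1
      · rwa [take_pre _ _ _ (le_max_left _ _)]
  have hS := s1_measure_gt hP (a := fun x => 2 ^ (x.2.1 + 1) - 1)
    (b := fun x => 2 ^ (x.2.2.length + x.2.1 + 1)) (by fun_prop) (by fun_prop)
    (fun x => by positivity)
  refine hS.of_eq fun x => ?_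
  rw [hset, not_good_iff (measurableSet_Uc _)]

/-- `ζ` is extreme among the good strings -/
def Ext (e l : ℕ) (b : Bool) (ζ : List Bool) : Prop :=
  ∀ ρ ∈ allStr (nn (l + 1)), ¬ (ρ.take (nn l) = ζ.take (nn l) ∧ ltb b ζ ρ) ∨
    ¬ good (Uc e) (l + 1) ρ

theorem s1_Ext {α : Type*} [Primcodable α] {e l : α → ℕ} {b : α → Bool} {ζ : α → List Bool}
    (he : Primrec e) (hl : Primrec l) (hb : Primrec b) (hζ : Primrec ζ) :
    S1 fun x => Ext (e x) (l x) (b x) (ζ x) := by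
  unfold Ext ltb
  refine S1.all_mem (S1.or (S1.of_prim (PrimrecPred.not (PrimrecPred.and
    (pp_eq (by fun_prop) (by fun_prop)) (PrimrecPred.or
      (PrimrecPred.and (pp_eq (by fun_prop) (by fun_prop)) (pp_lt (by fun_prop) (by fun_prop)))
      (PrimrecPred.and (pp_eq (by fun_prop) (by fun_prop)) (pp_lt (by fun_prop) (by fun_prop)))))))
    (s1_ngood.comp (f := fun z : α × List Bool => (e z.1, l z.1 + 1, z.2)) (by fun_prop)))
    (by fun_prop)

theorem sgood {e l : ℕ} {Z : ℕ → Bool} (h : good (Uc e) l (pre Z (nn l))) (b : Bool) :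
    ∃ Z', pre Z' (nn l) = pre Z (nn l) ∧ good (Uc e) (l + 1) (pre Z' (nn (l + 1))) ∧
      Ext e l b (pre Z' (nn (l + 1))) ∧ ¬ Ext e l (!b) (pre Z' (nn (l + 1))) := by
  obtain ⟨ρ, h1, h2, h3, ρ', h4, h5, h6⟩ := step_good (length_pre _ _) h b
  rw [CD.mem_ext] at h1 h4
  obtain ⟨Z', hZ⟩ := exists_seq ρ
  rw [h1.1] at hZ
  have e1 : ρ.take (nn l) = pre Z (nn l) := by
    have := List.prefix_iff_eq_take.1 h1.2
    rw [length_pre] at this
    exact this.symm
  have e2 : ρ'.take (nn l) = pre Z (nn l) := by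
    have := List.prefix_iff_eq_take.1 h4.2
    rw [length_pre] at this
    exact this.symm
  refine ⟨Z', ?_, by rwa [hZ], ?_, ?_⟩
  · rw [← take_pre Z' (nn (l + 1)) _ (nn_mono (by omega)), hZ, e1]
  · rw [hZ]
    intro τ hτ
    by_cases h7 : τ.take (nn l) = ρ.take (nn l) ∧ ltb b ρ τ
    · refine Or.inr (h3 τ (CD.mem_ext.2 ⟨mem_allStr.1 hτ, ?_⟩) h7.2)
      rw [← e1, ← h7.1]
      exact List.take_prefix _ _
    · exact Or.inl h7
  · rw [hZ]
    intro h7
    rcases h7 ρ' (mem_allStr.2 h4.1) with h8 | h8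
    · exact h8 ⟨by rw [e1, e2], h5⟩
    · exact h8 h6

/-- a true marker for the candidate `j` -/
def Bad (j : ℕ) (ζ : List Bool) : Prop :=
  Ext j.unpair.1 (2 * j) true ζ ∧ good (Uc j.unpair.1) (2 * j + 1) ζ

theorem bad_unique {j : ℕ} {ρ ρ' : List Bool} (h1 : ρ.length = nn (2 * j + 1))
    (h2 : ρ'.length = nn (2 * j + 1)) (h3 : ρ.take (nn (2 * j)) = ρ'.take (nn (2 * j)))
    (h4 : Bad j ρ) (h5 : Bad j ρ') : ρ = ρ' := by
  rcases lt_trichotomy (encode ρ) (encode ρ') with h | h | h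
  · rcases h4.1 ρ' (mem_allStr.2 h2) with h6 | h6
    · exact absurd ⟨h3.symm, Or.inl ⟨rfl, h⟩⟩ h6
    · exact absurd h5.2 h6
  · exact encode_injective h
  · rcases h5.1 ρ (mem_allStr.2 h1) with h6 | h6
    · exact absurd ⟨h3, Or.inl ⟨rfl, h⟩⟩ h6
    · exact absurd h4.2 h6

theorem savoid {e j : ℕ} {Z : ℕ → Bool} (h : good (Uc e) (2 * j) (pre Z (nn (2 * j)))) :
    ∃ Z', pre Z' (nn (2 * j)) = pre Z (nn (2 * j)) ∧
      good (Uc e) (2 * j + 1) (pre Z' (nn (2 * j + 1))) ∧ ¬ Bad j (pre Z' (nn (2 * j + 1))) := by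
  obtain ⟨ρ, ρ', hne, h1, h2, g1, g2⟩ := two_good h (m := nn (2 * j + 1))
    (by rw [length_pre]; exact nn_succ _)
  rw [CD.mem_ext] at h1 h2
  have e1 : ρ.take (nn (2 * j)) = pre Z (nn (2 * j)) := by
    have := List.prefix_iff_eq_take.1 h1.2
    rw [length_pre] at this
    exact this.symm
  have e2 : ρ'.take (nn (2 * j)) = pre Z (nn (2 * j)) := by
    have := List.prefix_iff_eq_take.1 h2.2
    rw [length_pre] at this
    exact this.symm
  have key : ∀ τ : List Bool, τ.length = nn (2 * j + 1) → τ.take (nn (2 * j)) = pre Z (nn (2 * j)) →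
      good (Uc e) (2 * j + 1) τ → ¬ Bad j τ → ∃ Z', pre Z' (nn (2 * j)) = pre Z (nn (2 * j)) ∧
      good (Uc e) (2 * j + 1) (pre Z' (nn (2 * j + 1))) ∧ ¬ Bad j (pre Z' (nn (2 * j + 1))) := by
    intro τ h3 h4 h5 h6
    obtain ⟨Z', hZ⟩ := exists_seq τ
    rw [h3] at hZ
    refine ⟨Z', ?_, by rwa [hZ], by rwa [hZ]⟩
    rw [← take_pre Z' (nn (2 * j + 1)) _ (nn_mono (by omega)), hZ, h4]
  by_cases hb : Bad j ρ
  · exact key ρ' h2.1 e2 g2 fun hb' => hne (bad_unique h1.1 h2.1 (by rw [e1, e2]) hb hb')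
  · exact key ρ h1.1 e1 g1 hb

theorem lam_bad {j : ℕ} {σ : List Bool} (h : σ.length ≤ nn (2 * j)) :
    lam (cyl σ ∩ {B | Bad j (pre B (nn (2 * j + 1)))}) ≤ (1 / 2) ^ (σ.length + (4 * j + 4)) := by
  classical
  have h0 : nn (2 * j + 1) = nn (2 * j) + (4 * j + 4) := by unfold nn; ring
  have h1 := lam_finset ((CD.ext σ (nn (2 * j + 1))).filter (Bad j)) (nn (2 * j + 1))
    (fun ρ hρ => (CD.mem_ext.1 (Finset.mem_filter.1 hρ).1).1)
  have h2 : ((CD.ext σ (nn (2 * j + 1))).filter (Bad j)).card ≤ (CD.ext σ (nn (2 * j))).card := by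
    refine Finset.card_le_card_of_injOn (fun ρ => ρ.take (nn (2 * j))) ?_ ?_
    · intro ρ hρ
      simp only [Finset.coe_filter, Set.mem_ofPred_eq, CD.mem_ext, Finset.mem_coe] at hρ ⊢
      exact ⟨by rw [List.length_take]; omega, List.prefix_take_iff.2 ⟨hρ.1.2, h⟩⟩
    · intro ρ hρ ρ' hρ' h3
      simp only [Finset.coe_filter, Set.mem_ofPred_eq, CD.mem_ext] at hρ hρ'
      exact bad_unique hρ.1.1 hρ'.1.1 h3 hρ.2 hρ'.2
  rw [CD.card_ext h] at h2
  refine le_trans (measure_mono ?_) (h1.le.trans ?_)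
  · rintro B ⟨h3, h4⟩
    refine Finset.mem_filter.2 ⟨CD.mem_ext.2 ⟨length_pre _ _, ?_⟩, h4⟩
    rw [← mem_cyl_iff.1 h3]
    exact pre_prefix _ (by omega)
  · rw [ennreal_aux]
    calc _ ≤ 2 ^ (nn (2 * j) - σ.length) * 2 ^ (σ.length + (4 * j + 4)) :=
          Nat.mul_le_mul_right _ h2
      _ = _ := by rw [← pow_add]; congr 1; omega

/-- no true marker from `i` on -/
def Av (i : ℕ) : Set (ℕ → Bool) := {B | ∀ j, i ≤ j → ¬ Bad j (pre B (nn (2 * j + 1)))}

theorem pos_of_good {e i : ℕ} {Z : ℕ → Bool} (h : good (Uc e) (2 * i) (pre Z (nn (2 * i)))) :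
    lam (cyl (pre Z (nn (2 * i))) ∩ (Uc e)ᶜ ∩ Av i) ≠ 0 := by
  intro h0
  have h1 : cyl (pre Z (nn (2 * i))) \ Uc e ⊆ (cyl (pre Z (nn (2 * i))) ∩ (Uc e)ᶜ ∩ Av i) ∪
      ⋃ k, (cyl (pre Z (nn (2 * i))) ∩ {B | Bad (i + k) (pre B (nn (2 * (i + k) + 1)))}) := by
    rintro B ⟨h2, h3⟩
    by_cases h4 : B ∈ Av i
    · exact Or.inl ⟨⟨h2, h3⟩, h4⟩
    · simp only [Av, Set.mem_ofPred_eq, not_forall, not_not] at h4
      obtain ⟨j, h5, h6⟩ := h4
      obtain ⟨k, rfl⟩ := Nat.exists_eq_add_of_le h5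
      exact Or.inr (Set.mem_iUnion.2 ⟨k, h2, h6⟩)
  have h2 : lam (cyl (pre Z (nn (2 * i))) \ Uc e) ≤ (1 / 2) ^ (nn (2 * i) + 2 * i + 2) := by
    refine (measure_mono h1).trans ((measure_union_le _ _).trans ?_)
    rw [h0, zero_add, ← tsum_half_pow]
    refine (measure_iUnion_le _).trans (ENNReal.tsum_le_tsum fun k => ?_)
    refine (lam_bad (by rw [length_pre]; exact nn_mono (by omega))).trans ?_
    rw [length_pre]
    exact pow_le_pow_right_of_le_one' (by norm_num) (by omega)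
  have h3 := ENNReal.toReal_mono (by simp) h2
  rw [real_half_pow, ← measureReal_def] at h3
  unfold good at h
  rw [length_pre] at h
  have h5 : (0 : ℝ) < (1 / 2) ^ (nn (2 * i) + 2 * i + 1) := by positivity
  have h6 : (1 / 2 : ℝ) ^ (nn (2 * i) + 2 * i + 2) = (1 / 2) ^ (nn (2 * i) + 2 * i + 1) / 2 := by
    ring
  linarith

theorem avg {U S : Set (ℕ → Bool)} (hS : ∀ X ∈ S, X ∉ U) {l : ℕ}
    (h : (1 / 2 : ℝ) ^ (l + 1) < lam.real S) : ∃ Z ∈ S, good U l (pre Z (nn l)) := by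
  classical
  by_contra hc
  push Not at hc
  have h1 : S ⊆ ⋃ ρ ∈ (CD.ext [] (nn l)).filter (fun ρ => ¬ good U l ρ), (cyl ρ \ U) := by
    intro X hX
    simp only [Set.mem_iUnion, exists_prop]
    exact ⟨pre X (nn l), Finset.mem_filter.2 ⟨CD.mem_ext.2 ⟨length_pre _ _, List.nil_prefix⟩,
      hc X hX⟩, mem_cyl_pre _ _, hS X hX⟩
  have h2 := (measureReal_mono h1 (measure_ne_top lam _)).trans (measureReal_biUnion_finset_le _ _)
  have h4 : ∀ ρ ∈ (CD.ext [] (nn l)).filter (fun ρ => ¬ good U l ρ),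
      lam.real (cyl ρ \ U) ≤ (1 / 2) ^ (nn l + l + 1) := by
    intro ρ hρ
    rw [Finset.mem_filter, CD.mem_ext] at hρ
    have h5 := hρ.2
    unfold good at h5
    rw [hρ.1.1] at h5
    exact (not_le.1 h5).le
  have h3 := h2.trans (Finset.sum_le_card_nsmul _ _ _ h4)
  rw [nsmul_eq_mul] at h3
  have h5 : (((CD.ext [] (nn l)).filter (fun ρ => ¬ good U l ρ)).card : ℝ) ≤ 2 ^ (nn l) := by
    have h6 := Finset.card_filter_le (CD.ext [] (nn l)) (fun ρ => ¬ good U l ρ)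
    rw [CD.card_ext (by simp)] at h6
    exact_mod_cast h6
  have h6 : (2 : ℝ) ^ (nn l) * (1 / 2) ^ (nn l + l + 1) = (1 / 2) ^ (l + 1) := by
    rw [add_assoc, pow_add (1 / 2 : ℝ) (nn l), ← mul_assoc, ← mul_pow]
    norm_num
  have h7 := mul_le_mul_of_nonneg_right h5 (by positivity : (0 : ℝ) ≤ (1 / 2) ^ (nn l + l + 1))
  linarith

theorem code_run {e j : ℕ} (X : ℕ → Bool) {Z : ℕ → Bool}
    (h : good (Uc e) (2 * j + 1) (pre Z (nn (2 * j + 1)))) (M : ℕ) :
    ∃ Z', pre Z' (nn (2 * j + 1)) = pre Z (nn (2 * j + 1)) ∧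
      good (Uc e) (2 * (j + M) + 1) (pre Z' (nn (2 * (j + M) + 1))) ∧
      (∀ t < M, Ext e (2 * (j + t) + 1) (!X t) (pre Z' (nn (2 * (j + t) + 1 + 1))) ∧
        ¬ Ext e (2 * (j + t) + 1) (X t) (pre Z' (nn (2 * (j + t) + 1 + 1)))) ∧
      ∀ j', j < j' → j' ≤ j + M → ¬ Bad j' (pre Z' (nn (2 * j' + 1))) := by
  induction M with
  | zero => exact ⟨Z, rfl, h, by simp, fun j' h1 h2 => by omega⟩
  | succ M ih =>
    obtain ⟨Z1, h1, h2, h3, h4⟩ := ih
    obtain ⟨Z2, h5, h6, h7, h8⟩ := sgood h2 (!X M)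
    obtain ⟨Z3, h9, h10, h11⟩ := savoid (j := j + (M + 1)) (Z := Z2) h6
    have a1 : ∀ m, m ≤ 2 * (j + M) + 1 + 1 → pre Z3 (nn m) = pre Z2 (nn m) := fun m hm =>
      pre_agree h9 (nn_mono hm)
    have a2 : ∀ m, m ≤ 2 * (j + M) + 1 → pre Z3 (nn m) = pre Z1 (nn m) := fun m hm => by
      rw [a1 m (by omega)]; exact pre_agree h5 (nn_mono hm)
    refine ⟨Z3, by rw [a2 _ (by omega), h1], h10, fun t ht => ?_, fun j' h12 h13 => ?_⟩
    · rcases Nat.lt_succ_iff_lt_or_eq.1 ht with h12 | rfl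
      · rw [a2 _ (by omega)]; exact h3 t h12
      · rw [a1 _ le_rfl]
        exact ⟨h7, by simpa using h8⟩
    · rcases Nat.lt_or_ge (j + M) j' with h14 | h14
      · have : j' = j + (M + 1) := by omega
        rw [this]; exact h11
      · rw [a2 _ (by omega)]; exact h4 j' h12 h14

section
variable (q : ℕ × List Bool → ℕ → Prop)

/-- the marker for `j` is first seen at stage `s` -/
def First (j s : ℕ) (ζ : List Bool) : Prop := q (j, ζ) s ∧ ∀ s' < s, ¬ q (j, ζ) s'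

/-- decoding after the marker `j` succeeds -/
def Fine (j : ℕ) (B : ℕ → Bool) : Prop :=
  Bad j (pre B (nn (2 * j + 1))) → ∀ s, First q j s (pre B (nn (2 * j + 1))) →
    ∀ t, blk t = Nat.pair j s →
      ∃ b, Ext j.unpair.1 (2 * (j + t) + 1) b (pre B (nn (2 * (j + t) + 1 + 1)))

/-- forcing conditions -/
def Cond (p : ℕ × (ℕ → Bool) × ℕ) : Prop :=
  lam (cyl (pre p.2.1 (nn (2 * p.1))) ∩ (Uc p.2.2)ᶜ ∩ Av p.1) ≠ 0 ∧
    ∀ B ∈ cyl (pre p.2.1 (nn (2 * p.1))), ∀ j < p.1, Fine q j B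

/-- the message after the marker `j` is the complement of `X` -/
def Hit (X : ℕ → Bool) (j s : ℕ) (B : ℕ → Bool) : Prop :=
  First q j s (pre B (nn (2 * j + 1))) ∧
    good (Uc j.unpair.1) (2 * j + 1) (pre B (nn (2 * j + 1))) ∧
    ∀ t, blk t = Nat.pair j s →
      ¬ Ext j.unpair.1 (2 * (j + t) + 1) (X t) (pre B (nn (2 * (j + t) + 1 + 1)))

end

theorem stepA {q : ℕ × List Bool → ℕ → Prop} {A : ℕ → Bool} (hA : ¬ Computable A) (c : Code)
    {i e : ℕ} {Z : ℕ → Bool} (h : Cond q (i, Z, e)) :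
    ∃ e', Uc e ⊆ Uc e' ∧ Cond q (i, Z, e') ∧ ∀ B, B ∉ Uc e' → ¬ cpt c A B := by
  have h1 : ∀ B, ¬ cpt c A B → ∃ e', (∀ B', B' ∉ Uc e' → ¬ cpt c A B') ∧ B ∉ Uc e' := by
    intro B hB
    by_cases h2 : ∃ n, ∀ s r, ¬ (c.evaln r (encode (pre B s, n, A n))).isSome = true
    · obtain ⟨n, hn⟩ := h2
      obtain ⟨e', he'⟩ := Uc_of_s1 (E := fun σ => ∃ r, (c.evaln r (encode (σ, n, A n))).isSome = true)
        (S1.ex (s1_bool (by fun_prop)))
      refine ⟨e', fun B' h3 h4 => h3 ?_, ?_⟩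
      · rw [he']; exact (h4 n _).1 rfl
      · rw [he']; rintro ⟨s, r, h3⟩; exact hn s r h3
    · push Not at h2
      obtain ⟨n, b, h3, s, r, h4⟩ : ∃ n b, A n ≠ b ∧
          ∃ s r, (c.evaln r (encode (pre B s, n, b))).isSome = true := by
        by_contra h3
        push Not at h3
        refine hB fun n b => ⟨?_, fun ⟨s, r, h4⟩ => ?_⟩
        · rintro rfl; exact h2 n
        · by_contra h5
          exact h3 n b h5 s r h4
      obtain ⟨e', he'⟩ := Uc_of_s1 (E := fun σ => σ.length = s ∧ σ ≠ pre B s)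
        (S1.and (s1_eq (by fun_prop) (by fun_prop)) (s1_ne (by fun_prop) (by fun_prop)))
      refine ⟨e', fun B' h5 h6 => h3 ((h6 n b).2 ⟨s, r, ?_⟩), ?_⟩
      · have : pre B' s = pre B s := by
          by_contra h7
          exact h5 (by rw [he']; exact ⟨s, length_pre _ _, h7⟩)
        rwa [this]
      · rw [he']
        rintro ⟨t, h5, h6⟩
        rw [length_pre] at h5
        exact h6 (by rw [h5])
  obtain ⟨e', h2, h3⟩ : ∃ e', (∀ B', B' ∉ Uc e' → ¬ cpt c A B') ∧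
      lam (cyl (pre Z (nn (2 * i))) ∩ (Uc e)ᶜ ∩ Av i ∩ (Uc e')ᶜ) ≠ 0 := by
    by_contra hc
    push Not at hc
    apply h.1
    refine measure_mono_null (t := {B | cpt c A B} ∪
      ⋃ e' ∈ {e' | ∀ B', B' ∉ Uc e' → ¬ cpt c A B'},
        (cyl (pre Z (nn (2 * i))) ∩ (Uc e)ᶜ ∩ Av i ∩ (Uc e')ᶜ)) ?_ (measure_union_null
      (lam_cpt_eq_zero hA c) ((measure_biUnion_null_iff (Set.to_countable _)).2 hc))
    intro B hB
    by_cases h4 : cpt c A B
    · exact Or.inl h4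
    · obtain ⟨e', h5, h6⟩ := h1 B h4
      exact Or.inr (Set.mem_biUnion (x := e') h5 ⟨hB, h6⟩)
  obtain ⟨e'', h4⟩ := Uc_union e e'
  refine ⟨e'', by rw [h4]; exact Set.subset_union_left, ⟨?_, h.2⟩, fun B hB => h2 B fun h5 => hB ?_⟩
  · convert h3 using 2
    rw [h4]
    ext B
    simp only [Set.mem_inter_iff, Set.mem_compl_iff, Set.mem_union]
    tauto
  · rw [h4]; exact Or.inr h5

theorem stepB {q : ℕ × List Bool → ℕ → Prop}
    (hq : ∀ j ζ, Ext j.unpair.1 (2 * j) true ζ → ∃ s, q (j, ζ) s) (X : ℕ → Bool) (K : ℕ)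
    {i e : ℕ} {Z : ℕ → Bool} (h : Cond q (i, Z, e)) :
    ∃ i' Z', i < i' ∧ pre Z' (nn (2 * i)) = pre Z (nn (2 * i)) ∧ Cond q (i', Z', e) ∧
      ∃ j s, K ≤ j ∧ ∀ B ∈ cyl (pre Z' (nn (2 * i'))), Hit q X j s B := by
  classical
  have hr : 0 < lam.real (cyl (pre Z (nn (2 * i))) ∩ (Uc e)ᶜ ∩ Av i) :=
    ENNReal.toReal_pos h.1 (measure_ne_top _ _)
  obtain ⟨m, hm⟩ := exists_pow_lt_of_lt_one hr (by norm_num : (1 / 2 : ℝ) < 1)
  obtain ⟨j, hj1, hj2⟩ : ∃ j : ℕ, j.unpair.1 = e ∧ m + K + i ≤ j :=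
    ⟨Nat.pair e (m + K + i), by simp, Nat.right_le_pair _ _⟩
  obtain ⟨Z1, ⟨⟨h1, -⟩, h2⟩, h3⟩ := avg (U := Uc e) (l := 2 * j) (fun X hX => hX.1.2)
    (lt_of_le_of_lt (pow_le_pow_of_le_one (by norm_num) (by norm_num) (by omega)) hm)
  obtain ⟨Z2, h4, h5, h6, -⟩ := sgood h3 true
  have h7 := hq j _ (by rw [hj1]; exact h6)
  obtain ⟨M, hM⟩ : ∃ M, ∀ t, blk t = Nat.pair j (Nat.find h7) → t < M :=
    ⟨_, fun t ht => lt_trans (Nat.lt_succ_self t) (blk_eq_iff.1 ht).2⟩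
  obtain ⟨Z3, h8, h9, h10, h11⟩ := code_run X h5 M
  obtain ⟨Z4, h12, h13, -, -⟩ := sgood h9 true
  have a1 : ∀ B ∈ cyl (pre Z4 (nn (2 * (j + M + 1)))), ∀ l, l ≤ 2 * (j + M) + 1 →
      pre B (nn l) = pre Z3 (nn l) := fun B hB l hl => by
    rw [pre_agree (mem_cyl_pre_iff.1 hB) (nn_mono (by omega)), pre_agree h12 (nn_mono hl)]
  have a2 : ∀ B ∈ cyl (pre Z4 (nn (2 * (j + M + 1)))),
      pre B (nn (2 * j + 1)) = pre Z2 (nn (2 * j + 1)) := fun B hB => by
    rw [a1 B hB _ (by omega), h8]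
  have a3 : ∀ B ∈ cyl (pre Z4 (nn (2 * (j + M + 1)))), ∀ l, l ≤ 2 * j →
      pre B (nn l) = pre Z1 (nn l) := fun B hB l hl => by
    rw [pre_agree (a2 B hB) (nn_mono (by omega)), pre_agree h4 (nn_mono hl)]
  refine ⟨j + M + 1, Z4, by omega, ?_, ⟨pos_of_good h13, fun B hB j' hj' => ?_⟩, j, Nat.find h7,
    by omega, fun B hB => ⟨?_, ?_, fun t ht => ?_⟩⟩
  · rw [a3 Z4 (mem_cyl_pre _ _) _ (by omega)]
    exact mem_cyl_pre_iff.1 h1
  · simp only at hB hj'
    rcases Nat.lt_or_ge j' i with h14 | h14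
    · refine h.2 B (mem_cyl_pre_iff.2 ?_) j' h14
      simp only
      rw [a3 B hB _ (by omega)]
      exact mem_cyl_pre_iff.1 h1
    rcases lt_trichotomy j' j with h15 | rfl | h15
    · intro h16
      rw [a3 B hB _ (by omega)] at h16
      exact absurd h16 (h2 j' h14)
    · intro _ s hs t ht
      rw [a2 B hB] at hs
      have : Nat.find h7 = s := (Nat.find_eq_iff h7).2 hs
      rw [← this] at ht
      have h17 := hM t ht
      rw [a1 B hB _ (by omega), hj1]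
      exact ⟨_, (h10 t h17).1⟩
    · intro h16
      rw [a1 B hB _ (by omega)] at h16
      exact absurd h16 (h11 j' h15 (by omega))
  · rw [a2 B hB]
    exact (Nat.find_eq_iff h7).1 rfl
  · rw [a2 B hB, hj1]; exact h5
  · have h17 := hM t ht
    rw [a1 B hB _ (by omega), hj1]
    exact (h10 t h17).2

theorem si_take {α : Type*} [Primcodable α] {B : ℕ → Bool} {E : α → List Bool → Prop}
    (hE : S1 fun x : α × List Bool => E x.1 x.2) {n : α → ℕ} (hn : Primrec n) :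
    SI B fun a => E a (pre B (n a)) := by
  have h := si_of_pre (B := B) (E := fun y : List Bool × α => y.1.length = n y.2 ∧ E y.2 y.1)
    (S1.and (s1_eq (by fun_prop) (by fun_prop)) (hE.comp (f := fun y : List Bool × α => (y.2, y.1))
      (by fun_prop)))
  refine h.of_eq fun a => ?_
  simp only [length_pre]
  exact ⟨fun ⟨s, h1, h2⟩ => h1 ▸ h2, fun h1 => ⟨_, rfl, h1⟩⟩

theorem main {A : ℕ → Bool} (hA : ¬ Computable A) : ∃ B, MLR (fun _ => false) B ∧ ¬ TLe A B ∧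
    ∃ Y, TLe Y B ∧ ∀ X, TLe X A → 1 ≤ delta X Y := by
  classical
  obtain ⟨q, hq, -, eq⟩ : S1 fun x : ℕ × List Bool => Ext x.1.unpair.1 (2 * x.1) true x.2 :=
    s1_Ext (by fun_prop) (by fun_prop) (by fun_prop) (by fun_prop)
  obtain ⟨E, hE, mE, hEm, hEU⟩ := exists_universal
  obtain ⟨e0, he0⟩ := Uc_of_s1 (E := fun σ : List Bool => ∃ s, E (pre (fun _ => false) s, 1, σ))
    (s1_of_si_zero (si_of_pre (E := fun y : List Bool × List Bool => E (y.1, 1, y.2))
      (hE.comp (by fun_prop))))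
  have he1 : Uc e0 = UE E (fun _ => false) 1 := by
    rw [he0]; ext X; exact exists_comm
  have h0 : Cond q (0, fun _ => false, e0) := by
    refine ⟨pos_of_good ?_, by simp⟩
    unfold good
    have h1 : lam.real (cyl [] ∩ Uc e0) + lam.real (cyl [] \ Uc e0) =
        (1 / 2) ^ ([] : List Bool).length := by
      rw [measureReal_inter_add_sdiff (measurableSet_Uc _), real_cyl]
    have h2 : lam.real (cyl [] ∩ Uc e0) ≤ (1 / 2) ^ 1 := by
      refine (measureReal_mono Set.inter_subset_right).trans ?_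
      rw [measureReal_def, ← real_half_pow]
      refine ENNReal.toReal_mono (by simp) ?_
      rw [he1]
      exact hEm _ 1
    change (1 / 2 : ℝ) ^ 1 ≤ lam.real (cyl [] \ Uc e0)
    simp only [List.length_nil, pow_zero, pow_one] at h1 h2 ⊢
    linarith
  obtain ⟨f, hf⟩ := (HD.countable_below A).exists_eq_range ⟨A, TLe.refl A⟩
  have hs : ∀ (n : ℕ) (p : {p // Cond q p}), ∃ p' : {p // Cond q p}, p.1.1 < p'.1.1 ∧
      (cyl (pre p'.1.2.1 (nn (2 * p'.1.1))) ∩ (Uc p'.1.2.2)ᶜ ⊆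
        cyl (pre p.1.2.1 (nn (2 * p.1.1))) ∩ (Uc p.1.2.2)ᶜ) ∧
      ∀ B ∈ cyl (pre p'.1.2.1 (nn (2 * p'.1.1))) ∩ (Uc p'.1.2.2)ᶜ,
        ¬ cpt (Denumerable.ofNat Code n) A B ∧ ∃ j s, n ≤ j ∧ Hit q (f n.unpair.1) j s B := by
    rintro n ⟨⟨i, Z, e⟩, hp⟩
    obtain ⟨e', h1, h2, h3⟩ := stepA hA (Denumerable.ofNat Code n) hp
    obtain ⟨i', Z', h4, h5, h6, j, s, h7, h8⟩ := stepB (fun j ζ h => (eq (j, ζ)).1 h)
      (f n.unpair.1) n h2
    refine ⟨⟨(i', Z', e'), h6⟩, h4, ?_, fun B hB => ⟨h3 B hB.2, j, s, h7, h8 B hB.1⟩⟩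
    rintro B ⟨h9, h10⟩
    refine ⟨mem_cyl_pre_iff.2 ?_, fun h11 => h10 (h1 h11)⟩
    exact (pre_agree (mem_cyl_pre_iff.1 h9) (nn_mono (by simp only; omega))).trans h5
  choose F hF using hs
  let g : ℕ → {p // Cond q p} := fun k => Nat.rec ⟨_, h0⟩ (fun k p => F k p) k
  have hg : ∀ k, k ≤ (g k).1.1 := by
    intro k
    induction k with
    | zero => exact Nat.zero_le _
    | succ k ih => exact lt_of_le_of_lt ih (hF k (g k)).1
  obtain ⟨B, hB⟩ := nested
    (C := fun k => cyl (pre (g k).1.2.1 (nn (2 * (g k).1.1))) ∩ (Uc (g k).1.2.2)ᶜ)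
    (fun k => by
      refine IsClosed.inter ?_ (isClosed_Uc _)
      have := isClosed_pre' (nn (2 * (g k).1.1)) fun σ => σ = pre (g k).1.2.1 (nn (2 * (g k).1.1))
      convert this using 1
      ext X
      exact mem_cyl_pre_iff)
    (fun k => (nonempty_of_measure_ne_zero (g k).2.1).mono Set.inter_subset_left)
    (fun k => (hF k (g k)).2.1)
  have hfine : ∀ j, Fine q j B := fun j => (g (j + 1)).2.2 B (hB (j + 1)).1 j (hg (j + 1))
  have hR : SI B fun x : ℕ × ℕ =>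
      ¬ First q (blk x.1).unpair.1 (blk x.1).unpair.2 (pre B (nn (2 * (blk x.1).unpair.1 + 1))) ∨
      ¬ good (Uc (blk x.1).unpair.1.unpair.1) (2 * (blk x.1).unpair.1 + 1)
        (pre B (nn (2 * (blk x.1).unpair.1 + 1))) ∨
      Ext (blk x.1).unpair.1.unpair.1 (2 * ((blk x.1).unpair.1 + x.1) + 1) (decide (x.2 = 1))
        (pre B (nn (2 * ((blk x.1).unpair.1 + x.1) + 1 + 1))) := by
    refine SI.or (si_take (E := fun (x : ℕ × ℕ) ζ =>
      ¬ First q (blk x.1).unpair.1 (blk x.1).unpair.2 ζ) (S1.of_prim (PrimrecPred.not ?_))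
      (by fun_prop)) (SI.or (si_take (E := fun (x : ℕ × ℕ) ζ =>
        ¬ good (Uc (blk x.1).unpair.1.unpair.1) (2 * (blk x.1).unpair.1 + 1) ζ)
        (s1_ngood.comp (f := fun z : (ℕ × ℕ) × List Bool =>
          ((blk z.1.1).unpair.1.unpair.1, 2 * (blk z.1.1).unpair.1 + 1, z.2)) (by fun_prop))
        (by fun_prop)) (si_take (E := fun (x : ℕ × ℕ) ζ =>
          Ext (blk x.1).unpair.1.unpair.1 (2 * ((blk x.1).unpair.1 + x.1) + 1) (decide (x.2 = 1)) ζ)
          (s1_Ext (by fun_prop) (by fun_prop) (by fun_prop) (by fun_prop)) (by fun_prop)))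
    unfold First
    refine PrimrecPred.and (hq.comp (by fun_prop) (by fun_prop)) ?_
    refine PP.all_lt (α := (ℕ × ℕ) × List Bool) (f := fun z => (blk z.1.1).unpair.2)
      (p := fun z s' => ¬ q ((blk z.1.1).unpair.1, z.2) s') ?_ (by fun_prop)
    exact PrimrecPred.not (hq.comp (by fun_prop) (by fun_prop))
  obtain ⟨y, hy1, hy2⟩ := si_choice (R := fun t v =>
      ¬ First q (blk t).unpair.1 (blk t).unpair.2 (pre B (nn (2 * (blk t).unpair.1 + 1))) ∨
      ¬ good (Uc (blk t).unpair.1.unpair.1) (2 * (blk t).unpair.1 + 1)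
        (pre B (nn (2 * (blk t).unpair.1 + 1))) ∨
      Ext (blk t).unpair.1.unpair.1 (2 * ((blk t).unpair.1 + t) + 1) (decide (v = 1))
        (pre B (nn (2 * ((blk t).unpair.1 + t) + 1 + 1)))) hR (by
    intro t
    by_cases h1 : First q (blk t).unpair.1 (blk t).unpair.2
      (pre B (nn (2 * (blk t).unpair.1 + 1)))
    · by_cases h2 : good (Uc (blk t).unpair.1.unpair.1) (2 * (blk t).unpair.1 + 1)
        (pre B (nn (2 * (blk t).unpair.1 + 1)))
      · obtain ⟨b, hb⟩ := hfine _ ⟨(eq (_, _)).2 ⟨_, h1.1⟩, h2⟩ _ h1 t (Nat.pair_unpair _).symm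
        refine ⟨b.toNat, Or.inr (Or.inr ?_)⟩
        cases b <;> simpa using hb
      · exact ⟨0, Or.inr (Or.inl h2)⟩
    · exact ⟨0, Or.inl h1⟩)
  refine ⟨B, (hEU _ _).2 ⟨1, by rw [← he1]; exact (hB 0).2⟩, fun h => ?_,
    fun t => decide (y t = 1), ?_, fun X hX => ?_⟩
  · obtain ⟨c, hc⟩ := exists_cpt h
    have := ((hF (encode c) (g (encode c))).2.2 B (hB (encode c + 1))).1
    rw [Denumerable.ofNat_encode] at this
    exact this hc
  · rw [tLe_iff_SI]
    have h1 : SI B fun x : ℕ × Bool => ∃ v, y x.1 = v ∧ decide (v = 1) = x.2 :=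
      SI.ex (SI.and ((funLe_iff.1 hy1).comp (f := fun z : (ℕ × Bool) × ℕ => (z.1.1, z.2))
        (by fun_prop)) (SI.of_s1 (s1_eq (by fun_prop) (by fun_prop))))
    exact h1.of_eq fun x => by simp
  · have h1 : X ∈ Set.range f := by rw [← hf]; exact hX
    obtain ⟨m, rfl⟩ := h1
    refine far fun K => ?_
    obtain ⟨j, s, h2, h3, h4, h5⟩ := ((hF (Nat.pair m K) (g _)).2.2 B (hB (Nat.pair m K + 1))).2
    refine ⟨Nat.pair j s, (Nat.right_le_pair _ _).trans (h2.trans (Nat.left_le_pair _ _)),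
      fun t ht h6 => ?_⟩
    have h7 := hy2 t
    have h8 := h5 t ht
    simp only [ht, Nat.unpair_pair] at h7 h8
    rcases h7 with h7 | h7 | h7
    · exact h7 h3
    · exact h7 h4
    · rw [h6] at h8
      exact h8 h7

theorem lam_ncard (L : ℕ) (P : List Bool → Prop) :
    lam {X | P (pre X L)} = ({τ : Fin L → Bool | P (List.ofFn τ)}.ncard : ℕ) * (1 / 2) ^ L := by
  classical
  have h1 := lam_finset ((Finset.univ.filter fun τ : Fin L → Bool => P (List.ofFn τ)).image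
    List.ofFn) L (by
      intro σ hσ
      obtain ⟨τ, -, rfl⟩ := Finset.mem_image.1 hσ
      simp)
  rw [Finset.card_image_of_injective _ List.ofFn_injective] at h1
  rw [Set.ncard_eq_toFinset_card', Set.toFinset_ofPred, ← h1]
  congr 1
  ext X
  have : pre X L = List.ofFn fun i : Fin L => X i := by
    refine List.ext_getElem (by simp) fun i h1 h2 => ?_
    rw [getElem_pre]
    simp
  simp [this]

theorem ofFn_eq_pre (X : ℕ → Bool) (L : ℕ) : (List.ofFn fun i : Fin L => X i) = pre X L := by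
  refine List.ext_getElem (by simp) fun i h1 h2 => ?_
  rw [getElem_pre]
  simp

theorem not_computable {A : ℕ → Bool}
    (h : ∀ f : ℕ → Option (ℕ × List Bool), Computable f →
      (∀ n L : ℕ, {τ : Fin L → Bool | ∃ k : ℕ, ∃ σ : List Bool,
          f k = some (n, σ) ∧ List.IsPrefix σ (List.ofFn τ)}.ncard * 2 ^ n ≤ 2 ^ L) →
      ∃ n : ℕ, ∀ k : ℕ, ∀ σ : List Bool, f k = some (n, σ) →
        List.ofFn (fun i : Fin σ.length => A i.val) ≠ σ) : ¬ Computable A := by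
  intro hA
  have h1 : Computable (pre A) := by
    have hS : S1 fun x : ℕ × List Bool => pre A x.2.length = x.2 ∧ x.2.length = x.1 :=
      S1.and (s1_of_si_zero (((si_pre A).trans (computable_iff_tLe.1 hA)).comp Primrec.snd))
        (s1_eq (by fun_prop) (by fun_prop))
    obtain ⟨g, hg, h2⟩ := s1_choice (R := fun k σ => pre A σ.length = σ ∧ σ.length = k) hS
      fun k => ⟨pre A k, by simp⟩
    refine hg.of_eq fun k => ?_
    rw [← (h2 k).1, (h2 k).2]
  obtain ⟨n, hn⟩ := h (fun k => some (k, pre A k))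
    (Computable.option_some.comp (Computable.id.pair h1)) (by
      intro n L
      rw [← ennreal_aux, ← lam_ncard L fun ρ => ∃ k : ℕ, ∃ σ : List Bool,
        some (k, pre A k) = some (n, σ) ∧ List.IsPrefix σ ρ]
      refine le_trans (measure_mono (t := cyl (pre A n)) ?_) (by rw [lam_cyl, length_pre])
      rintro X ⟨k, σ, h2, h3⟩
      simp only [Option.some.injEq, Prod.mk.injEq] at h2
      obtain ⟨rfl, rfl⟩ := h2
      exact cyl_subset h3 (mem_cyl_pre _ _))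
  exact hn n _ rfl (by rw [ofFn_eq_pre, length_pre])

theorem random_of_mlr {B : ℕ → Bool} (hB : MLR (fun _ => false) B)
    (f : ℕ → Option (ℕ × List Bool)) (hf : Computable f)
    (h : ∀ n L : ℕ, {τ : Fin L → Bool | ∃ k : ℕ, ∃ σ : List Bool,
          f k = some (n, σ) ∧ List.IsPrefix σ (List.ofFn τ)}.ncard * 2 ^ n ≤ 2 ^ L) :
    ∃ n : ℕ, ∀ k : ℕ, ∀ σ : List Bool, f k = some (n, σ) →
        List.ofFn (fun i : Fin σ.length => B i.val) ≠ σ := by
  let F : List Bool × ℕ × List Bool → Prop := fun x => ∃ k, f k = some (x.2.1, x.2.2)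
  have hF : S1 F := S1.ex (S1.comp_computable
    (p := fun y : Option (ℕ × List Bool) × Option (ℕ × List Bool) => y.1 = y.2)
    (f := fun z : (List Bool × ℕ × List Bool) × ℕ => (f z.2, some (z.1.2.1, z.1.2.2)))
    (s1_eq (by fun_prop) (by fun_prop))
    ((hf.comp Computable.snd).pair (Primrec.to_comp (by fun_prop))))
  have hm : ∀ n, lam (UE F (fun _ => false) n) ≤ (1 / 2) ^ n := by
    intro n
    have hmono : Monotone fun L => {X : ℕ → Bool | ∃ k : ℕ, ∃ σ : List Bool,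
        f k = some (n, σ) ∧ List.IsPrefix σ (pre X L)} := by
      rintro L L' hL X ⟨k, σ, h1, h2⟩
      exact ⟨k, σ, h1, h2.trans (pre_prefix _ hL)⟩
    refine le_trans (measure_mono (t := ⋃ L, {X : ℕ → Bool | ∃ k : ℕ, ∃ σ : List Bool,
        f k = some (n, σ) ∧ List.IsPrefix σ (pre X L)}) ?_) ?_
    · rintro X ⟨s, t, k, h1⟩
      exact Set.mem_iUnion.2 ⟨t, k, _, h1, List.prefix_refl _⟩
    · rw [hmono.measure_iUnion]
      refine iSup_le fun L => ?_
      rw [lam_ncard L fun ρ => ∃ k : ℕ, ∃ σ : List Bool, f k = some (n, σ) ∧ List.IsPrefix σ ρ,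
        ennreal_aux]
      exact h n L
  have h1 := hB _ (isMLTest_of_E hF hm)
  simp only [Set.mem_iInter, not_forall] at h1
  obtain ⟨n, hn⟩ := h1
  refine ⟨n, fun k σ h2 h3 => hn ⟨0, σ.length, k, ?_⟩⟩
  rw [ofFn_eq_pre] at h3
  simp only
  rw [h3, h2]

theorem final {A : ℕ → Bool} (hA : ¬ Computable A) : ∃ B, MLR (fun _ => false) B ∧ ¬ TLe B A ∧
    ¬ TLe A B ∧ ∃ Y, TLe Y B ∧ TLe B Y ∧ ∀ X, TLe X A → 1 ≤ delta X Y := by
  obtain ⟨B, h1, h2, Y, h3, h4⟩ := main hA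
  obtain ⟨Y', h5, h6⟩ := HD.exists_coding (X := Y) (Y := B) h3
  refine ⟨B, h1, fun h => ?_, h2, Y', h5.1, h5.2, fun X hX => ?_⟩
  · have := h4 Y (TLe.trans h3 h)
    rw [delta_self] at this
    norm_num at this
  · rw [delta_symm]
    have : delta Y' X = delta Y X := h6 X
    rw [this, delta_symm]
    exact h4 X hX

end Pool.Agent.H100Z.RI
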